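import Pool.Agent.Lib.FF4.Base

/-!
# FF4.Alg1: the projection of intersection numbers

PROOF. `Lev.J`: apply `bd` to `(insert q A, B)`: the term erasing `q` is `I A B`, the others are
`I (insert q (A.erase a)) B` (`Finset.erase_insert_of_ne`...), and in `ZMod 2` move to the other side
(`CharTwo.add_self_eq_zero`). `Lev.red_eq`: by `sym`. `Lev.red`: `sym` clear; `bd`: add `bd (insert q A) B` and
`bd A (insert q B)`, the two terms `I A B` cancel; `null`: both terms vanish (`q ∈ R`, `insert q A ⊆ R`);
`norm`: `R = insert q (R.erase q)`, `Finset.sum_powerset_insert`, match the two sums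
(`insert w (insert q A) = insert q (insert w A)`, `R \ A = insert q (R.erase q \ A)`,
`R \ insert q A = R.erase q \ A`).
-/

set_option autoImplicit false

namespace FF4

variable {X : Type} [DecidableEq X] {n : ℕ} {O R : Finset X} {I : Finset X → Finset X → ZMod 2}

/-- Boundary relation for `(insert q A, B)`, with the term erasing `q` split off. -/
theorem Lev.bdL (h : Lev n O R I) {q : X} (hq : q ∈ R) (A B : Finset X) (hA : A ⊆ O ∪ R.erase q)
    (hB : B ⊆ O ∪ R.erase q) (hAB : Disjoint A B) (hc : A.card + B.card = n + 2) :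
    I A B + ∑ a ∈ A, I (insert q (A.erase a)) B + ∑ b ∈ B, I (insert q A) (B.erase b) = 0 := by
  have hqO : q ∉ O := fun hO => (Finset.disjoint_left.1 h.dis) hO hq
  have hno : ∀ C : Finset X, C ⊆ O ∪ R.erase q → q ∉ C := by
    intro C hC hqC
    rcases Finset.mem_union.1 (hC hqC) with h1 | h1
    · exact hqO h1
    · exact (Finset.mem_erase.1 h1).1 rfl
  have hsub : ∀ C : Finset X, C ⊆ O ∪ R.erase q → C ⊆ O ∪ R := fun C hC =>
    hC.trans (Finset.union_subset_union_right (Finset.erase_subset _ _))
  have hqA := hno A hA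
  have hqB := hno B hB
  have h1 := h.bd (insert q A) B
    (Finset.insert_subset (Finset.mem_union_right _ hq) (hsub A hA)) (hsub B hB)
    (Finset.disjoint_insert_left.2 ⟨hqB, hAB⟩) (by rw [Finset.card_insert_of_notMem hqA]; omega)
  rw [Finset.sum_insert hqA, Finset.erase_insert hqA] at h1
  rw [← h1]
  congr 2
  refine Finset.sum_congr rfl fun a ha => ?_
  have hne : q ≠ a := fun e => hqA (e ▸ ha)
  rw [Finset.erase_insert_of_ne hne]

/-- Projection from a far point lowers the level by one. -/
theorem Lev.red (h : Lev (n + 1) O R I) {q : X} (hq : q ∈ R) : Lev n O (R.erase q) (red q I) := by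
  have hqO : q ∉ O := fun hO => (Finset.disjoint_left.1 h.dis) hO hq
  refine ⟨?_, ?_, ?_, ?_, ?_⟩
  · exact h.dis.mono_right (Finset.erase_subset _ _)
  · intro A B
    unfold FF4.red
    rw [h.sym (insert q A) B, h.sym A (insert q B), add_comm]
  · intro A B hA hB hAB hc
    have h1 := h.bdL hq A B hA hB hAB (by omega)
    have h2 := h.bdL hq B A hB hA hAB.symm (by omega)
    have e1 : ∑ a ∈ A, I (insert q B) (A.erase a) = ∑ a ∈ A, I (A.erase a) (insert q B) :=
      Finset.sum_congr rfl fun a _ => h.sym _ _
    have e2 : ∑ b ∈ B, I (insert q (B.erase b)) A = ∑ b ∈ B, I A (insert q (B.erase b)) :=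
      Finset.sum_congr rfl fun b _ => h.sym _ _
    rw [h.sym B A, e1, e2] at h2
    unfold FF4.red
    rw [Finset.sum_add_distrib, Finset.sum_add_distrib]
    have h3 : I A B + I A B = 0 := CharTwo.add_self_eq_zero _
    linear_combination h1 + h2 - h3
  · intro A B hA hB hAB hc
    have hqA : q ∉ A := fun hqA => (Finset.mem_erase.1 (hA hqA)).1 rfl
    have hqB : q ∉ B := by
      intro hqB
      rcases Finset.mem_union.1 (hB hqB) with h1 | h1
      · exact hqO h1
      · exact (Finset.mem_erase.1 h1).1 rfl
    have hA' : A ⊆ R := hA.trans (Finset.erase_subset _ _)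
    have hB' : B ⊆ O ∪ R := hB.trans (Finset.union_subset_union_right (Finset.erase_subset _ _))
    unfold FF4.red
    rw [h.null (insert q A) B (Finset.insert_subset hq hA') hB'
      (Finset.disjoint_insert_left.2 ⟨hqB, hAB⟩) (by rw [Finset.card_insert_of_notMem hqA]; omega),
      h.null A (insert q B) hA' (Finset.insert_subset (Finset.mem_union_right _ hq) hB')
      (Finset.disjoint_insert_right.2 ⟨hqA, hAB⟩) (by rw [Finset.card_insert_of_notMem hqB]; omega),
      add_zero]
  · intro w hw w' hw' hne
    have h1 := h.norm w hw w' hw' hne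
    have hR : insert q (R.erase q) = R := Finset.insert_erase hq
    rw [← hR, Finset.sum_powerset_insert (Finset.notMem_erase q R)] at h1
    rw [← h1, ← Finset.sum_add_distrib]
    refine Finset.sum_congr rfl fun A hA => ?_
    have hqA : q ∉ A := fun hqA => (Finset.mem_erase.1 ((Finset.mem_powerset.1 hA) hqA)).1 rfl
    have e1 : insert q (R.erase q) \ A = insert q (R.erase q \ A) :=
      Finset.insert_sdiff_of_notMem _ hqA
    have e2 : insert q (R.erase q) \ insert q A = R.erase q \ A := by
      ext x
      simp only [Finset.mem_sdiff, Finset.mem_insert, Finset.mem_erase]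
      constructor
      · rintro ⟨h2 | h2, h3⟩
        · exact absurd (Or.inl h2) h3
        · exact ⟨h2, fun h4 => h3 (Or.inr h4)⟩
      · rintro ⟨h2, h3⟩
        refine ⟨Or.inr h2, ?_⟩
        rintro (h4 | h4)
        · exact h2.1 h4
        · exact h3 h4
    rw [e1, e2]
    unfold FF4.red
    rw [Finset.insert_comm w q A, Finset.insert_comm w' q (R.erase q \ A), add_comm]

/-- (J). -/
theorem Lev.J (h : Lev n O R I) {q : X} (hq : q ∈ R) (A B : Finset X) (hA : A ⊆ O) (hB : B ⊆ O)
    (hAB : Disjoint A B) (hc : A.card + B.card = n + 2) :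
    I A B = ∑ a ∈ A, I (insert q (A.erase a)) B + ∑ b ∈ B, I (insert q A) (B.erase b) := by
  have h1 := h.bdL hq A B (hA.trans Finset.subset_union_left)
    (hB.trans Finset.subset_union_left) hAB hc
  have h3 : I A B + I A B = 0 := CharTwo.add_self_eq_zero _
  have h4 : ∀ x : ZMod 2, x + x = 0 := fun x => CharTwo.add_self_eq_zero _
  linear_combination h1 - h4 (∑ a ∈ A, I (insert q (A.erase a)) B) -
    h4 (∑ b ∈ B, I (insert q A) (B.erase b))

/-- (J), symmetric part. -/
theorem Lev.red_eq (h : Lev n O R I) (q : X) (A B : Finset X) :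
    I (insert q A) B + I (insert q B) A = FF4.red q I A B := by
  unfold FF4.red
  rw [h.sym (insert q B) A]

end FF4
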