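import Pool.Agent.Lib.FF4.Alg1

/-!
# FF4.Alg2: the sum of the intersection numbers over the certificate

PROOF (sections 2, 3 of /team-store/02f22c_proof.md; everything in `ZMod 2`). Put `I4 = I`, `I3 = red q1 I4`,
`I2 = red q2 I3`, `I1 = red q3 I2`, `I0 = red q4 I1`; `Lev.red` gives the levels 3, 2, 1, 0 with far sets
`{q2,q3,q4}`, `{q3,q4}`, `{q4}`, `∅` (compute the `erase`s with `hq`); `Lev.norm` at level 0 says `I0 {w} {w'} = 1`.
Step 1: for `p ∈ S`: by `Lev.J` (q1), `Finset.sum_comm` and `stokes2`: `∑∑ I4 = ∑_{e ∈ bd p.1} a(p.2, e) +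
∑_{e ∈ bd p.2} b(p.1, e)` with `a(D,e) = ∑_{t ∈ tri D} ∑_{r ∈ seg} I4 (insert q1 (tv e r)) (sv D t)`,
`b(D,e) = ∑_s ∑_r I4 (insert q1 (sv D s)) (tv e r)`, `a + b = k(D,e) = ∑_s ∑_r I3 (sv D s) (tv e r)` (`red_eq`).
Hence total `= ∑_p [∑_{e ∈ bd p.1} a(p.2,e) + ∑_{e ∈ bd p.2} a(p.1,e)] + ∑_p ∑_{e ∈ bd p.2} k(p.1,e)`, and the
first part is `∑_D ∑_e a(D,e) * (c1 D e)`, i.e. 0 (sum over `D` in `S.image Prod.fst ∪ S.image Prod.snd`).
Step 2: `Lev.J` (q2) for `I3 (sv s) (tv e' p)`, `stokes2`, `stokes1`: `k(D,e') = ∑_{e ∈ bd D} j(e',e) +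
[g(u e') + g(v e')]`, `g(w) = ∑_s I3 (insert q2 (sv s)) {pt w}`, `j(e',e) = ∑_p ∑_r I3 (insert q2 (tv e r)) (tv e' p)`;
the `g`-part summed over `e' ∈ bd p.2` is 0 by `c0`. Total `= ∑_{e,e'} TT e e' * j(e',e)`; with `ct` and `TT e e = 0`
(from `cd`) it is `∑_{e<e'} TT e e' * k2(e,e')`, `k2(e,e') = ∑_{r} ∑_{p} I2 (tv e r) (tv e' p)`.
Step 3: for `TT e e' ≠ 0`, `Lev.J` (q3) and `stokes1` twice: `k2(e,e') = j1(u e,e') + j1(v e,e') + j1(u e',e) +
j1(v e',e) + k1(u e',e) + k1(v e',e)`, `j1(w,e) = ∑_r I2 {q3, pt w} (tv e r)`, `k1(w,e) = ∑_r I1 {pt w} (tv e r)`.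
The `j1` terms: `∑_{e<e'} TT e e' (j1(u e,e')+j1(v e,e')+j1(u e',e)+j1(v e',e)) = ∑_{e,e'} TT e e' (j1(u e,e') +
j1(v e,e')) = ∑_{e'} ∑_w j1(w,e') ∑_e inc e w * TT e e' = 0` by `c2`.
Step 4: for `TT e e' ≠ 0`, `w` an end of `e'`: `Lev.J` (q4) for `I1 {pt w} (tv e r)`: `= I1 {q4} (tv e r) +
∑_{x} I1 {q4, pt w} ((tv e r).erase x)`, the first is 0 by `null`; `stokes1`: `k1(w,e) = J0(w,u e) + J0(w,v e)`,
`J0(w',w) = I1 {q4, pt w'} {pt w}`. Total `= ∑_{w',w} MM w' w * J0(w',w)`; `MM w w = 0` (by `cd`), `c3` and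
`J0(w,w') + J0(w',w) = I0 {pt w} {pt w'} = 1` give `∑_{w<w'} MM w w' = 1` (`c4`).
-/

set_option autoImplicit false

namespace FF4

/-- `T(e,e')` modulo 2 -/
def TT {C E : Type} [DecidableEq E] (bd : C → Finset E) (S : Finset (C × C)) (e e' : E) : ZMod 2 :=
  ∑ p ∈ S, if e ∈ bd p.1 ∧ e' ∈ bd p.2 then 1 else 0

/-- the number of ends of the edge `e` equal to `w`, modulo 2 -/
def inc {V E : Type} [DecidableEq V] (u v : E → V) (e : E) (w : V) : ZMod 2 :=
  (if u e = w then 1 else 0) + (if v e = w then 1 else 0)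

/-- `M(w',w)` modulo 2 -/
def MM {V C E : Type} [DecidableEq V] [Fintype E] [LinearOrder E] (u v : E → V) (bd : C → Finset E)
    (S : Finset (C × C)) (w' w : V) : ZMod 2 :=
  ∑ e : E, ∑ e' : E, if e < e' then TT bd S e e' * inc u v e' w' * inc u v e w else 0

/-- The conditions on the certificate: a set `S` of pairs of cells. -/
structure IsCert {V C E : Type} [Fintype V] [LinearOrder V] [Fintype E] [LinearOrder E]
    [DecidableEq C] (u v : E → V) (bd : C → Finset E) (S : Finset (C × C)) : Prop where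
  c0 : ∀ (D : C) (w : V), ∑ e ∈ bd D, inc u v e w = 0
  c1 : ∀ (D : C) (e : E), ∑ p ∈ S, ((if p.1 = D ∧ e ∈ bd p.2 then 1 else 0) +
    (if p.2 = D ∧ e ∈ bd p.1 then 1 else 0) : ZMod 2) = 0
  ct : ∀ e e' : E, TT bd S e e' = TT bd S e' e
  cd : ∀ e e' : E, TT bd S e e' ≠ 0 → u e ≠ u e' ∧ u e ≠ v e' ∧ v e ≠ u e' ∧ v e ≠ v e'
  c2 : ∀ (w : V) (e' : E), ∑ e : E, inc u v e w * TT bd S e e' = 0
  c3 : ∀ w w' : V, MM u v bd S w' w = MM u v bd S w w'
  c4 : ∑ w : V, ∑ w' : V, (if w < w' then MM u v bd S w w' else 0) = 1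

section Aux

theorem sum_sym {E : Type} [Fintype E] [LinearOrder E] (f : E → E → ZMod 2) (h : ∀ e, f e e = 0) :
    ∑ e : E, ∑ e' : E, f e e' = ∑ e : E, ∑ e' : E, if e < e' then f e e' + f e' e else 0 := by
  have h1 : ∀ e e' : E, f e e' = (if e < e' then f e e' else 0) + (if e' < e then f e e' else 0) := by
    intro e e'
    rcases lt_trichotomy e e' with h' | h' | h'
    · simp [h', h'.asymm]
    · subst h'; simp [h]
    · simp [h', h'.asymm]
  calc ∑ e : E, ∑ e' : E, f e e'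
      = ∑ e : E, ∑ e' : E, ((if e < e' then f e e' else 0) + (if e' < e then f e e' else 0)) := by
        refine Finset.sum_congr rfl fun e _ => Finset.sum_congr rfl fun e' _ => h1 e e'
    _ = ∑ e : E, ∑ e' : E, (if e < e' then f e e' else 0)
          + ∑ e : E, ∑ e' : E, (if e' < e then f e e' else 0) := by
        simp only [Finset.sum_add_distrib]
    _ = ∑ e : E, ∑ e' : E, (if e < e' then f e e' else 0)
          + ∑ e' : E, ∑ e : E, (if e' < e then f e e' else 0) := by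
        rw [Finset.sum_comm (f := fun e e' => if e' < e then f e e' else 0)]
    _ = ∑ e : E, ∑ e' : E, if e < e' then f e e' + f e' e else 0 := by
        rw [← Finset.sum_add_distrib]
        refine Finset.sum_congr rfl fun e _ => ?_
        rw [← Finset.sum_add_distrib]
        refine Finset.sum_congr rfl fun e' _ => ?_
        split_ifs <;> simp

theorem sum_inc {V E : Type} [Fintype V] [DecidableEq V] (u v : E → V) (e : E) (g : V → ZMod 2) :
    ∑ w : V, inc u v e w * g w = g (u e) + g (v e) := by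
  unfold inc
  simp [add_mul, Finset.sum_add_distrib]

end Aux

section Steps

variable {X : Type} [DecidableEq X] {n : ℕ} {O R : Finset X} {I : Finset X → Finset X → ZMod 2}

theorem Jsum {ι κ : Type} (h : Lev n O R I) {q : X} (hq : q ∈ R) (σ : Finset ι) (τ : Finset κ)
    (s : ι → Finset X) (t : κ → Finset X) (hs : ∀ i ∈ σ, s i ⊆ O) (ht : ∀ j ∈ τ, t j ⊆ O)
    (hd : ∀ i ∈ σ, ∀ j ∈ τ, Disjoint (s i) (t j))
    (hc : ∀ i ∈ σ, ∀ j ∈ τ, (s i).card + (t j).card = n + 2) :
    ∑ i ∈ σ, ∑ j ∈ τ, I (s i) (t j) =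
      ∑ j ∈ τ, ∑ i ∈ σ, ∑ x ∈ s i, I (insert q ((s i).erase x)) (t j) +
      ∑ i ∈ σ, ∑ j ∈ τ, ∑ x ∈ t j, I (insert q (s i)) ((t j).erase x) := by
  rw [Finset.sum_comm (s := τ) (t := σ)]
  rw [← Finset.sum_add_distrib]
  refine Finset.sum_congr rfl fun i hi => ?_
  rw [← Finset.sum_add_distrib]
  refine Finset.sum_congr rfl fun j hj => ?_
  exact h.J hq (s i) (t j) (hs i hi) (ht j hj) (hd i hi j hj) (hc i hi j hj)

theorem eq_of_add {x y z : ZMod 2} (h : x + y = z) : x = z + y := by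
  rw [← h, add_assoc, CharTwo.add_self_eq_zero, add_zero]

theorem insum {ι κ : Type} (h : Lev n O R I) (q : X) (σ : Finset ι) (τ : Finset κ)
    (s : ι → Finset X) (t : κ → Finset X) :
    ∑ i ∈ σ, ∑ j ∈ τ, I (insert q (s i)) (t j) =
      ∑ i ∈ σ, ∑ j ∈ τ, FF4.red q I (s i) (t j) + ∑ i ∈ σ, ∑ j ∈ τ, I (insert q (t j)) (s i) := by
  rw [← Finset.sum_add_distrib]
  refine Finset.sum_congr rfl fun i hi => ?_
  rw [← Finset.sum_add_distrib]
  refine Finset.sum_congr rfl fun j hj => ?_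
  exact eq_of_add (h.red_eq q (s i) (t j))

end Steps

/-- The sum theorem. -/
theorem sum_eq_one {V C E X T1 T2 : Type} [Fintype V] [LinearOrder V] [Fintype E] [LinearOrder E]
    [DecidableEq C] [DecidableEq X] (u v : E → V) (bd : C → Finset E) (S : Finset (C × C))
    (hS : IsCert u v bd S)
    (O : Finset X) (q1 q2 q3 q4 : X) (hq : [q1, q2, q3, q4].Nodup)
    (I : Finset X → Finset X → ZMod 2) (hI : Lev 4 O {q1, q2, q3, q4} I)
    (tri : C → Finset T2) (sv : C → T2 → Finset X) (seg : Finset T1) (tv : E → T1 → Finset X)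
    (pt : V → X)
    (hptO : ∀ w, pt w ∈ O) (hpt : Function.Injective pt)
    (hsvO : ∀ D, ∀ s ∈ tri D, sv D s ⊆ O) (hsvc : ∀ D, ∀ s ∈ tri D, (sv D s).card = 3)
    (htvO : ∀ e, ∀ t ∈ seg, tv e t ⊆ O) (htvc : ∀ e, ∀ t ∈ seg, (tv e t).card = 2)
    (stokes2 : ∀ (D : C) (h : Finset X → ZMod 2),
      ∑ s ∈ tri D, ∑ x ∈ sv D s, h ((sv D s).erase x) = ∑ e ∈ bd D, ∑ t ∈ seg, h (tv e t))
    (stokes1 : ∀ (e : E) (h : Finset X → ZMod 2),
      ∑ t ∈ seg, ∑ x ∈ tv e t, h ((tv e t).erase x) = h {pt (u e)} + h {pt (v e)})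
    (dis22 : ∀ p ∈ S, ∀ s ∈ tri p.1, ∀ t ∈ tri p.2, Disjoint (sv p.1 s) (sv p.2 t))
    (dis21 : ∀ p ∈ S, ∀ s ∈ tri p.1, ∀ e ∈ bd p.2, ∀ t ∈ seg, Disjoint (sv p.1 s) (tv e t))
    (dis11 : ∀ e e', TT bd S e e' ≠ 0 → ∀ t ∈ seg, ∀ t' ∈ seg, Disjoint (tv e t) (tv e' t'))
    (dis10 : ∀ e e', TT bd S e e' ≠ 0 → ∀ t ∈ seg, pt (u e') ∉ tv e t ∧ pt (v e') ∉ tv e t) :
    ∑ p ∈ S, ∑ s ∈ tri p.1, ∑ t ∈ tri p.2, I (sv p.1 s) (sv p.2 t) = 1 := by
  have hq12 : q1 ≠ q2 := by
    intro h; subst h; simp at hq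
  have hq13 : q1 ≠ q3 := by
    intro h; subst h; simp at hq
  have hq14 : q1 ≠ q4 := by
    intro h; subst h; simp at hq
  have hq23 : q2 ≠ q3 := by
    intro h; subst h; simp at hq
  have hq24 : q2 ≠ q4 := by
    intro h; subst h; simp at hq
  have hq34 : q3 ≠ q4 := by
    intro h; subst h; simp at hq
  have e1 : ({q1, q2, q3, q4} : Finset X).erase q1 = {q2, q3, q4} := by
    ext x; simp only [Finset.mem_erase, Finset.mem_insert, Finset.mem_singleton]
    constructor
    · rintro ⟨h, rfl | h'⟩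
      · exact absurd rfl h
      · exact h'
    · rintro (rfl | rfl | rfl)
      · exact ⟨hq12.symm, by simp⟩
      · exact ⟨hq13.symm, by simp⟩
      · exact ⟨hq14.symm, by simp⟩
  have e2 : ({q2, q3, q4} : Finset X).erase q2 = {q3, q4} := by
    ext x; simp only [Finset.mem_erase, Finset.mem_insert, Finset.mem_singleton]
    constructor
    · rintro ⟨h, rfl | h'⟩
      · exact absurd rfl h
      · exact h'
    · rintro (rfl | rfl)
      · exact ⟨hq23.symm, by simp⟩
      · exact ⟨hq24.symm, by simp⟩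
  have e3 : ({q3, q4} : Finset X).erase q3 = {q4} := by
    ext x; simp only [Finset.mem_erase, Finset.mem_insert, Finset.mem_singleton]
    constructor
    · rintro ⟨h, rfl | h'⟩
      · exact absurd rfl h
      · exact h'
    · rintro rfl
      exact ⟨hq34.symm, by simp⟩
  have e4 : ({q4} : Finset X).erase q4 = ∅ := by simp
  set I3 : Finset X → Finset X → ZMod 2 := FF4.red q1 I with hI3d
  have hI3 : Lev 3 O {q2, q3, q4} I3 := by
    have := hI.red (q := q1) (by simp)
    rwa [e1] at this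
  set I2 : Finset X → Finset X → ZMod 2 := FF4.red q2 I3 with hI2d
  have hI2 : Lev 2 O {q3, q4} I2 := by
    have := hI3.red (q := q2) (by simp)
    rwa [e2] at this
  set I1 : Finset X → Finset X → ZMod 2 := FF4.red q3 I2 with hI1d
  have hI1 : Lev 1 O {q4} I1 := by
    have := hI2.red (q := q3) (by simp)
    rwa [e3] at this
  set I0 : Finset X → Finset X → ZMod 2 := FF4.red q4 I1 with hI0d
  have hI0 : Lev 0 O ∅ I0 := by
    have := hI1.red (q := q4) (by simp)
    rwa [e4] at this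
  have hI0n : ∀ w ∈ O, ∀ w' ∈ O, w ≠ w' → I0 {w} {w'} = 1 := by
    intro w hw w' hw' hne
    have := hI0.norm w hw w' hw' hne
    simpa using this
  -- the functions
  set a : C → E → ZMod 2 := fun D e => ∑ t ∈ tri D, ∑ r ∈ seg, I (insert q1 (tv e r)) (sv D t)
    with ha
  set k : C → E → ZMod 2 := fun D e => ∑ s ∈ tri D, ∑ r ∈ seg, I3 (sv D s) (tv e r) with hk
  -- step 1
  have step1 : ∀ p ∈ S, ∑ s ∈ tri p.1, ∑ t ∈ tri p.2, I (sv p.1 s) (sv p.2 t) =
      (∑ e ∈ bd p.1, a p.2 e + ∑ e ∈ bd p.2, a p.1 e) + ∑ e ∈ bd p.2, k p.1 e := by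
    intro p hp
    rw [Jsum hI (q := q1) (by simp) (tri p.1) (tri p.2) (sv p.1) (sv p.2) (hsvO p.1) (hsvO p.2)
      (dis22 p hp) (fun i hi j hj => by rw [hsvc _ i hi, hsvc _ j hj])]
    have h1 : ∑ j ∈ tri p.2, ∑ i ∈ tri p.1, ∑ x ∈ sv p.1 i,
        I (insert q1 ((sv p.1 i).erase x)) (sv p.2 j) = ∑ e ∈ bd p.1, a p.2 e := by
      rw [ha]
      simp only []
      rw [Finset.sum_comm (s := bd p.1)]
      refine Finset.sum_congr rfl fun j _ => ?_
      exact stokes2 p.1 (fun A => I (insert q1 A) (sv p.2 j))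
    have h2 : ∑ i ∈ tri p.1, ∑ j ∈ tri p.2, ∑ x ∈ sv p.2 j,
        I (insert q1 (sv p.1 i)) ((sv p.2 j).erase x) =
        ∑ e ∈ bd p.2, k p.1 e + ∑ e ∈ bd p.2, a p.1 e := by
      have h3 : ∑ i ∈ tri p.1, ∑ j ∈ tri p.2, ∑ x ∈ sv p.2 j,
        I (insert q1 (sv p.1 i)) ((sv p.2 j).erase x) =
          ∑ i ∈ tri p.1, ∑ e ∈ bd p.2, ∑ r ∈ seg, I (insert q1 (sv p.1 i)) (tv e r) := by
        refine Finset.sum_congr rfl fun i _ => ?_
        exact stokes2 p.2 (fun A => I (insert q1 (sv p.1 i)) A)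
      rw [h3, Finset.sum_comm, ← Finset.sum_add_distrib]
      refine Finset.sum_congr rfl fun e _ => ?_
      exact insum hI q1 (tri p.1) seg (sv p.1) (tv e)
    rw [h1, h2]
    ring
  -- the `a` terms cancel
  have stepA : ∑ p ∈ S, (∑ e ∈ bd p.1, a p.2 e + ∑ e ∈ bd p.2, a p.1 e) = 0 := by
    have key : ∀ p ∈ S, (∑ e ∈ bd p.1, a p.2 e + ∑ e ∈ bd p.2, a p.1 e) =
        ∑ D ∈ S.image Prod.fst ∪ S.image Prod.snd, ∑ e : E,
          ((if p.1 = D ∧ e ∈ bd p.2 then 1 else 0) +
            (if p.2 = D ∧ e ∈ bd p.1 then 1 else 0) : ZMod 2) * a D e := by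
      intro p hp
      have hp1 : p.1 ∈ S.image Prod.fst ∪ S.image Prod.snd :=
        Finset.mem_union_left _ (Finset.mem_image_of_mem _ hp)
      have hp2 : p.2 ∈ S.image Prod.fst ∪ S.image Prod.snd :=
        Finset.mem_union_right _ (Finset.mem_image_of_mem _ hp)
      have g1 : ∑ D ∈ S.image Prod.fst ∪ S.image Prod.snd, ∑ e : E,
          (if p.1 = D ∧ e ∈ bd p.2 then 1 else 0 : ZMod 2) * a D e = ∑ e ∈ bd p.2, a p.1 e := by
        rw [Finset.sum_eq_single p.1]
        · simp [ite_mul, Finset.sum_ite_mem]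
        · intro D _ hD
          refine Finset.sum_eq_zero fun e _ => ?_
          rw [if_neg (fun h => hD h.1.symm), zero_mul]
        · intro h; exact absurd hp1 h
      have g2 : ∑ D ∈ S.image Prod.fst ∪ S.image Prod.snd, ∑ e : E,
          (if p.2 = D ∧ e ∈ bd p.1 then 1 else 0 : ZMod 2) * a D e = ∑ e ∈ bd p.1, a p.2 e := by
        rw [Finset.sum_eq_single p.2]
        · simp [ite_mul, Finset.sum_ite_mem]
        · intro D _ hD
          refine Finset.sum_eq_zero fun e _ => ?_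
          rw [if_neg (fun h => hD h.1.symm), zero_mul]
        · intro h; exact absurd hp2 h
      rw [← g1, ← g2, ← Finset.sum_add_distrib]
      refine Finset.sum_congr rfl fun D _ => ?_
      rw [← Finset.sum_add_distrib]
      refine Finset.sum_congr rfl fun e _ => ?_
      ring
    rw [Finset.sum_congr rfl key, Finset.sum_comm]
    refine Finset.sum_eq_zero fun D _ => ?_
    rw [Finset.sum_comm]
    refine Finset.sum_eq_zero fun e _ => ?_
    rw [← Finset.sum_mul, hS.c1 D e, zero_mul]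
  -- step 2
  set jj : E → E → ZMod 2 := fun e e' => ∑ t ∈ seg, ∑ r ∈ seg, I3 (insert q2 (tv e r)) (tv e' t)
    with hjj
  set g : C → V → ZMod 2 := fun D w => ∑ s ∈ tri D, I3 (insert q2 (sv D s)) {pt w} with hg
  have step2 : ∀ p ∈ S, ∀ e' ∈ bd p.2, k p.1 e' =
      ∑ e ∈ bd p.1, jj e e' + (g p.1 (u e') + g p.1 (v e')) := by
    intro p hp e' he'
    rw [hk]
    simp only []
    rw [Jsum hI3 (q := q2) (by simp) (tri p.1) seg (sv p.1) (tv e') (hsvO p.1) (htvO e')
      (fun s hs t ht => dis21 p hp s hs e' he' t ht)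
      (fun i hi j hj => by rw [hsvc _ i hi, htvc _ j hj])]
    congr 1
    · rw [hjj]
      simp only []
      rw [Finset.sum_comm (s := bd p.1)]
      refine Finset.sum_congr rfl fun j _ => ?_
      exact stokes2 p.1 (fun A => I3 (insert q2 A) (tv e' j))
    · rw [hg]
      simp only []
      rw [← Finset.sum_add_distrib]
      refine Finset.sum_congr rfl fun i _ => ?_
      exact stokes1 e' (fun A => I3 (insert q2 (sv p.1 i)) A)
  have stepB : ∀ p ∈ S, ∑ e' ∈ bd p.2, (g p.1 (u e') + g p.1 (v e')) = 0 := by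
    intro p _
    have : ∀ e' ∈ bd p.2, (g p.1 (u e') + g p.1 (v e')) = ∑ w : V, inc u v e' w * g p.1 w :=
      fun e' _ => (sum_inc u v e' (g p.1)).symm
    rw [Finset.sum_congr rfl this, Finset.sum_comm]
    refine Finset.sum_eq_zero fun w _ => ?_
    rw [← Finset.sum_mul, hS.c0 p.2 w, zero_mul]
  have stepC : ∑ p ∈ S, ∑ e' ∈ bd p.2, ∑ e ∈ bd p.1, jj e e' =
      ∑ e : E, ∑ e' : E, TT bd S e e' * jj e e' := by
    have : ∀ e e' : E, TT bd S e e' * jj e e' =
        ∑ p ∈ S, if e ∈ bd p.1 ∧ e' ∈ bd p.2 then jj e e' else 0 := by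
      intro e e'
      unfold TT
      rw [Finset.sum_mul]
      refine Finset.sum_congr rfl fun p _ => ?_
      split_ifs <;> simp
    simp only [this]
    have sw : ∑ e : E, ∑ e' : E, ∑ p ∈ S, (if e ∈ bd p.1 ∧ e' ∈ bd p.2 then jj e e' else 0) =
        ∑ p ∈ S, ∑ e : E, ∑ e' : E, (if e ∈ bd p.1 ∧ e' ∈ bd p.2 then jj e e' else 0) :=
      (Finset.sum_congr rfl fun e _ => Finset.sum_comm).trans Finset.sum_comm
    rw [sw]
    refine Finset.sum_congr rfl fun p _ => ?_
    rw [Finset.sum_comm (s := (Finset.univ : Finset E))]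
    rw [← Finset.sum_filter_add_sum_filter_not (Finset.univ : Finset E) (fun e' => e' ∈ bd p.2)]
    have z : ∑ x ∈ Finset.univ with x ∉ bd p.2, ∑ x_1 : E,
        (if x_1 ∈ bd p.1 ∧ x ∈ bd p.2 then jj x_1 x else 0) = 0 := by
      refine Finset.sum_eq_zero fun x hx => Finset.sum_eq_zero fun y _ => ?_
      rw [if_neg (fun h => (Finset.mem_filter.1 hx).2 h.2)]
    rw [z, add_zero]
    have fe : (Finset.univ.filter fun e' => e' ∈ bd p.2) = bd p.2 := by ext; simp
    rw [fe]
    refine Finset.sum_congr rfl fun e' he' => ?_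
    simp [he', Finset.sum_ite_mem]
  have TT0 : ∀ e, TT bd S e e = 0 := by
    intro e
    by_contra h
    exact (hS.cd e e h).1 rfl
  have total1 : ∑ p ∈ S, ∑ s ∈ tri p.1, ∑ t ∈ tri p.2, I (sv p.1 s) (sv p.2 t) =
      ∑ e : E, ∑ e' : E, TT bd S e e' * jj e e' := by
    rw [Finset.sum_congr rfl step1, Finset.sum_add_distrib, stepA, zero_add, ← stepC]
    refine Finset.sum_congr rfl fun p hp => ?_
    rw [Finset.sum_congr rfl (step2 p hp), Finset.sum_add_distrib, stepB p hp, add_zero]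
  rw [total1]
  rw [sum_sym (fun e e' => TT bd S e e' * jj e e') (fun e => by simp [TT0 e])]
  -- step 3
  set k2 : E → E → ZMod 2 := fun e e' => ∑ r ∈ seg, ∑ t ∈ seg, I2 (tv e r) (tv e' t) with hk2
  have jjk : ∀ e e', jj e e' + jj e' e = k2 e e' := by
    intro e e'
    have := insum hI3 q2 seg seg (tv e) (tv e')
    rw [hk2, hjj]
    simp only []
    rw [Finset.sum_comm, this]
    rw [add_assoc, CharTwo.add_self_eq_zero, add_zero]
  set j1 : V → E → ZMod 2 := fun w e' => ∑ t ∈ seg, I2 (insert q3 {pt w}) (tv e' t) with hj1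
  set k1 : V → E → ZMod 2 := fun w e => ∑ r ∈ seg, I1 {pt w} (tv e r) with hk1
  have step3 : ∀ e e', TT bd S e e' ≠ 0 → k2 e e' =
      ((j1 (u e) e' + j1 (v e) e') + (j1 (u e') e + j1 (v e') e)) + (k1 (u e') e + k1 (v e') e) := by
    intro e e' hT
    have hin : ∀ w : V, ∑ r ∈ seg, I2 (insert q3 (tv e r)) {pt w} = k1 w e + j1 w e := by
      intro w
      rw [hk1, hj1]
      simp only []
      rw [← Finset.sum_add_distrib]
      refine Finset.sum_congr rfl fun r _ => ?_
      have := hI2.red_eq q3 {pt w} (tv e r)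
      rw [add_comm] at this
      exact eq_of_add this
    rw [hk2]
    simp only []
    rw [Jsum hI2 (q := q3) (by simp) seg seg (tv e) (tv e') (htvO e) (htvO e') (dis11 e e' hT)
      (fun i hi j hj => by rw [htvc _ i hi, htvc _ j hj])]
    have h1 : ∑ j ∈ seg, ∑ i ∈ seg, ∑ x ∈ tv e i, I2 (insert q3 ((tv e i).erase x)) (tv e' j) =
        j1 (u e) e' + j1 (v e) e' := by
      rw [hj1]
      simp only []
      rw [← Finset.sum_add_distrib]
      refine Finset.sum_congr rfl fun j _ => ?_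
      exact stokes1 e (fun A => I2 (insert q3 A) (tv e' j))
    have h2 : ∑ i ∈ seg, ∑ j ∈ seg, ∑ x ∈ tv e' j, I2 (insert q3 (tv e i)) ((tv e' j).erase x) =
        (k1 (u e') e + j1 (u e') e) + (k1 (v e') e + j1 (v e') e) := by
      rw [← hin, ← hin, ← Finset.sum_add_distrib]
      refine Finset.sum_congr rfl fun i _ => ?_
      exact stokes1 e' (fun A => I2 (insert q3 (tv e i)) A)
    rw [h1, h2]
    ring
  -- the `j1` terms cancel
  have stepD : ∑ e : E, ∑ e' : E, (if e < e' then TT bd S e e' * ((j1 (u e) e' + j1 (v e) e') +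
      (j1 (u e') e + j1 (v e') e)) else 0) = 0 := by
    have h1 : ∑ e : E, ∑ e' : E, TT bd S e e' * (j1 (u e) e' + j1 (v e) e') = 0 := by
      rw [Finset.sum_comm]
      refine Finset.sum_eq_zero fun e' _ => ?_
      have : ∀ e, TT bd S e e' * (j1 (u e) e' + j1 (v e) e') =
          ∑ w : V, inc u v e w * TT bd S e e' * j1 w e' := by
        intro e
        rw [← sum_inc u v e (fun w => j1 w e'), Finset.mul_sum]
        refine Finset.sum_congr rfl fun w _ => ?_
        ring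
      rw [Finset.sum_congr rfl (fun e _ => this e), Finset.sum_comm]
      refine Finset.sum_eq_zero fun w _ => ?_
      rw [← Finset.sum_mul, hS.c2 w e', zero_mul]
    rw [sum_sym (fun e e' => TT bd S e e' * (j1 (u e) e' + j1 (v e) e'))
      (fun e => by simp [TT0 e])] at h1
    refine (Finset.sum_congr rfl fun e _ => Finset.sum_congr rfl fun e' _ => ?_).trans h1
    split_ifs
    · rw [hS.ct e' e]; ring
    · rfl
  have total2 : ∑ e : E, ∑ e' : E, (if e < e' then TT bd S e e' * jj e e' + TT bd S e' e * jj e' e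
      else 0) = ∑ e : E, ∑ e' : E, (if e < e' then TT bd S e e' * (k1 (u e') e + k1 (v e') e)
      else 0) := by
    rw [← zero_add (∑ e : E, ∑ e' : E, (if e < e' then TT bd S e e' * (k1 (u e') e + k1 (v e') e)
      else 0)), ← stepD, ← Finset.sum_add_distrib]
    refine Finset.sum_congr rfl fun e _ => ?_
    rw [← Finset.sum_add_distrib]
    refine Finset.sum_congr rfl fun e' _ => ?_
    split_ifs
    · rw [hS.ct e' e, ← mul_add, jjk]
      by_cases hT : TT bd S e e' = 0
      · rw [hT]; simp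
      · rw [step3 e e' hT]; ring
    · simp
  rw [total2]
  -- step 4
  set J0 : V → V → ZMod 2 := fun w' w => I1 (insert q4 {pt w'}) {pt w} with hJ0
  have hq4O : q4 ∉ O := fun h => Finset.disjoint_left.1 hI1.dis h (by simp)
  have step4 : ∀ e w, (∀ t ∈ seg, pt w ∉ tv e t) → k1 w e = J0 w (u e) + J0 w (v e) := by
    intro e w hw
    have h1 : ∀ r ∈ seg, I1 {pt w} (tv e r) =
        ∑ x ∈ tv e r, I1 (insert q4 {pt w}) ((tv e r).erase x) := by
      intro r hr
      have := hI1.J (q := q4) (by simp) {pt w} (tv e r) (by simpa using hptO w) (htvO e r hr)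
        (by simpa using hw r hr) (by rw [htvc e r hr]; simp)
      rw [this]
      have hz : ∑ a ∈ ({pt w} : Finset X), I1 (insert q4 (({pt w} : Finset X).erase a)) (tv e r)
          = 0 := by
        rw [Finset.sum_singleton]
        have he : ({pt w} : Finset X).erase (pt w) = ∅ := by simp
        rw [he]
        refine hI1.null _ _ (by simp) ((htvO e r hr).trans Finset.subset_union_left) ?_ ?_
        · simp only [insert_empty_eq, Finset.disjoint_singleton_left]
          exact fun h => hq4O (htvO e r hr h)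
        · simp [htvc e r hr]
      rw [hz, zero_add]
    rw [hk1]
    simp only []
    rw [Finset.sum_congr rfl h1]
    exact stokes1 e (fun A => I1 (insert q4 {pt w}) A)
  have total3 : ∑ e : E, ∑ e' : E, (if e < e' then TT bd S e e' * (k1 (u e') e + k1 (v e') e)
      else 0) = ∑ w' : V, ∑ w : V, MM u v bd S w' w * J0 w' w := by
    have hM : ∀ w' w, MM u v bd S w' w * J0 w' w = ∑ e : E, ∑ e' : E,
        (if e < e' then TT bd S e e' * inc u v e' w' * inc u v e w * J0 w' w else 0) := by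
      intro w' w
      unfold MM
      rw [Finset.sum_mul]
      refine Finset.sum_congr rfl fun e _ => ?_
      rw [Finset.sum_mul]
      refine Finset.sum_congr rfl fun e' _ => ?_
      split_ifs <;> simp
    simp only [hM]
    have hsw : ∑ w' : V, ∑ w : V, ∑ e : E, ∑ e' : E,
        (if e < e' then TT bd S e e' * inc u v e' w' * inc u v e w * J0 w' w else 0) =
        ∑ e : E, ∑ e' : E, ∑ w' : V, ∑ w : V,
        (if e < e' then TT bd S e e' * inc u v e' w' * inc u v e w * J0 w' w else 0) := by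
      rw [Finset.sum_congr rfl (fun w' _ => Finset.sum_comm), Finset.sum_comm]
      refine Finset.sum_congr rfl fun e _ => ?_
      rw [Finset.sum_congr rfl (fun w' _ => Finset.sum_comm), Finset.sum_comm]
    rw [hsw]
    refine Finset.sum_congr rfl fun e _ => Finset.sum_congr rfl fun e' _ => ?_
    split_ifs with hlt
    · by_cases hT : TT bd S e e' = 0
      · simp [hT]
      · have hu := fun t ht => (dis10 e e' hT t ht).1
        have hv := fun t ht => (dis10 e e' hT t ht).2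
        rw [step4 e (u e') hu, step4 e (v e') hv]
        have : ∀ w' : V, ∑ w : V, TT bd S e e' * inc u v e' w' * inc u v e w * J0 w' w =
            TT bd S e e' * (inc u v e' w' * (J0 w' (u e) + J0 w' (v e))) := by
          intro w'
          rw [← sum_inc u v e (fun w => J0 w' w), Finset.mul_sum, Finset.mul_sum]
          refine Finset.sum_congr rfl fun w _ => ?_
          ring
        rw [Finset.sum_congr rfl (fun w' _ => this w'), ← Finset.mul_sum,
          sum_inc u v e' (fun w' => J0 w' (u e) + J0 w' (v e))]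
    · simp
  rw [total3]
  have MM0 : ∀ w, MM u v bd S w w = 0 := by
    intro w
    unfold MM
    refine Finset.sum_eq_zero fun e _ => Finset.sum_eq_zero fun e' _ => ?_
    split_ifs with hlt
    · by_cases hT : TT bd S e e' = 0
      · simp [hT]
      · obtain ⟨h1, h2, h3, h4⟩ := hS.cd e e' hT
        unfold inc
        by_cases hu : u e = w
        · have : u e' ≠ w := fun h => h1 (hu.trans h.symm)
          have : v e' ≠ w := fun h => h2 (hu.trans h.symm)
          simp [*]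
        · by_cases hv : v e = w
          · have : u e' ≠ w := fun h => h3 (hv.trans h.symm)
            have : v e' ≠ w := fun h => h4 (hv.trans h.symm)
            simp [*]
          · simp [hu, hv]
    · rfl
  rw [sum_sym (fun w' w => MM u v bd S w' w * J0 w' w) (fun w => by simp [MM0 w])]
  rw [← hS.c4]
  refine Finset.sum_congr rfl fun w _ => Finset.sum_congr rfl fun w' _ => ?_
  split_ifs with hlt
  · rw [hS.c3 w' w, ← mul_add]
    have h1 : J0 w w' + J0 w' w = I0 {pt w} {pt w'} := hI1.red_eq q4 {pt w} {pt w'}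
    rw [h1, hI0n _ (hptO w) _ (hptO w') (fun h => hlt.ne (hpt h)), mul_one]
  · rfl

end FF4
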