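import Mathlib

/-!
# FF4.Base: shared definitions for the proof that `C11` is not 4-flat
-/

set_option autoImplicit false

namespace FF4

/-- four-dimensional Euclidean space -/
abbrev E4 := EuclideanSpace ℝ (Fin 4)

/-- The convex hulls of the `g`-images of `A` and `B` meet. -/
def Meet {X : Type} (g : X → E4) (A B : Finset X) : Prop :=
  (convexHull ℝ (g '' (A : Set X)) ∩ convexHull ℝ (g '' (B : Set X))).Nonempty

open Classical in
/-- intersection number modulo 2 -/
noncomputable def inum {X : Type} (g : X → E4) (A B : Finset X) : ZMod 2 :=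
  if Meet g A B then 1 else 0

/-- general position of `g` on the finite set `Y`: any at most 5 points are affinely independent -/
def GenPos {X : Type} (g : X → E4) (Y : Finset X) : Prop :=
  ∀ s : Finset X, s ⊆ Y → s.card ≤ 5 → AffineIndependent ℝ (fun x : s => g x)

/-- Intersection numbers of level `n`: ordinary points `O`, far points `R`. -/
structure Lev {X : Type} [DecidableEq X] (n : ℕ) (O R : Finset X)
    (I : Finset X → Finset X → ZMod 2) : Prop where
  dis : Disjoint O R
  sym : ∀ A B : Finset X, I A B = I B A
  bd : ∀ A B : Finset X, A ⊆ O ∪ R → B ⊆ O ∪ R → Disjoint A B → A.card + B.card = n + 3 →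
    ∑ a ∈ A, I (A.erase a) B + ∑ b ∈ B, I A (B.erase b) = 0
  null : ∀ A B : Finset X, A ⊆ R → B ⊆ O ∪ R → Disjoint A B → A.card + B.card = n + 2 →
    I A B = 0
  norm : ∀ w ∈ O, ∀ w' ∈ O, w ≠ w' →
    ∑ A ∈ R.powerset, I (insert w A) (insert w' (R \ A)) = 1

/-- Projection from the point `q`. -/
def red {X : Type} [DecidableEq X] (q : X) (I : Finset X → Finset X → ZMod 2) :
    Finset X → Finset X → ZMod 2 :=
  fun A B => I (insert q A) B + I A (insert q B)

end FF4
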