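import Pool.Agent.Lib.FF4.Defs
import Pool.Agent.Lib.FF4.Alg2

/-!
# FF4.Cert: the certificate for `C11` (55 induced cycles, 67 pairs)
-/

set_option autoImplicit false
set_option maxRecDepth 100000

namespace FF4

def ulist : List (Fin 11) :=
  [0, 0, 0, 0, 1, 1, 1, 2, 2, 2, 3, 3, 4, 4, 5, 5, 6, 6, 7, 7, 8, 9]

def vlist : List (Fin 11) :=
  [1, 3, 8, 10, 2, 4, 9, 3, 5, 10, 4, 6, 5, 7, 6, 8, 7, 9, 8, 10, 9, 10]

def cyclist : List (List (Fin 11)) :=
  [[0, 1, 2, 3], [0, 1, 2, 5, 8], [0, 1, 2, 10], [0, 1, 4, 3], [0, 1, 4, 5, 8],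
   [0, 1, 4, 7, 8], [0, 1, 4, 7, 10], [0, 1, 9, 6, 3], [0, 1, 9, 8], [0, 1, 9, 10],
   [0, 3, 2, 5, 8], [0, 3, 2, 10], [0, 3, 4, 5, 8], [0, 3, 4, 7, 8], [0, 3, 4, 7, 10],
   [0, 3, 6, 5, 8], [0, 3, 6, 7, 8], [0, 3, 6, 7, 10], [0, 3, 6, 9, 8], [0, 3, 6, 9, 10],
   [0, 8, 5, 2, 10], [0, 8, 7, 10], [0, 8, 9, 10], [1, 2, 3, 4], [1, 2, 3, 6, 9],
   [1, 2, 5, 4], [1, 2, 5, 6, 9], [1, 2, 5, 8, 9], [1, 2, 10, 7, 4], [1, 2, 10, 9],
   [1, 4, 3, 6, 9], [1, 4, 5, 6, 9], [1, 4, 5, 8, 9], [1, 4, 7, 6, 9], [1, 4, 7, 8, 9],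
   [1, 4, 7, 10, 9], [2, 3, 4, 5], [2, 3, 4, 7, 10], [2, 3, 6, 5], [2, 3, 6, 7, 10],
   [2, 3, 6, 9, 10], [2, 5, 4, 7, 10], [2, 5, 6, 7, 10], [2, 5, 6, 9, 10], [2, 5, 8, 7, 10],
   [2, 5, 8, 9, 10], [3, 4, 5, 6], [3, 4, 7, 6], [4, 5, 6, 7], [4, 5, 8, 7],
   [5, 6, 7, 8], [5, 6, 9, 8], [6, 7, 8, 9], [6, 7, 10, 9], [7, 8, 9, 10]]

def ellist : List (List (Fin 22)) :=
  [[0, 4, 7, 1], [0, 4, 8, 15, 2], [0, 4, 9, 3], [0, 5, 10, 1],
   [0, 5, 12, 15, 2], [0, 5, 13, 18, 2], [0, 5, 13, 19, 3], [0, 6, 17, 11, 1],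
   [0, 6, 20, 2], [0, 6, 21, 3], [1, 7, 8, 15, 2], [1, 7, 9, 3],
   [1, 10, 12, 15, 2], [1, 10, 13, 18, 2], [1, 10, 13, 19, 3], [1, 11, 14, 15, 2],
   [1, 11, 16, 18, 2], [1, 11, 16, 19, 3], [1, 11, 17, 20, 2], [1, 11, 17, 21, 3],
   [2, 15, 8, 9, 3], [2, 18, 19, 3], [2, 20, 21, 3], [4, 7, 10, 5],
   [4, 7, 11, 17, 6], [4, 8, 12, 5], [4, 8, 14, 17, 6], [4, 8, 15, 20, 6],
   [4, 9, 19, 13, 5], [4, 9, 21, 6], [5, 10, 11, 17, 6], [5, 12, 14, 17, 6],
   [5, 12, 15, 20, 6], [5, 13, 16, 17, 6], [5, 13, 18, 20, 6], [5, 13, 19, 21, 6],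
   [7, 10, 12, 8], [7, 10, 13, 19, 9], [7, 11, 14, 8], [7, 11, 16, 19, 9],
   [7, 11, 17, 21, 9], [8, 12, 13, 19, 9], [8, 14, 16, 19, 9], [8, 14, 17, 21, 9],
   [8, 15, 18, 19, 9], [8, 15, 20, 21, 9], [10, 12, 14, 11], [10, 13, 16, 11],
   [12, 14, 16, 13], [12, 15, 18, 13], [14, 16, 18, 15], [14, 17, 20, 15],
   [16, 18, 20, 17], [16, 19, 21, 17], [18, 20, 21, 19]]

def emlist : List ℕ :=
  [147, 33045, 537, 1059, 36901, 270373, 532521, 133187, 1048645,
   2097225, 33158, 650, 37894, 271366, 533514, 51206, 329734, 591882,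
   1181702, 2230282, 33548, 786444, 3145740, 1200, 133328, 4400, 147792,
   1081680, 533040, 2097744, 134240, 151648, 1085536, 204896, 1319008, 2629728,
   5504, 534144, 18816, 592512, 2230912, 537344, 606976, 2245376, 819968,
   3179264, 23552, 76800, 94208, 307200, 376832, 1228800, 1507328, 2818048,
   3932160]

def plist : List (Fin 55 × Fin 55) :=
  [(0, 48), (0, 49), (0, 50), (3, 43), (3, 44), (3, 50), (3, 53), (4, 39), (4, 40),
   (4, 53), (5, 38), (5, 40), (5, 43), (7, 41), (7, 44), (7, 49), (8, 38), (8, 39),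
   (8, 41), (8, 48), (10, 33), (10, 35), (10, 53), (11, 32), (11, 33), (11, 48), (11, 51),
   (13, 26), (13, 29), (13, 43), (14, 26), (14, 27), (14, 51), (15, 28), (15, 29), (15, 35),
   (17, 25), (17, 27), (17, 32), (18, 25), (18, 28), (18, 41), (20, 30), (20, 33), (20, 47),
   (21, 23), (21, 26), (21, 30), (21, 38), (22, 23), (22, 25), (22, 38), (22, 47), (22, 48),
   (23, 50), (23, 51), (23, 53), (25, 53), (27, 47), (28, 51), (29, 47), (29, 48), (29, 49),
   (30, 44), (32, 39), (35, 38), (40, 49)]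

def pmlist : List (ℕ × ℕ) :=
  [(147, 94208), (147, 307200), (147, 376832), (1059, 2245376), (1059, 819968),
   (1059, 376832), (1059, 2818048), (36901, 592512), (36901, 2230912), (36901, 2818048),
   (270373, 18816), (270373, 2230912), (270373, 2245376), (133187, 537344), (133187, 819968),
   (133187, 307200), (1048645, 18816), (1048645, 592512), (1048645, 537344), (1048645, 94208),
   (33158, 204896), (33158, 2629728), (33158, 2818048), (650, 1085536), (650, 204896),
   (650, 94208), (650, 1228800), (271366, 147792), (271366, 2097744), (271366, 2245376),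
   (533514, 147792), (533514, 1081680), (533514, 1228800), (51206, 533040), (51206, 2097744),
   (51206, 2629728), (591882, 4400), (591882, 1081680), (591882, 1085536), (1181702, 4400),
   (1181702, 533040), (1181702, 537344), (33548, 134240), (33548, 204896), (33548, 76800),
   (786444, 1200), (786444, 147792), (786444, 134240), (786444, 18816), (3145740, 1200),
   (3145740, 4400), (3145740, 18816), (3145740, 76800), (3145740, 94208), (1200, 376832),
   (1200, 1228800), (1200, 2818048), (4400, 2818048), (1081680, 76800), (533040, 1228800),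
   (2097744, 76800), (2097744, 94208), (2097744, 307200), (134240, 819968), (1085536, 592512),
   (2629728, 18816), (2230912, 307200)]

def ttlist : List ℕ :=
  [0, 0, 0, 0, 0, 0, 0, 3715072,
   2763776, 1219584, 3179264, 537344, 2230912, 1214848, 0, 534144,
   0, 537344, 0, 1214848, 534144, 5504]

def mmlist : List ℕ :=
  [0, 0, 0, 0, 0, 192, 160, 864, 1152, 1152, 768]

/-- first end of an edge -/
def cu (e : Fin 22) : Fin 11 := ulist.getD e.val 0
/-- second end of an edge -/
def cv (e : Fin 22) : Fin 11 := vlist.getD e.val 0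
/-- the cycle number `D` -/
def cyc (D : Fin 55) : List (Fin 11) := cyclist.getD D.val []
/-- the edges of the cycle number `D`, in cyclic order -/
def cel (D : Fin 55) : List (Fin 22) := ellist.getD D.val []
/-- edge mask of the cycle number `D` -/
def cem (D : Fin 55) : ℕ := emlist.getD D.val 0
/-- edge set of the cycle number `D` -/
def cbd (D : Fin 55) : Finset (Fin 22) := (cel D).toFinset
/-- the pairs of the certificate -/
def cS : Finset (Fin 55 × Fin 55) := plist.toFinset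
/-- row of the table of `T` -/
def ctt (e e' : Fin 22) : Bool := (ttlist.getD e.val 0).testBit e'.val
/-- row of the table of `M` -/
def cmm (w w' : Fin 11) : Bool := (mmlist.getD w.val 0).testBit w'.val

theorem plist_nodup : plist.Nodup := by decide +kernel

theorem mem_cel : ∀ (D : Fin 55) (e : Fin 22), e ∈ cel D ↔ (cem D).testBit e.val = true := by
  decide +kernel

theorem mem_cbd (D : Fin 55) (e : Fin 22) : e ∈ cbd D ↔ (cem D).testBit e.val = true := by
  rw [cbd, List.mem_toFinset, mem_cel]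

theorem pmlist_eq : plist.map (fun p => (cem p.1, cem p.2)) = pmlist := by decide +kernel

theorem sum_cS (F : Fin 55 × Fin 55 → ZMod 2) : ∑ p ∈ cS, F p = (plist.map F).sum := by
  rw [cS, List.sum_toFinset _ plist_nodup]

theorem sum_bool (l : List (ℕ × ℕ)) (b : ℕ × ℕ → Bool) :
    (l.map (fun p => if b p = true then (1 : ZMod 2) else 0)).sum = ((l.countP b : ℕ) : ZMod 2) := by
  induction l with
  | nil => simp
  | cons x l ih =>
    rw [List.map_cons, List.sum_cons, ih, List.countP_cons]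
    by_cases hx : b x = true
    · simp [hx, add_comm]
    · simp [hx]

theorem cast_bool (m : ℕ) (b : Bool) (h : (m % 2 == 1) = b) :
    ((m : ℕ) : ZMod 2) = if b = true then 1 else 0 := by
  subst h
  rw [← ZMod.natCast_mod m 2]
  rcases Nat.mod_two_eq_zero_or_one m with h | h <;> simp [h]

theorem ctt_count : ∀ e e' : Fin 22,
    ((pmlist.countP (fun p => p.1.testBit e.val && p.2.testBit e'.val)) % 2 == 1) = ctt e e' := by
  decide +kernel

theorem TT_eq (e e' : Fin 22) : TT cbd cS e e' = if ctt e e' = true then 1 else 0 := by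
  rw [TT, sum_cS, ← cast_bool _ _ (ctt_count e e'), ← sum_bool, ← pmlist_eq, List.map_map]
  congr 1
  apply List.map_congr_left
  intro p _
  simp only [mem_cbd, Function.comp_apply, Bool.and_eq_true]

theorem c0 : ∀ (D : Fin 55) (w : Fin 11),
    ((((cel D).countP (fun e => decide (cu e = w))) + ((cel D).countP (fun e => decide (cv e = w)))) % 2 == 1) = false := by
  decide +kernel

theorem cel_nodup : ∀ D : Fin 55, (cel D).Nodup := by decide +kernel

theorem sum_bool' {α : Type} (l : List α) (b : α → Bool) :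
    (l.map (fun p => if b p = true then (1 : ZMod 2) else 0)).sum = ((l.countP b : ℕ) : ZMod 2) := by
  induction l with
  | nil => simp
  | cons x l ih =>
    rw [List.map_cons, List.sum_cons, ih, List.countP_cons]
    by_cases hx : b x = true
    · simp [hx, add_comm]
    · simp [hx]

theorem cert_c0 (D : Fin 55) (w : Fin 11) : ∑ e ∈ cbd D, inc cu cv e w = 0 := by
  have h1 : ∑ e ∈ cbd D, (if cu e = w then (1 : ZMod 2) else 0) =
      (((cel D).countP (fun e => decide (cu e = w)) : ℕ) : ZMod 2) := by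
    rw [cbd, List.sum_toFinset _ (cel_nodup D), ← sum_bool']
    simp only [decide_eq_true_eq]
  have h2 : ∑ e ∈ cbd D, (if cv e = w then (1 : ZMod 2) else 0) =
      (((cel D).countP (fun e => decide (cv e = w)) : ℕ) : ZMod 2) := by
    rw [cbd, List.sum_toFinset _ (cel_nodup D), ← sum_bool']
    simp only [decide_eq_true_eq]
  simp only [inc, Finset.sum_add_distrib]
  rw [h1, h2, ← Nat.cast_add, cast_bool _ _ (c0 D w)]
  simp

theorem c1 : ∀ (D : Fin 55) (e : Fin 22),
    (((plist.countP (fun p => decide (p.1 = D) && (cem p.2).testBit e.val)) +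
      (plist.countP (fun p => decide (p.2 = D) && (cem p.1).testBit e.val))) % 2 == 1) = false := by
  decide +kernel

theorem cert_c1 (D : Fin 55) (e : Fin 22) : ∑ p ∈ cS, ((if p.1 = D ∧ e ∈ cbd p.2 then 1 else 0) +
    (if p.2 = D ∧ e ∈ cbd p.1 then 1 else 0) : ZMod 2) = 0 := by
  have h1 : ∑ p ∈ cS, (if p.1 = D ∧ e ∈ cbd p.2 then (1 : ZMod 2) else 0) =
      ((plist.countP (fun p => decide (p.1 = D) && (cem p.2).testBit e.val) : ℕ) : ZMod 2) := by
    rw [sum_cS, ← sum_bool']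
    congr 1
    apply List.map_congr_left
    intro p _
    simp only [mem_cbd, Bool.and_eq_true, decide_eq_true_eq]
  have h2 : ∑ p ∈ cS, (if p.2 = D ∧ e ∈ cbd p.1 then (1 : ZMod 2) else 0) =
      ((plist.countP (fun p => decide (p.2 = D) && (cem p.1).testBit e.val) : ℕ) : ZMod 2) := by
    rw [sum_cS, ← sum_bool']
    congr 1
    apply List.map_congr_left
    intro p _
    simp only [mem_cbd, Bool.and_eq_true, decide_eq_true_eq]
  rw [Finset.sum_add_distrib, h1, h2, ← Nat.cast_add, cast_bool _ _ (c1 D e)]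
  simp

theorem ctt_symm : ∀ e e' : Fin 22, ctt e e' = ctt e' e := by decide +kernel

theorem ctt_dis : ∀ e e' : Fin 22, ctt e e' = true →
    cu e ≠ cu e' ∧ cu e ≠ cv e' ∧ cv e ≠ cu e' ∧ cv e ≠ cv e' := by decide +kernel

/-- natural number version of `inc` -/
def incN (e : Fin 22) (w : Fin 11) : ℕ := (if cu e = w then 1 else 0) + (if cv e = w then 1 else 0)

theorem inc_eq (e : Fin 22) (w : Fin 11) : inc cu cv e w = ((incN e w : ℕ) : ZMod 2) := by
  simp [inc, incN]

theorem c2 : ∀ (w : Fin 11) (e' : Fin 22),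
    (((∑ e : Fin 22, incN e w * (if ctt e e' = true then 1 else 0)) : ℕ) % 2 == 1) = false := by
  decide +kernel

theorem cert_c2 (w : Fin 11) (e' : Fin 22) : ∑ e : Fin 22, inc cu cv e w * TT cbd cS e e' = 0 := by
  have h : ∑ e : Fin 22, inc cu cv e w * TT cbd cS e e' =
      (((∑ e : Fin 22, incN e w * (if ctt e e' = true then 1 else 0)) : ℕ) : ZMod 2) := by
    rw [Nat.cast_sum]
    apply Finset.sum_congr rfl
    intro e _
    rw [inc_eq, TT_eq]
    push_cast
    rfl
  rw [h, cast_bool _ _ (c2 w e')]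
  simp

theorem c3 : ∀ w' w : Fin 11,
    (((∑ e : Fin 22, ∑ e' : Fin 22, if e < e' then
      (if ctt e e' = true then 1 else 0) * incN e' w' * incN e w else 0) : ℕ) % 2 == 1) = cmm w' w := by
  decide +kernel

theorem MM_eq (w' w : Fin 11) : MM cu cv cbd cS w' w = if cmm w' w = true then 1 else 0 := by
  rw [← cast_bool _ _ (c3 w' w), MM, Nat.cast_sum]
  apply Finset.sum_congr rfl
  intro e _
  rw [Nat.cast_sum]
  apply Finset.sum_congr rfl
  intro e' _
  by_cases h : e < e'
  · simp only [h, if_true]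
    rw [inc_eq, inc_eq, TT_eq]
    push_cast
    rfl
  · simp only [h, if_false, Nat.cast_zero]

theorem cmm_symm : ∀ w w' : Fin 11, cmm w' w = cmm w w' := by decide +kernel

theorem c4 : (((∑ w : Fin 11, ∑ w' : Fin 11, (if w < w' then (if cmm w w' = true then 1 else 0) else 0)) : ℕ)
    % 2 == 1) = true := by
  decide +kernel

theorem cert : IsCert cu cv cbd cS where
  c0 := cert_c0
  c1 := cert_c1
  ct e e' := by rw [TT_eq, TT_eq, ctt_symm]
  cd e e' h := by
    rw [TT_eq] at h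
    apply ctt_dis
    by_contra hc
    exact h (if_neg hc)
  c2 := cert_c2
  c3 w w' := by rw [MM_eq, MM_eq, cmm_symm]
  c4 := by
    have h : ∑ w : Fin 11, ∑ w' : Fin 11, (if w < w' then MM cu cv cbd cS w w' else 0) =
        (((∑ w : Fin 11, ∑ w' : Fin 11,
          (if w < w' then (if cmm w w' = true then 1 else 0) else 0)) : ℕ) : ZMod 2) := by
      rw [Nat.cast_sum]
      apply Finset.sum_congr rfl
      intro w _
      rw [Nat.cast_sum]
      apply Finset.sum_congr rfl
      intro w' _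
      rw [MM_eq]
      push_cast
      rfl
    rw [h, cast_bool _ _ c4]
    simp

/-! facts on the cycles -/

theorem edge_ne : ∀ e : Fin 22, cu e ≠ cv e := by decide +kernel

theorem cyc_len : ∀ D : Fin 55, 3 ≤ (cyc D).length := by decide +kernel

theorem cyc_nodup : ∀ D : Fin 55, (cyc D).Nodup := by decide +kernel

theorem cel_len : ∀ D : Fin 55, (cel D).length = (cyc D).length := by decide +kernel

theorem cS_dis : ∀ p ∈ plist, ∀ a ∈ cyc p.1, a ∉ cyc p.2 := by decide +kernel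

instance : DecidableRel C11.Adj := fun x y =>
  inferInstanceAs (Decidable (x - y = 1 ∨ y - x = 1 ∨ x - y = 3 ∨ y - x = 3))

theorem cyc_adj_aux : ∀ (D : Fin 55) (j : Fin (cyc D).length),
    C11.Adj ((cyc D)[j.val]'j.isLt)
      ((cyc D)[(j.val + 1) % (cyc D).length]'(Nat.mod_lt _ (Nat.lt_of_le_of_lt (Nat.zero_le _) j.isLt))) := by
  decide +kernel

theorem cyc_isCyc (D : Fin 55) : IsCyc C11 (cyc D) :=
  ⟨cyc_len D, cyc_nodup D, fun j hj => cyc_adj_aux D ⟨j, hj⟩⟩

theorem cel_ends_aux : ∀ (D : Fin 55) (j : Fin (cyc D).length),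
    (cu ((cel D)[j.val]'(by rw [cel_len]; exact j.isLt)) = (cyc D)[j.val]'j.isLt ∧
      cv ((cel D)[j.val]'(by rw [cel_len]; exact j.isLt)) =
        (cyc D)[(j.val + 1) % (cyc D).length]'(Nat.mod_lt _ (Nat.lt_of_le_of_lt (Nat.zero_le _) j.isLt))) ∨
    (cv ((cel D)[j.val]'(by rw [cel_len]; exact j.isLt)) = (cyc D)[j.val]'j.isLt ∧
      cu ((cel D)[j.val]'(by rw [cel_len]; exact j.isLt)) =
        (cyc D)[(j.val + 1) % (cyc D).length]'(Nat.mod_lt _ (Nat.lt_of_le_of_lt (Nat.zero_le _) j.isLt))) := by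
  decide +kernel

theorem cel_ends (D : Fin 55) (j : ℕ) (hj : j < (cyc D).length) :
    (cu ((cel D)[j]'(by rw [cel_len]; exact hj)) = (cyc D)[j] ∧
      cv ((cel D)[j]'(by rw [cel_len]; exact hj)) =
        (cyc D)[(j + 1) % (cyc D).length]'(Nat.mod_lt _ (by omega))) ∨
    (cv ((cel D)[j]'(by rw [cel_len]; exact hj)) = (cyc D)[j] ∧
      cu ((cel D)[j]'(by rw [cel_len]; exact hj)) =
        (cyc D)[(j + 1) % (cyc D).length]'(Nat.mod_lt _ (by omega))) :=
  cel_ends_aux D ⟨j, hj⟩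

end FF4
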