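import Mathlib

/-!
# 4-flat graphs, graph minors and the Heawood family: definitions (MP_02f22c_co)
-/

set_option autoImplicit false

namespace FF4

/-- `IsMinor H G`: the graph `H` is a minor of the graph `G`, in the form of a minor model: there are
pairwise disjoint connected (hence nonempty) branch sets `B w` of vertices of `G`, one for every vertex
`w` of `H`, such that for every edge `w w'` of `H` some edge of `G` joins `B w` and `B w'`.
(Contract the branch sets, delete the rest.) -/
def IsMinor {W V : Type} (H : SimpleGraph W) (G : SimpleGraph V) : Prop :=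
  ∃ B : W → Set V,
    (∀ w, (G.induce (B w)).Connected) ∧
    (∀ w w', w ≠ w' → Disjoint (B w) (B w')) ∧
    (∀ w w', H.Adj w w' → ∃ x ∈ B w, ∃ y ∈ B w', G.Adj x y)

/-- `G` is an excluded minor for the class `P` of finite graphs: `G` is not in `P`, but all
proper minors of `G` are. -/
def ExcludedMinor (P : ∀ n : ℕ, SimpleGraph (Fin n) → Prop) {n : ℕ} (G : SimpleGraph (Fin n)) :
    Prop :=
  ¬ P n G ∧ ∀ (m : ℕ) (H : SimpleGraph (Fin m)), IsMinor H G → ¬ Nonempty (H ≃g G) → P m H

/-- The list `l` of vertices is (the cyclic list of the vertices of) a cycle of `G`. -/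
def IsCyc {V : Type} (G : SimpleGraph V) (l : List V) : Prop :=
  3 ≤ l.length ∧ l.Nodup ∧
    ∀ (j : ℕ) (hj : j < l.length),
      G.Adj (l[j]'hj) (l[(j + 1) % l.length]'(Nat.mod_lt _ (by omega)))

section Complex

variable {V : Type} [DecidableEq V] {k : ℕ}

/-- The standard basis vector of a vertex of the triangulated complex. The vertices are those of the
graph (`Sum.inl v`) and one centre for every 2-cell (`Sum.inr i`). -/
def pt (a : V ⊕ Fin k) : V ⊕ Fin k → ℝ := Pi.single a 1

/-- The closed 2-cell number `i`: the cone from the centre `Sum.inr i` over the cycle `l`. -/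
def cell (i : Fin k) (l : List V) : Set (V ⊕ Fin k → ℝ) :=
  {x | ∃ (j : ℕ) (hj : j < l.length),
    x ∈ convexHull ℝ {pt (Sum.inr i), pt (Sum.inl (l[j]'hj)),
      pt (Sum.inl (l[(j + 1) % l.length]'(Nat.mod_lt _ (by omega))))}}

/-- The polyhedron (underlying space) of the 2-dimensional regular CW complex with 1-skeleton `G`
and 2-cells attached along the cycles `c 0, ..., c (k-1)`; every 2-cell is triangulated as the
cone over its boundary cycle. It is the union of the vertices, the edges and the closed 2-cells. -/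
def poly (G : SimpleGraph V) (c : Fin k → List V) : Set (V ⊕ Fin k → ℝ) :=
  {x | ∃ v : V, x = pt (Sum.inl v)} ∪
  {x | ∃ u v : V, G.Adj u v ∧ x ∈ segment ℝ (pt (Sum.inl u)) (pt (Sum.inl v))} ∪
  {x | ∃ i : Fin k, x ∈ cell i (c i)}

/-- `f` is piecewise linear on `P`: it is continuous on `P`, and `P` is a finite union of convex
polytopes (convex hulls of finite sets) on each of which `f` agrees with an affine map. -/
def IsPL {α : Type} (P : Set (α → ℝ)) (f : (α → ℝ) → EuclideanSpace ℝ (Fin 4)) : Prop :=
  ContinuousOn f P ∧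
    ∃ T : Set (Set (α → ℝ)), T.Finite ∧ P = ⋃₀ T ∧
      ∀ t ∈ T, (∃ s : Set (α → ℝ), s.Finite ∧ t = convexHull ℝ s) ∧
        ∃ g : (α → ℝ) →ᵃ[ℝ] EuclideanSpace ℝ (Fin 4), ∀ x ∈ t, f x = g x

/-- `G` is 4-flat: every 2-dimensional regular CW complex with 1-skeleton `G`, obtained by attaching
finitely many 2-cells along cycles of `G` (several may have the same boundary cycle), has a
piecewise linear embedding into `ℝ⁴`. -/
def FourFlat (G : SimpleGraph V) : Prop :=
  ∀ (k : ℕ) (c : Fin k → List V), (∀ i, IsCyc G (c i)) →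
    ∃ f : (V ⊕ Fin k → ℝ) → EuclideanSpace ℝ (Fin 4),
      IsPL (poly G c) f ∧ Set.InjOn f (poly G c)

end Complex

/-- The class of 4-flat graphs, as a predicate on graphs with vertex set `Fin n`. -/
def Flat (n : ℕ) (G : SimpleGraph (Fin n)) : Prop := FourFlat G

/-- `ΔY`-transformation of `G` at `a, b, c`: delete the edges between `a, b, c` and add a new vertex
(`none`) adjacent exactly to `a, b, c`. -/
def deltaY {V : Type} (G : SimpleGraph V) (a b c : V) : SimpleGraph (Option V) where
  Adj x y := match x, y with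
    | some x, some y => G.Adj x y ∧ ¬ ((x = a ∨ x = b ∨ x = c) ∧ (y = a ∨ y = b ∨ y = c))
    | some x, none => x = a ∨ x = b ∨ x = c
    | none, some y => y = a ∨ y = b ∨ y = c
    | none, none => False
  symm := ⟨by
    rintro (_ | x) (_ | y) h
    · exact h
    · exact h
    · exact h
    · exact ⟨h.1.symm, fun h' => h.2 ⟨h'.2, h'.1⟩⟩⟩
  loopless := ⟨by
    rintro (_ | x) h
    · exact h
    · exact h.1.ne rfl⟩

/-- `YΔ`-transformation of `G` at `v`: delete `v` and make its neighbours pairwise adjacent. -/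
def yDelta {V : Type} (G : SimpleGraph V) (v : V) : SimpleGraph {x : V // x ≠ v} where
  Adj x y := G.Adj x y ∨ (x ≠ y ∧ G.Adj v x ∧ G.Adj v y)
  symm := ⟨by
    rintro x y (h | h)
    · exact Or.inl h.symm
    · exact Or.inr ⟨h.1.symm, h.2.2, h.2.1⟩⟩
  loopless := ⟨by
    rintro x (h | h)
    · exact h.ne rfl
    · exact h.1 rfl⟩

/-- The complete 4-partite graph `K_{3,3,1,1}`, with parts `{0,1,2}`, `{3,4,5}`, `{6}`, `{7}`. -/
def K3311 : SimpleGraph (Fin 8) where
  Adj x y := (![0, 0, 0, 1, 1, 1, 2, 3] : Fin 8 → ℕ) x ≠ (![0, 0, 0, 1, 1, 1, 2, 3] : Fin 8 → ℕ) y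
  symm := ⟨fun _ _ h => Ne.symm h⟩
  loopless := ⟨fun _ h => h rfl⟩

/-- The Heawood family: the graphs obtained from `K₇` or `K_{3,3,1,1}` by finite sequences of
`ΔY`-transformations (at triangles) and `YΔ`-transformations (at vertices of degree 3), up to
isomorphism. -/
inductive Heawood : (n : ℕ) → SimpleGraph (Fin n) → Prop
  | k7 : Heawood 7 ⊤
  | k3311 : Heawood 8 K3311
  | dY {n m : ℕ} {G : SimpleGraph (Fin n)} {G' : SimpleGraph (Fin m)} (a b c : Fin n) :
      Heawood n G → G.Adj a b → G.Adj b c → G.Adj a c → Nonempty (G' ≃g deltaY G a b c) →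
      Heawood m G'
  | yD {n m : ℕ} {G : SimpleGraph (Fin n)} {G' : SimpleGraph (Fin m)} (v : Fin n) :
      Heawood n G → (G.neighborSet v).ncard = 3 → Nonempty (G' ≃g yDelta G v) →
      Heawood m G'

/-- The circulant graph `C₁₁(1,3)`: the vertices are the residues modulo 11, and two of them are
adjacent when they differ by `±1` or `±3`. -/
def C11 : SimpleGraph (Fin 11) where
  Adj x y := x - y = 1 ∨ y - x = 1 ∨ x - y = 3 ∨ y - x = 3
  symm := ⟨by
    intro x y h
    rcases h with h | h | h | h
    · exact Or.inr (Or.inl h)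
    · exact Or.inl h
    · exact Or.inr (Or.inr (Or.inr h))
    · exact Or.inr (Or.inr (Or.inl h))⟩
  loopless := ⟨by intro x h; revert h; revert x; decide⟩

end FF4
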