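import Pool.Agent.Lib.FF4.Base

/-!
# FF4.Geo0: affine dependences and meeting hulls (shared lemmas)

PROOF. `meet_dep`: write the common point as a convex combination on both sides (`convexHull_eq` / weights on
the Finset; `g` need not be injective: if it is inconvenient use `Finset.centerMass` with
`Finset.centerMass_mem_convexHull` and `convexHull_image`-type lemmas), put `θ = α` on `A`, `-β` on `B`, `0`
elsewhere. `dep_meet`: `c = ∑_A θ = -∑_B θ > 0` (else all θ vanish), divide by `c`; the point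
`∑_A (θ/c) g = ∑_B (-θ/c) g` is in both hulls. `dep_zero`: restrict to `t` and use `affineIndependent_iff` /
`affineIndependent_def`. `exists_dep`: if `g` is not injective on `s` take `1, -1` at two points with the same
image, else `exists_nontrivial_relation_sum_zero_of_finrank_succ_lt_card` for `s.image g` (finrank = 4), or apply
rank-nullity to the linear map `(s → ℝ) → ℝ × E4`, `θ ↦ (∑ θ, ∑ θ • g)` (dimension 6 > 5).
-/

set_option autoImplicit false

namespace FF4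

variable {X : Type} [DecidableEq X]

namespace Geo0Aux

omit [DecidableEq X] in
theorem mem_hull (g : X → E4) (A : Finset X) (x : E4) :
    x ∈ convexHull ℝ (g '' (A : Set X)) ↔
      ∃ w : X → ℝ, (∀ a ∈ A, 0 ≤ w a) ∧ ∑ a ∈ A, w a = 1 ∧ ∑ a ∈ A, w a • g a = x := by
  classical
  constructor
  · intro hx
    have hsub : g '' (A : Set X) ⊆ {x : E4 | ∃ w : X → ℝ, (∀ a ∈ A, 0 ≤ w a) ∧
        ∑ a ∈ A, w a = 1 ∧ ∑ a ∈ A, w a • g a = x} := by
      rintro _ ⟨a, ha, rfl⟩
      have ha' : a ∈ A := Finset.mem_coe.1 ha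
      refine ⟨fun b => if b = a then 1 else 0, fun b _ => ?_, ?_, ?_⟩
      · show (0 : ℝ) ≤ if b = a then 1 else 0
        split_ifs <;> norm_num
      · rw [Finset.sum_ite_eq' A a, if_pos ha']
      · simp [ha']
    have hconv : Convex ℝ {x : E4 | ∃ w : X → ℝ, (∀ a ∈ A, 0 ≤ w a) ∧
        ∑ a ∈ A, w a = 1 ∧ ∑ a ∈ A, w a • g a = x} := by
      rintro x ⟨w, hw0, hw1, hwx⟩ y ⟨v, hv0, hv1, hvy⟩ s t hs ht hst
      refine ⟨fun a => s * w a + t * v a, fun a ha => ?_, ?_, ?_⟩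
      · exact add_nonneg (mul_nonneg hs (hw0 a ha)) (mul_nonneg ht (hv0 a ha))
      · rw [Finset.sum_add_distrib, ← Finset.mul_sum, ← Finset.mul_sum, hw1, hv1, mul_one, mul_one,
          hst]
      · simp only [add_smul, mul_smul]
        rw [Finset.sum_add_distrib, ← Finset.smul_sum, ← Finset.smul_sum, hwx, hvy]
    exact convexHull_min hsub hconv hx
  · rintro ⟨w, hw0, hw1, rfl⟩
    exact (convex_convexHull ℝ _).sum_mem hw0 hw1 fun a ha =>
      subset_convexHull ℝ _ (Set.mem_image_of_mem g (Finset.mem_coe.2 ha))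

end Geo0Aux

open Geo0Aux

/-- A common point of the hulls of `A` and `B` gives an affine dependence. -/
theorem meet_dep (g : X → E4) (A B : Finset X) (hAB : Disjoint A B) (h : Meet g A B) :
    ∃ θ : X → ℝ, (∀ x, x ∉ A ∪ B → θ x = 0) ∧ (∀ x ∈ A, 0 ≤ θ x) ∧ (∀ x ∈ B, θ x ≤ 0) ∧
      ∑ x ∈ A, θ x = 1 ∧ ∑ x ∈ B, θ x = -1 ∧ ∑ x ∈ A ∪ B, θ x • g x = 0 := by
  obtain ⟨x, hxA, hxB⟩ := h
  obtain ⟨α, hα0, hα1, hαx⟩ := (mem_hull g A x).1 hxA
  obtain ⟨β, hβ0, hβ1, hβx⟩ := (mem_hull g B x).1 hxB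
  have hBA : ∀ y ∈ B, y ∉ A := fun y hy hy' => Finset.disjoint_left.1 hAB hy' hy
  obtain ⟨θ, hθ⟩ : ∃ θ : X → ℝ, θ = fun y => if y ∈ A then α y else if y ∈ B then -β y else 0 :=
    ⟨_, rfl⟩
  have hθA : ∀ y ∈ A, θ y = α y := fun y hy => by rw [hθ]; exact if_pos hy
  have hθB : ∀ y ∈ B, θ y = -β y := fun y hy => by
    rw [hθ]
    show (if y ∈ A then α y else if y ∈ B then -β y else 0) = -β y
    rw [if_neg (hBA y hy), if_pos hy]
  refine ⟨θ, fun y hy => ?_, fun y hy => ?_, fun y hy => ?_, ?_, ?_, ?_⟩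
  · rw [Finset.mem_union, not_or] at hy
    rw [hθ]
    show (if y ∈ A then α y else if y ∈ B then -β y else 0) = 0
    rw [if_neg hy.1, if_neg hy.2]
  · rw [hθA y hy]
    exact hα0 y hy
  · rw [hθB y hy]
    linarith [hβ0 y hy]
  · rw [Finset.sum_congr rfl hθA, hα1]
  · rw [Finset.sum_congr rfl hθB, Finset.sum_neg_distrib, hβ1]
  · have hA' : ∑ y ∈ A, θ y • g y = ∑ y ∈ A, α y • g y :=
      Finset.sum_congr rfl fun y hy => by rw [hθA y hy]
    have hB' : ∑ y ∈ B, θ y • g y = -∑ y ∈ B, β y • g y := by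
      rw [← Finset.sum_neg_distrib]
      exact Finset.sum_congr rfl fun y hy => by rw [hθB y hy, neg_smul]
    rw [Finset.sum_union hAB, hA', hB', hαx, hβx, add_neg_cancel]

/-- Conversely, a nontrivial affine dependence with signs gives a common point. -/
theorem dep_meet (g : X → E4) (A B : Finset X) (hAB : Disjoint A B) (θ : X → ℝ)
    (hA : ∀ x ∈ A, 0 ≤ θ x) (hB : ∀ x ∈ B, θ x ≤ 0) (hs : ∑ x ∈ A ∪ B, θ x = 0)
    (hg : ∑ x ∈ A ∪ B, θ x • g x = 0) (hne : ∃ x ∈ A ∪ B, θ x ≠ 0) : Meet g A B := by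
  rw [Finset.sum_union hAB] at hs hg
  obtain ⟨c, hc⟩ : ∃ c, c = ∑ x ∈ A, θ x := ⟨_, rfl⟩
  have hcB : ∑ x ∈ B, -θ x = c := by
    rw [Finset.sum_neg_distrib, hc]
    linarith
  have hc0 : 0 ≤ c := by rw [hc]; exact Finset.sum_nonneg hA
  have hcpos : 0 < c := by
    rcases hc0.lt_or_eq with h | h
    · exact h
    · exfalso
      obtain ⟨x, hx, hx0⟩ := hne
      rcases Finset.mem_union.1 hx with h1 | h1
      · rw [hc] at h
        exact hx0 ((Finset.sum_eq_zero_iff_of_nonneg hA).1 h.symm x h1)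
      · rw [← hcB] at h
        have := (Finset.sum_eq_zero_iff_of_nonneg (fun y hy => by
          show 0 ≤ -θ y
          linarith [hB y hy])).1 h.symm x h1
        exact hx0 (by linarith)
  have hcne := hcpos.ne'
  refine ⟨∑ x ∈ A, (θ x / c) • g x, (mem_hull g A _).2 ⟨fun x => θ x / c, fun a ha =>
    div_nonneg (hA a ha) hc0, ?_, rfl⟩, (mem_hull g B _).2 ⟨fun x => -θ x / c, fun b hb =>
    div_nonneg (by linarith [hB b hb]) hc0, ?_, ?_⟩⟩
  · rw [← Finset.sum_div, ← hc, div_self hcne]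
  · rw [← Finset.sum_div, hcB, div_self hcne]
  · have h1 : ∑ x ∈ A, (θ x / c) • g x = c⁻¹ • ∑ x ∈ A, θ x • g x := by
      rw [Finset.smul_sum]
      refine Finset.sum_congr rfl fun x _ => ?_
      rw [smul_smul, div_eq_mul_inv, mul_comm]
    have h2 : ∑ x ∈ B, (-θ x / c) • g x = -(c⁻¹ • ∑ x ∈ B, θ x • g x) := by
      rw [Finset.smul_sum, ← Finset.sum_neg_distrib]
      refine Finset.sum_congr rfl fun x _ => ?_
      rw [smul_smul, ← neg_smul]
      congr 1
      rw [div_eq_mul_inv]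
      ring
    rw [h1, h2, eq_neg_of_add_eq_zero_left hg, smul_neg]

/-- In general position a dependence supported on at most 5 points is zero. -/
theorem dep_zero (g : X → E4) (Y : Finset X) (hgp : GenPos g Y) (s t : Finset X) (hs : s ⊆ Y)
    (ht : t ⊆ s) (htc : t.card ≤ 5) (θ : X → ℝ) (hsum : ∑ x ∈ s, θ x = 0)
    (hg : ∑ x ∈ s, θ x • g x = 0) (hz : ∀ x ∈ s, x ∉ t → θ x = 0) : ∀ x ∈ s, θ x = 0 := by
  have h1 := hgp t (ht.trans hs) htc
  rw [affineIndependent_iff] at h1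
  have h2 : ∑ x ∈ t, θ x = 0 := by
    rw [← hsum]
    exact Finset.sum_subset ht fun x hx hx' => hz x hx hx'
  have h3 : ∑ x ∈ t, θ x • g x = 0 := by
    rw [← hg]
    exact Finset.sum_subset ht fun x hx hx' => by rw [hz x hx hx', zero_smul]
  have h4 := h1 Finset.univ (fun x : t => θ x) (by
    rw [Finset.sum_coe_sort t θ]
    exact h2) (by
    rw [Finset.sum_coe_sort t fun x => θ x • g x]
    exact h3)
  intro x hx
  by_cases hxt : x ∈ t
  · exact h4 ⟨x, hxt⟩ (Finset.mem_univ _)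
  · exact hz x hx hxt

/-- Six points have a nontrivial affine dependence. -/
theorem exists_dep (g : X → E4) (s : Finset X) (hs : 6 ≤ s.card) :
    ∃ θ : X → ℝ, (∀ x, x ∉ s → θ x = 0) ∧ ∑ x ∈ s, θ x = 0 ∧ ∑ x ∈ s, θ x • g x = 0 ∧
      ∃ x ∈ s, θ x ≠ 0 := by
  let F : (s → ℝ) →ₗ[ℝ] ℝ × E4 :=
    { toFun := fun v => (∑ x, v x, ∑ x, v x • g x)
      map_add' := fun v w => by
        simp only [Pi.add_apply, add_smul, Finset.sum_add_distrib, Prod.mk_add_mk]
      map_smul' := fun a v => by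
        simp only [Pi.smul_apply, smul_eq_mul, mul_smul, ← Finset.mul_sum, ← Finset.smul_sum,
          RingHom.id_apply, Prod.smul_mk] }
  have hF : LinearMap.ker F ≠ ⊥ := by
    apply LinearMap.ker_ne_bot_of_finrank_lt
    rw [Module.finrank_prod, Module.finrank_self, finrank_euclideanSpace, Fintype.card_fin,
      Module.finrank_fintype_fun_eq_card, Fintype.card_coe]
    omega
  obtain ⟨v, hv, hv0⟩ := (Submodule.ne_bot_iff _).1 hF
  have hv' : (∑ x, v x, ∑ x : s, v x • g x) = ((0 : ℝ), (0 : E4)) := LinearMap.mem_ker.1 hv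
  have e1 := congrArg Prod.fst hv'
  have e2 := congrArg Prod.snd hv'
  obtain ⟨θ, hθ⟩ : ∃ θ : X → ℝ, θ = fun x => if h : x ∈ s then v ⟨x, h⟩ else 0 := ⟨_, rfl⟩
  have hθs : ∀ x : s, θ x = v x := fun x => by
    rw [hθ]
    show (if h : (x : X) ∈ s then v ⟨x, h⟩ else 0) = v x
    rw [dif_pos x.2]
  refine ⟨θ, fun x hx => ?_, ?_, ?_, ?_⟩
  · rw [hθ]
    exact dif_neg hx
  · rw [← Finset.sum_coe_sort s θ]
    rw [Finset.sum_congr rfl fun x _ => hθs x]
    exact e1
  · rw [← Finset.sum_coe_sort s fun x => θ x • g x]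
    have e3 : ∑ x : s, θ x • g x = ∑ x : s, v x • g x :=
      Finset.sum_congr rfl fun x _ => by rw [hθs x]
    exact e3.trans e2
  · by_contra hcon
    push Not at hcon
    apply hv0
    funext x
    rw [← hθs x]
    exact hcon x x.2

end FF4
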