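import Mathlib

/-!
# FF4.Geo1a: the plane lemma

PROOF. Put `D i j = a i * b j - a j * b i`; `D i j = - D j i`, nonzero for `i ≠ j`. A `θ = (x, y)` with
`a i * x + b i * y = 0`, not zero, is `t • (-b i, a i)` with `t ≠ 0` and then `a j * x + b j * y = t * D i j`.
(`(a i, b i) ≠ 0` since there is `j ≠ i`.) So `i` is counted iff it is a SOURCE (`D i j > 0` for all `j ≠ i`) or
a SINK (`D i j < 0` for all `j ≠ i`). There is at most one source and at most one sink, no `i` is both
(card ≥ 2). A source exists iff a sink exists: let `i0` be a source, pick `r ≠ i0`, and let `k` maximise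
`m j = D r j / D i0 j` over `j ≠ i0` (`Finset.exists_max_image`); Plücker identity
`D i0 r * D j k = D i0 j * D r k - D i0 k * D r j` (ring) gives `D k j < 0` for all `j ≠ k`, `j ≠ i0`, and
`D k i0 < 0`: `k` is a sink. The converse: apply this to `(a, -b)` or `(-a, b)` (changes all signs of `D`).
So the count is 0 or 2.
-/

set_option autoImplicit false

namespace FF4

namespace Geo1aAux

theorem exists_sink {ι : Type} [Fintype ι] (hι : 2 ≤ Fintype.card ι)
    (a b : ι → ℝ) (hab : ∀ i j, i ≠ j → a i * b j - a j * b i ≠ 0) (i0 : ι)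
    (h0 : ∀ j, j ≠ i0 → 0 < a i0 * b j - a j * b i0) :
    ∃ k, ∀ j, j ≠ k → a k * b j - a j * b k < 0 := by
  classical
  have : Nontrivial ι := Fintype.one_lt_card_iff_nontrivial.1 (by omega)
  obtain ⟨r, hr⟩ := exists_ne i0
  obtain ⟨k, hk, hmax⟩ := Finset.exists_max_image (Finset.univ.erase i0)
    (fun j => (a r * b j - a j * b r) / (a i0 * b j - a j * b i0))
    ⟨r, Finset.mem_erase.2 ⟨hr, Finset.mem_univ r⟩⟩
  have hk0 : k ≠ i0 := (Finset.mem_erase.1 hk).1
  refine ⟨k, fun j hj => ?_⟩
  by_cases hj0 : j = i0
  · subst hj0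
    have := h0 k hk0
    linarith
  · have h1 := hmax j (Finset.mem_erase.2 ⟨hj0, Finset.mem_univ j⟩)
    have hpj := h0 j hj0
    have hpk := h0 k hk0
    have hpr := h0 r hr
    rw [div_le_div_iff₀ hpj hpk] at h1
    have h2 : 0 ≤ (a i0 * b r - a r * b i0) * (a j * b k - a k * b j) := by nlinarith [h1]
    have h3 : 0 ≤ a j * b k - a k * b j := by
      by_contra hneg
      push Not at hneg
      have := mul_neg_of_pos_of_neg hpr hneg
      linarith
    have h4 := hab j k hj
    rcases lt_or_eq_of_le h3 with h5 | h5
    · linarith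
    · exact absurd h5.symm h4

theorem counted_iff {ι : Type} [Fintype ι] (hι : 2 ≤ Fintype.card ι)
    (a b : ι → ℝ) (hab : ∀ i j, i ≠ j → a i * b j - a j * b i ≠ 0) (i : ι) :
    (∃ x y : ℝ, a i * x + b i * y = 0 ∧ ∀ j, j ≠ i → 0 < a j * x + b j * y) ↔
      (∀ j, j ≠ i → 0 < a i * b j - a j * b i) ∨ (∀ j, j ≠ i → a i * b j - a j * b i < 0) := by
  have : Nontrivial ι := Fintype.one_lt_card_iff_nontrivial.1 (by omega)
  obtain ⟨r, hr⟩ := exists_ne i
  constructor
  · rintro ⟨x, y, h0, hpos⟩
    have hN : 0 < a i ^ 2 + b i ^ 2 := by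
      by_contra hneg
      push Not at hneg
      have h1 : a i = 0 := by nlinarith [sq_nonneg (a i), sq_nonneg (b i)]
      have h2 : b i = 0 := by nlinarith [sq_nonneg (a i), sq_nonneg (b i)]
      apply hab i r hr.symm
      rw [h1, h2]; ring
    have key : ∀ j, (a i ^ 2 + b i ^ 2) * (a j * x + b j * y)
        = (a i * y - b i * x) * (a i * b j - a j * b i) := by
      intro j
      have : (a i ^ 2 + b i ^ 2) * (a j * x + b j * y)
        = (a i * y - b i * x) * (a i * b j - a j * b i)
          + (a i * x + b i * y) * (a i * a j + b i * b j) := by ring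
      rw [this, h0]; ring
    have keypos : ∀ j, j ≠ i → 0 < (a i * y - b i * x) * (a i * b j - a j * b i) := by
      intro j hj
      rw [← key j]; exact mul_pos hN (hpos j hj)
    rcases lt_trichotomy (a i * y - b i * x) 0 with hT | hT | hT
    · right
      intro j hj
      by_contra hneg
      push Not at hneg
      have := keypos j hj
      nlinarith [mul_nonneg (neg_nonneg.2 hT.le) hneg]
    · have := keypos r hr
      rw [hT, zero_mul] at this
      exact absurd this (lt_irrefl 0)
    · left
      intro j hj
      exact (mul_pos_iff_of_pos_left hT).1 (keypos j hj)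
  · rintro (h | h)
    · refine ⟨-b i, a i, by ring, fun j hj => ?_⟩
      have := h j hj
      linarith
    · refine ⟨b i, -a i, by ring, fun j hj => ?_⟩
      have := h j hj
      linarith

end Geo1aAux

open Classical in
/-- Plane lemma: for finitely many (at least 2) pairwise non-proportional vectors of the plane, the
number of `i` such that some `θ` is orthogonal to `p i` and has positive product with all the
others is even. -/
theorem plane_even {ι : Type} [Fintype ι] (hι : 2 ≤ Fintype.card ι)
    (a b : ι → ℝ) (hab : ∀ i j, i ≠ j → a i * b j - a j * b i ≠ 0) :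
    Even (Finset.univ.filter (fun i => ∃ x y : ℝ, a i * x + b i * y = 0 ∧
      ∀ j, j ≠ i → 0 < a j * x + b j * y)).card := by
  have : Nontrivial ι := Fintype.one_lt_card_iff_nontrivial.1 (by omega)
  have e : (Finset.univ.filter (fun i => ∃ x y : ℝ, a i * x + b i * y = 0 ∧
      ∀ j, j ≠ i → 0 < a j * x + b j * y))
      = Finset.univ.filter (fun i => (∀ j, j ≠ i → 0 < a i * b j - a j * b i) ∨
        (∀ j, j ≠ i → a i * b j - a j * b i < 0)) := by
    apply Finset.filter_congr
    intro i _
    exact Geo1aAux.counted_iff hι a b hab i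
  rw [e]
  by_cases hs : ∃ i0, ∀ j, j ≠ i0 → 0 < a i0 * b j - a j * b i0
  · obtain ⟨i0, h0⟩ := hs
    obtain ⟨k, hk⟩ := Geo1aAux.exists_sink hι a b hab i0 h0
    have hne : i0 ≠ k := by
      rintro rfl
      obtain ⟨r, hr⟩ := exists_ne i0
      have h1 := h0 r hr
      have h2 := hk r hr
      linarith
    have e2 : Finset.univ.filter (fun i => (∀ j, j ≠ i → 0 < a i * b j - a j * b i) ∨
        (∀ j, j ≠ i → a i * b j - a j * b i < 0)) = {i0, k} := by
      ext i
      simp only [Finset.mem_filter, Finset.mem_univ, true_and, Finset.mem_insert,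
        Finset.mem_singleton]
      constructor
      · rintro (h | h)
        · left
          by_contra hi
          have h1 := h0 i hi
          have h2 := h i0 (Ne.symm hi)
          linarith
        · right
          by_contra hi
          have h1 := hk i hi
          have h2 := h k (Ne.symm hi)
          linarith
      · rintro (rfl | rfl)
        · exact Or.inl h0
        · exact Or.inr hk
    rw [e2, Finset.card_pair hne]
    exact even_two
  · have e2 : Finset.univ.filter (fun i => (∀ j, j ≠ i → 0 < a i * b j - a j * b i) ∨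
        (∀ j, j ≠ i → a i * b j - a j * b i < 0)) = ∅ := by
      ext i
      simp only [Finset.mem_filter, Finset.mem_univ, true_and, Finset.notMem_empty, iff_false]
      rintro (h | h)
      · exact hs ⟨i, h⟩
      · obtain ⟨k, hk⟩ := Geo1aAux.exists_sink hι b a
          (fun i j hij h => hab i j hij (by linarith)) i
          (fun j hj => by have := h j hj; linarith)
        exact hs ⟨k, fun j hj => by have := hk j hj; linarith⟩
    rw [e2, Finset.card_empty]
    exact Even.zero

end FF4
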