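import Pool.Agent.Lib.FF4.Geo0
import Pool.Agent.Lib.FF4.Geo1a

/-!
# FF4.Geo1: the parity lemma

PROOF. `Z = A ∪ B` has 7 elements. For `z ∈ Z` the statement `Meet g (A.erase z) (B.erase z)` is equivalent to: there
is `θ : X → ℝ` with `∑_Z θ = 0`, `∑_Z θ • g = 0`, `θ z = 0`, `σ j * θ j > 0` for all `j ∈ Z`, `j ≠ z`
(`σ = 1` on `A`, `-1` on `B`): `→` by `meet_dep` and the fact that no further coefficient vanishes (`dep_zero`,
since ∑_A θ = 1 ≠ 0); `←` by `dep_meet`. Choose `z1 ≠ z2` in `Z`, and dependences `θ1` on `Z - z1`, `θ2` on `Z - z2`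
(`exists_dep`; by `dep_zero` all their other coefficients are nonzero). Every dependence on `Z` is
`x θ1 + y θ2`: subtract multiples to make the coefficients at `z2` and `z1` zero and use `dep_zero`. So the
condition at `z` is `∃ x y, p_z ⬝ (x,y) = 0 ∧ ∀ j ≠ z, 0 < p_j ⬝ (x,y)` with `p_j = σ_j (θ1 j, θ2 j)`, and
`p_i, p_j` are not proportional for `i ≠ j` (a proportionality gives `(x, y) ≠ 0` such that `x θ1 + y θ2`
vanishes at `i` and `j`, hence is zero by `dep_zero`, hence `x = y = 0`). `plane_even` with `ι = Z` (subtype)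
finishes; `A.erase z = A` for `z ∉ A`.
-/

set_option autoImplicit false

namespace FF4

/-- A nonzero dependence on 6 points has only nonzero coefficients. -/
theorem Geo1_ne {X : Type} [DecidableEq X] (g : X → E4) (Y : Finset X) (hgp : GenPos g Y)
    (s : Finset X) (hs : s ⊆ Y) (hsc : s.card ≤ 6) (θ : X → ℝ) (hsum : ∑ x ∈ s, θ x = 0)
    (hg : ∑ x ∈ s, θ x • g x = 0) (hne : ∃ x ∈ s, θ x ≠ 0) : ∀ j ∈ s, θ j ≠ 0 := by
  intro j hj h0
  obtain ⟨x, hx, hx0⟩ := hne
  apply hx0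
  refine dep_zero g Y hgp s (s.erase j) hs (Finset.erase_subset _ _)
    (by rw [Finset.card_erase_of_mem hj]; omega) θ hsum hg ?_ x hx
  intro y hy hy'
  have : y = j := by
    by_contra h
    exact hy' (Finset.mem_erase.2 ⟨h, hy⟩)
  rw [this]; exact h0

/-- A dependence on 7 points with two vanishing coefficients is zero. -/
theorem Geo1_two {X : Type} [DecidableEq X] (g : X → E4) (Y : Finset X) (hgp : GenPos g Y)
    (Z : Finset X) (hZ : Z ⊆ Y) (hZc : Z.card = 7) (θ : X → ℝ) (hsum : ∑ x ∈ Z, θ x = 0)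
    (hg : ∑ x ∈ Z, θ x • g x = 0) (i j : X) (hi : i ∈ Z) (hj : j ∈ Z) (hij : i ≠ j)
    (h1 : θ i = 0) (h2 : θ j = 0) : ∀ x ∈ Z, θ x = 0 := by
  have hj' : j ∈ Z.erase i := Finset.mem_erase.2 ⟨hij.symm, hj⟩
  refine dep_zero g Y hgp Z ((Z.erase i).erase j) hZ
    ((Finset.erase_subset _ _).trans (Finset.erase_subset _ _))
    (by rw [Finset.card_erase_of_mem hj', Finset.card_erase_of_mem hi]; omega) θ hsum hg ?_
  intro y hy hy'
  by_cases hyj : y = j
  · rw [hyj]; exact h2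
  · by_cases hyi : y = i
    · rw [hyi]; exact h1
    · exact absurd (Finset.mem_erase.2 ⟨hyj, Finset.mem_erase.2 ⟨hyi, hy⟩⟩) hy'

/-- the combination `x θ1 + y θ2` is a dependence -/
theorem Geo1_comb {X : Type} [DecidableEq X] (g : X → E4) (Z : Finset X) (θ1 θ2 : X → ℝ)
    (h1 : ∑ x ∈ Z, θ1 x = 0) (h1g : ∑ x ∈ Z, θ1 x • g x = 0)
    (h2 : ∑ x ∈ Z, θ2 x = 0) (h2g : ∑ x ∈ Z, θ2 x • g x = 0) (a b : ℝ) :
    ∑ x ∈ Z, (a * θ1 x + b * θ2 x) = 0 ∧ ∑ x ∈ Z, (a * θ1 x + b * θ2 x) • g x = 0 := by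
  constructor
  · rw [Finset.sum_add_distrib, ← Finset.mul_sum, ← Finset.mul_sum, h1, h2]
    simp
  · have : ∀ x, (a * θ1 x + b * θ2 x) • g x = a • (θ1 x • g x) + b • (θ2 x • g x) := by
      intro x
      rw [add_smul, mul_smul, mul_smul]
    simp only [this]
    rw [Finset.sum_add_distrib, ← Finset.smul_sum, ← Finset.smul_sum, h1g, h2g]
    simp

/-- a dependence on the 6 points `Z - z`, all of whose coefficients are nonzero -/
theorem Geo1_basis {X : Type} [DecidableEq X] (g : X → E4) (Y : Finset X) (hgp : GenPos g Y)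
    (Z : Finset X) (hZ : Z ⊆ Y) (hZc : Z.card = 7) (z : X) (hz : z ∈ Z) :
    ∃ θ : X → ℝ, θ z = 0 ∧ ∑ x ∈ Z, θ x = 0 ∧ ∑ x ∈ Z, θ x • g x = 0 ∧
      ∀ j ∈ Z, j ≠ z → θ j ≠ 0 := by
  have hc : (Z.erase z).card = 6 := by rw [Finset.card_erase_of_mem hz]; omega
  obtain ⟨θ, hoff, hsum, hg, hne⟩ := exists_dep g (Z.erase z) (by omega)
  have hz0 : θ z = 0 := hoff z (Finset.notMem_erase z Z)
  refine ⟨θ, hz0, ?_, ?_, ?_⟩
  · rw [← Finset.sum_erase Z hz0]; exact hsum
  · rw [← Finset.sum_erase (f := fun x => θ x • g x) (a := z) Z (by simp [hz0])]; exact hg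
  · intro j hj hjz
    exact Geo1_ne g Y hgp (Z.erase z) ((Finset.erase_subset _ _).trans hZ) (by omega) θ hsum hg hne
      j (Finset.mem_erase.2 ⟨hjz, hj⟩)

/-- the sign -/
noncomputable def Geo1_sg {X : Type} [DecidableEq X] (A : Finset X) (j : X) : ℝ :=
  if j ∈ A then 1 else -1

theorem Geo1_sg_ne {X : Type} [DecidableEq X] (A : Finset X) (j : X) : Geo1_sg A j ≠ 0 := by
  unfold Geo1_sg
  split_ifs <;> norm_num

/-- the main equivalence -/
theorem Geo1_iff {X : Type} [DecidableEq X] (g : X → E4) (Y : Finset X) (hgp : GenPos g Y)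
    (A B : Finset X) (hA : A ⊆ Y) (hB : B ⊆ Y) (hAB : Disjoint A B) (hc : A.card + B.card = 7)
    (z : X) (hz : z ∈ A ∪ B) :
    Meet g (A.erase z) (B.erase z) ↔
      ∃ θ : X → ℝ, ∑ x ∈ A ∪ B, θ x = 0 ∧ ∑ x ∈ A ∪ B, θ x • g x = 0 ∧ θ z = 0 ∧
        ∀ j ∈ A ∪ B, j ≠ z → 0 < Geo1_sg A j * θ j := by
  have hZ : A ∪ B ⊆ Y := Finset.union_subset hA hB
  have hZc : (A ∪ B).card = 7 := by rw [Finset.card_union_of_disjoint hAB]; exact hc
  have hun : A.erase z ∪ B.erase z = (A ∪ B).erase z := by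
    ext x; simp only [Finset.mem_union, Finset.mem_erase]; tauto
  constructor
  · intro h
    have hdis : Disjoint (A.erase z) (B.erase z) :=
      Finset.disjoint_of_subset_left (Finset.erase_subset _ _)
        (Finset.disjoint_of_subset_right (Finset.erase_subset _ _) hAB)
    obtain ⟨θ, hoff, hpA, hpB, hsA, hsB, hg⟩ := meet_dep g _ _ hdis h
    have hz0 : θ z = 0 := hoff z (by rw [hun]; exact Finset.notMem_erase z _)
    have hsum' : ∑ x ∈ A.erase z ∪ B.erase z, θ x = 0 := by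
      rw [Finset.sum_union hdis, hsA, hsB]; norm_num
    have hsum : ∑ x ∈ A ∪ B, θ x = 0 := by
      rw [← Finset.sum_erase (A ∪ B) hz0, ← hun]; exact hsum'
    have hgs : ∑ x ∈ A ∪ B, θ x • g x = 0 := by
      rw [← Finset.sum_erase (f := fun x => θ x • g x) (a := z) (A ∪ B) (by simp [hz0]), ← hun]; exact hg
    have hnz : ∀ j ∈ A ∪ B, j ≠ z → θ j ≠ 0 := by
      intro j hj hjz h0
      have hall := Geo1_two g Y hgp (A ∪ B) hZ hZc θ hsum hgs z j hz hj (Ne.symm hjz) hz0 h0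
      have : ∑ x ∈ A.erase z, θ x = 0 := Finset.sum_eq_zero fun x hx =>
        hall x (Finset.mem_union_left _ (Finset.mem_of_mem_erase hx))
      rw [this] at hsA
      norm_num at hsA
    refine ⟨θ, hsum, hgs, hz0, ?_⟩
    intro j hj hjz
    unfold Geo1_sg
    split_ifs with hjA
    · have h1 := hpA j (Finset.mem_erase.2 ⟨hjz, hjA⟩)
      have h2 := hnz j hj hjz
      rw [one_mul]
      exact lt_of_le_of_ne h1 (Ne.symm h2)
    · have hjB : j ∈ B := (Finset.mem_union.1 hj).resolve_left hjA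
      have h1 := hpB j (Finset.mem_erase.2 ⟨hjz, hjB⟩)
      have h2 := hnz j hj hjz
      have h3 : θ j < 0 := lt_of_le_of_ne h1 h2
      linarith
  · rintro ⟨θ, hsum, hgs, hz0, hpos⟩
    have hdis : Disjoint (A.erase z) (B.erase z) :=
      Finset.disjoint_of_subset_left (Finset.erase_subset _ _)
        (Finset.disjoint_of_subset_right (Finset.erase_subset _ _) hAB)
    refine dep_meet g _ _ hdis θ ?_ ?_ ?_ ?_ ?_
    · intro x hx
      have h1 := hpos x (Finset.mem_union_left _ (Finset.mem_of_mem_erase hx))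
        (Finset.ne_of_mem_erase hx)
      unfold Geo1_sg at h1
      rw [if_pos (Finset.mem_of_mem_erase hx)] at h1
      linarith
    · intro x hx
      have hxB := Finset.mem_of_mem_erase hx
      have h1 := hpos x (Finset.mem_union_right _ hxB) (Finset.ne_of_mem_erase hx)
      unfold Geo1_sg at h1
      rw [if_neg (fun hxA => (Finset.disjoint_left.1 hAB hxA hxB))] at h1
      linarith
    · rw [hun, Finset.sum_erase (A ∪ B) hz0]; exact hsum
    · rw [hun, Finset.sum_erase (f := fun x => θ x • g x) (a := z) (A ∪ B) (by simp [hz0])]; exact hgs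
    · rw [hun]
      have hcard : 0 < ((A ∪ B).erase z).card := by
        rw [Finset.card_erase_of_mem hz]; omega
      obtain ⟨x, hx⟩ := Finset.card_pos.1 hcard
      refine ⟨x, hx, ?_⟩
      have h1 := hpos x (Finset.mem_of_mem_erase hx) (Finset.ne_of_mem_erase hx)
      intro h0
      rw [h0, mul_zero] at h1
      exact lt_irrefl _ h1

/-- Lemma 1: for `7` points in general position in `ℝ⁴`, divided into `A` and `B`, the number of
points whose removal leaves meeting hulls is even. -/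
theorem parity {X : Type} [DecidableEq X] (g : X → E4) (Y : Finset X) (hgp : GenPos g Y)
    (A B : Finset X) (hA : A ⊆ Y) (hB : B ⊆ Y) (hAB : Disjoint A B)
    (hc : A.card + B.card = 7) :
    ∑ a ∈ A, inum g (A.erase a) B + ∑ b ∈ B, inum g A (B.erase b) = 0 := by
  classical
  have hZ : A ∪ B ⊆ Y := Finset.union_subset hA hB
  have hZc : (A ∪ B).card = 7 := by rw [Finset.card_union_of_disjoint hAB]; exact hc
  -- rewrite the sum
  have hsumA : ∑ a ∈ A, inum g (A.erase a) B = ∑ a ∈ A, inum g (A.erase a) (B.erase a) := by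
    refine Finset.sum_congr rfl fun a ha => ?_
    rw [Finset.erase_eq_of_notMem (Finset.disjoint_left.1 hAB ha)]
  have hsumB : ∑ b ∈ B, inum g A (B.erase b) = ∑ b ∈ B, inum g (A.erase b) (B.erase b) := by
    refine Finset.sum_congr rfl fun b hb => ?_
    rw [Finset.erase_eq_of_notMem (s := A) (Finset.disjoint_right.1 hAB hb)]
  rw [hsumA, hsumB, ← Finset.sum_union hAB]
  -- the basis
  obtain ⟨z1, hz1, z2, hz2, hz12⟩ := Finset.one_lt_card.1 (by omega : 1 < (A ∪ B).card)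
  obtain ⟨θ1, h10, h1s, h1g, h1n⟩ := Geo1_basis g Y hgp (A ∪ B) hZ hZc z1 hz1
  obtain ⟨θ2, h20, h2s, h2g, h2n⟩ := Geo1_basis g Y hgp (A ∪ B) hZ hZc z2 hz2
  have hindep : ∀ x y : ℝ, (∀ j ∈ A ∪ B, x * θ1 j + y * θ2 j = 0) → x = 0 ∧ y = 0 := by
    intro x y h
    constructor
    · have := h z2 hz2
      rw [h20, mul_zero, add_zero] at this
      exact (mul_eq_zero.1 this).resolve_right (h1n z2 hz2 (Ne.symm hz12))
    · have := h z1 hz1
      rw [h10, mul_zero, zero_add] at this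
      exact (mul_eq_zero.1 this).resolve_right (h2n z1 hz1 hz12)
  have hprop : ∀ i j : {x // x ∈ A ∪ B}, i ≠ j →
      (Geo1_sg A i * θ1 i) * (Geo1_sg A j * θ2 j) - (Geo1_sg A j * θ1 j) * (Geo1_sg A i * θ2 i)
        ≠ 0 := by
    rintro ⟨i, hi⟩ ⟨j, hj⟩ hij h
    have hij' : i ≠ j := fun h => hij (Subtype.ext h)
    simp only at h
    have hfac : Geo1_sg A i * Geo1_sg A j * (θ1 i * θ2 j - θ1 j * θ2 i) = 0 := by
      rw [← h]; ring
    have hd : θ1 i * θ2 j - θ1 j * θ2 i = 0 :=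
      (mul_eq_zero.1 hfac).resolve_left (mul_ne_zero (Geo1_sg_ne A i) (Geo1_sg_ne A j))
    obtain ⟨hs, hg⟩ := Geo1_comb g (A ∪ B) θ1 θ2 h1s h1g h2s h2g (θ2 i) (-θ1 i)
    have hall := Geo1_two g Y hgp (A ∪ B) hZ hZc (fun x => θ2 i * θ1 x + -θ1 i * θ2 x) hs hg
      i j hi hj hij' (by ring) (by linarith)
    obtain ⟨hx, hy⟩ := hindep _ _ hall
    have hy' : θ1 i = 0 := by linarith
    have e1 : i = z1 := by
      by_contra hne
      exact h1n i hi hne hy'
    have e2 : i = z2 := by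
      by_contra hne
      exact h2n i hi hne hx
    exact hz12 (e1 ▸ e2)
  have hev := plane_even (ι := {x // x ∈ A ∪ B}) (by rw [Fintype.card_coe, hZc]; norm_num)
    (fun i => Geo1_sg A i * θ1 i) (fun i => Geo1_sg A i * θ2 i) hprop
  -- the count
  have hcond : ∀ z : {x // x ∈ A ∪ B}, inum g (A.erase z) (B.erase z) =
      if (∃ x y : ℝ, (Geo1_sg A z * θ1 z) * x + (Geo1_sg A z * θ2 z) * y = 0 ∧
        ∀ j : {x // x ∈ A ∪ B}, j ≠ z →
          0 < (Geo1_sg A j * θ1 j) * x + (Geo1_sg A j * θ2 j) * y) then 1 else 0 := by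
    rintro ⟨z, hz⟩
    unfold inum
    congr 1
    apply propext
    rw [Geo1_iff g Y hgp A B hA hB hAB hc z hz]
    constructor
    · rintro ⟨θ, hsum, hgs, hz0, hpos⟩
      -- coordinates
      have hn1 := h1n z2 hz2 (Ne.symm hz12)
      have hn2 := h2n z1 hz1 hz12
      obtain ⟨hs, hg⟩ := Geo1_comb g (A ∪ B) θ1 θ2 h1s h1g h2s h2g (θ z2 / θ1 z2) (θ z1 / θ2 z1)
      obtain ⟨hs', hg'⟩ := Geo1_comb g (A ∪ B) θ
        (fun x => θ z2 / θ1 z2 * θ1 x + θ z1 / θ2 z1 * θ2 x) hsum hgs hs hg 1 (-1)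
      have hall := Geo1_two g Y hgp (A ∪ B) hZ hZc _ hs' hg' z1 z2 hz1 hz2 hz12
        (by simp only [h10]; field_simp; ring) (by simp only [h20]; field_simp; ring)
      have hθ : ∀ j ∈ A ∪ B, θ j = θ z2 / θ1 z2 * θ1 j + θ z1 / θ2 z1 * θ2 j := by
        intro j hj
        have := hall j hj
        linarith
      refine ⟨θ z2 / θ1 z2, θ z1 / θ2 z1, ?_, ?_⟩
      · have h := hθ z hz
        rw [hz0] at h
        have : Geo1_sg A z * (θ z2 / θ1 z2 * θ1 z + θ z1 / θ2 z1 * θ2 z) = 0 := by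
          rw [← h, mul_zero]
        linarith
      · rintro ⟨j, hj⟩ hjz
        have hjz' : j ≠ z := fun h => hjz (Subtype.ext h)
        have h := hpos j hj hjz'
        rw [hθ j hj] at h
        linarith
    · rintro ⟨x, y, hxy, hpos⟩
      obtain ⟨hs, hg⟩ := Geo1_comb g (A ∪ B) θ1 θ2 h1s h1g h2s h2g x y
      refine ⟨fun j => x * θ1 j + y * θ2 j, hs, hg, ?_, ?_⟩
      · simp only at hxy
        have h : Geo1_sg A z * (x * θ1 z + y * θ2 z) = 0 := by linarith
        exact (mul_eq_zero.1 h).resolve_left (Geo1_sg_ne A z)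
      · intro j hj hjz
        have h := hpos ⟨j, hj⟩ (fun h => hjz (congrArg Subtype.val h))
        simp only at h
        simp only
        linarith
  rw [← Finset.sum_coe_sort (A ∪ B) (fun z => inum g (A.erase z) (B.erase z))]
  rw [Finset.sum_congr rfl (fun z _ => hcond z), Finset.sum_boole]
  obtain ⟨m, hm⟩ := hev
  have hm' : (Finset.univ.filter (fun z : {x // x ∈ A ∪ B} =>
      ∃ x y : ℝ, (Geo1_sg A z * θ1 z) * x + (Geo1_sg A z * θ2 z) * y = 0 ∧
        ∀ j : {x // x ∈ A ∪ B}, j ≠ z →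
          0 < (Geo1_sg A j * θ1 j) * x + (Geo1_sg A j * θ2 j) * y)).card = m + m := by
    rw [← hm]
  rw [hm']
  push_cast
  exact CharTwo.add_self_eq_zero _

end FF4
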