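import Pool.Agent.Lib.FF4.Geo0

/-!
# FF4.Geo2: far points (normalisation and vanishing)

PROOF. `null`: let `p` be a common point. `p ∈ hull (g '' A)`, `A ⊆ R`, so `φ p = 0` (affine, 0 on the points of `A`).
Write `p = ∑_B β_b g b`; `φ p = ∑ β_b φ (g b)` with all terms `≥ 0`, so `β_b = 0` for `b ∈ O`. This gives a
dependence supported on `R` (4 points) with `∑_A θ = 1`; by `dep_zero` it is zero, contradiction. (Use
`meet_dep`; `∑ θ x * φ (g x) = 0` for a dependence since `φ` is affine: `φ = linear + const`.)
`norm`: `Z = {w, w'} ∪ R` has 6 points; let `θ` be a nontrivial dependence (`exists_dep`); all coefficients on `Z` are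
nonzero (`dep_zero`, `t` of 5 points). Apply `φ`: `θ w * φ (g w) + θ w' * φ (g w') = 0`, so `θ w`, `θ w'` have
opposite signs; replace `θ` by `-θ` if necessary: `θ w > 0 > θ w'`. Every dependence on `Z` is a multiple of `θ`
(subtract to make the coefficient at `w` zero, `dep_zero`). `Meet g (insert w A) (insert w' (R \ A))` holds iff
`A = {q ∈ R | 0 < θ q}`: `←` `dep_meet`; `→` `meet_dep` gives a multiple `c θ`, `c θ w ≥ 0` and `c ≠ 0` so `c > 0`,
so `θ ≥ 0` (hence `> 0`) on `A`, `< 0` on `R \ A`. So exactly one term of the sum is 1.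
-/

set_option autoImplicit false

namespace FF4

private lemma phi_dep {X : Type} (g : X → E4) (φ : E4 →ᵃ[ℝ] ℝ) (s : Finset X) (θ : X → ℝ)
    (hs : ∑ x ∈ s, θ x = 0) (hg : ∑ x ∈ s, θ x • g x = 0) : ∑ x ∈ s, θ x * φ (g x) = 0 := by
  have h1 : ∀ x, φ (g x) = φ.linear (g x) + φ 0 := by
    intro x
    have h2 := congrFun φ.decomp (g x)
    simpa using h2
  have h3 : ∑ x ∈ s, θ x * φ.linear (g x) = φ.linear (∑ x ∈ s, θ x • g x) := by
    rw [map_sum]
    refine Finset.sum_congr rfl fun x _ => ?_
    rw [map_smul, smul_eq_mul]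
  calc ∑ x ∈ s, θ x * φ (g x) = ∑ x ∈ s, (θ x * φ.linear (g x) + θ x * φ 0) := by
        refine Finset.sum_congr rfl fun x _ => ?_
        rw [h1 x]
        ring
    _ = 0 := by
        rw [Finset.sum_add_distrib, h3, hg, ← Finset.sum_mul, hs]
        simp

/-- (N): if `φ = 0` on the far points `R` and `φ > 0` on `O`, then the hull of a set `A` of far points
never meets the hull of a disjoint set. -/
theorem null {X : Type} [DecidableEq X] (g : X → E4) (O R : Finset X) (hdis : Disjoint O R)
    (hgp : GenPos g (O ∪ R)) (hR : R.card = 4) (φ : E4 →ᵃ[ℝ] ℝ) (h0 : ∀ x ∈ R, φ (g x) = 0)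
    (hpos : ∀ x ∈ O, 0 < φ (g x)) (A B : Finset X) (hA : A ⊆ R) (hB : B ⊆ O ∪ R)
    (hAB : Disjoint A B) : ¬ Meet g A B := by
  intro hM
  obtain ⟨θ, hz, hA0, hB0, hsA, hsB, hg⟩ := meet_dep g A B hAB hM
  have hs : ∑ x ∈ A ∪ B, θ x = 0 := by
    rw [Finset.sum_union hAB, hsA, hsB]
    norm_num
  have hφ := phi_dep g φ (A ∪ B) θ hs hg
  have hnp : ∀ x ∈ A ∪ B, θ x * φ (g x) ≤ 0 := by
    intro x hx
    by_cases hxR : x ∈ R
    · rw [h0 x hxR]
      simp
    · have hxB : x ∈ B := by
        rcases Finset.mem_union.mp hx with h | h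
        · exact absurd (hA h) hxR
        · exact h
      have hxO : x ∈ O := by
        rcases Finset.mem_union.mp (hB hxB) with h | h
        · exact h
        · exact absurd h hxR
      exact mul_nonpos_of_nonpos_of_nonneg (hB0 x hxB) (hpos x hxO).le
  have hzero := (Finset.sum_eq_zero_iff_of_nonpos hnp).mp hφ
  have hall := dep_zero g (O ∪ R) hgp (A ∪ B) ((A ∪ B) ∩ R)
    (Finset.union_subset (hA.trans Finset.subset_union_right) hB) Finset.inter_subset_left
    (by
      have := Finset.card_le_card (Finset.inter_subset_right (s₁ := A ∪ B) (s₂ := R))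
      omega) θ hs hg (by
      intro x hx hxt
      have hxR : x ∉ R := fun h => hxt (Finset.mem_inter.mpr ⟨hx, h⟩)
      have hxB : x ∈ B := by
        rcases Finset.mem_union.mp hx with h | h
        · exact absurd (hA h) hxR
        · exact h
      have hxO : x ∈ O := by
        rcases Finset.mem_union.mp (hB hxB) with h | h
        · exact h
        · exact absurd h hxR
      rcases mul_eq_zero.mp (hzero x hx) with h | h
      · exact h
      · exact absurd h (hpos x hxO).ne')
  have h1 : ∑ x ∈ A, θ x = 0 :=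
    Finset.sum_eq_zero fun x hx => hall x (Finset.mem_union_left _ hx)
  rw [hsA] at h1
  exact one_ne_zero h1

/-- (R): for two ordinary points `w ≠ w'` exactly one partition of the four far points gives
meeting hulls. -/
theorem norm {X : Type} [DecidableEq X] (g : X → E4) (O R : Finset X) (hdis : Disjoint O R)
    (hgp : GenPos g (O ∪ R)) (hR : R.card = 4) (φ : E4 →ᵃ[ℝ] ℝ) (h0 : ∀ x ∈ R, φ (g x) = 0)
    (hpos : ∀ x ∈ O, 0 < φ (g x)) (w w' : X) (hw : w ∈ O) (hw' : w' ∈ O) (hww : w ≠ w') :
    ∑ A ∈ R.powerset, inum g (insert w A) (insert w' (R \ A)) = 1 := by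
  have hwR : w ∉ R := fun h => Finset.disjoint_left.mp hdis hw h
  have hwR' : w' ∉ R := fun h => Finset.disjoint_left.mp hdis hw' h
  set Z : Finset X := insert w (insert w' R) with hZ
  have hw1 : w ∉ insert w' R := by
    rw [Finset.mem_insert]
    rintro (h | h)
    · exact hww h
    · exact hwR h
  have hcard : Z.card = 6 := by
    rw [hZ, Finset.card_insert_of_notMem hw1, Finset.card_insert_of_notMem hwR', hR]
  have hZs : Z ⊆ O ∪ R := by
    rw [hZ]
    intro x hx
    rw [Finset.mem_insert, Finset.mem_insert] at hx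
    rcases hx with h | h | h
    · exact Finset.mem_union_left _ (h ▸ hw)
    · exact Finset.mem_union_left _ (h ▸ hw')
    · exact Finset.mem_union_right _ h
  have hwZ : w ∈ Z := Finset.mem_insert_self _ _
  have hwZ' : w' ∈ Z := Finset.mem_insert_of_mem (Finset.mem_insert_self _ _)
  have hRZ : ∀ x ∈ R, x ∈ Z := fun x hx => Finset.mem_insert_of_mem (Finset.mem_insert_of_mem hx)
  -- a dependence vanishing at one point is zero
  have key : ∀ θ : X → ℝ, ∑ x ∈ Z, θ x = 0 → ∑ x ∈ Z, θ x • g x = 0 → (∃ x ∈ Z, θ x = 0) →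
      ∀ x ∈ Z, θ x = 0 := by
    rintro θ h1 h2 ⟨y, hy, hy0⟩
    refine dep_zero g (O ∪ R) hgp Z (Z.erase y) hZs (Finset.erase_subset _ _) ?_ θ h1 h2 ?_
    · rw [Finset.card_erase_of_mem hy, hcard]
    · intro x hx hxt
      have : x = y := by
        by_contra hne
        exact hxt (Finset.mem_erase.mpr ⟨hne, hx⟩)
      rw [this]
      exact hy0
  -- a dependence with signs
  have hex : ∃ θ : X → ℝ, ∑ x ∈ Z, θ x = 0 ∧ ∑ x ∈ Z, θ x • g x = 0 ∧ 0 < θ w ∧ θ w' < 0 ∧
      ∀ x ∈ Z, θ x ≠ 0 := by
    obtain ⟨θ, -, h1, h2, y, hy, hy0⟩ := exists_dep g Z (by rw [hcard])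
    have hne : ∀ x ∈ Z, θ x ≠ 0 := fun x hx h => hy0 (key θ h1 h2 ⟨x, hx, h⟩ y hy)
    have hφ := phi_dep g φ Z θ h1 h2
    have hsum : θ w * φ (g w) + θ w' * φ (g w') = 0 := by
      rw [hZ, Finset.sum_insert hw1, Finset.sum_insert hwR'] at hφ
      have : ∑ x ∈ R, θ x * φ (g x) = 0 :=
        Finset.sum_eq_zero fun x hx => by rw [h0 x hx, mul_zero]
      rw [this] at hφ
      linarith
    have p1 := hpos w hw
    have p2 := hpos w' hw'
    rcases lt_or_gt_of_ne (hne w hwZ) with hlt | hgt
    · refine ⟨fun x => -θ x, ?_, ?_, by linarith, ?_, fun x hx => neg_ne_zero.mpr (hne x hx)⟩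
      · rw [Finset.sum_neg_distrib, h1, neg_zero]
      · have : ∀ x, (-θ x) • g x = -(θ x • g x) := fun x => neg_smul _ _
        simp only [this]
        rw [Finset.sum_neg_distrib, h2, neg_zero]
      · have : 0 < θ w' := by
          by_contra hcon
          have h3 : θ w' ≤ 0 := not_lt.mp hcon
          have h4 : θ w * φ (g w) < 0 := mul_neg_of_neg_of_pos hlt p1
          have h5 : θ w' * φ (g w') ≤ 0 := mul_nonpos_of_nonpos_of_nonneg h3 p2.le
          linarith
        show -θ w' < 0
        linarith
    · refine ⟨θ, h1, h2, hgt, ?_, hne⟩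
      by_contra hcon
      have h3 : 0 ≤ θ w' := not_lt.mp hcon
      have h4 : 0 < θ w * φ (g w) := mul_pos hgt p1
      have h5 : 0 ≤ θ w' * φ (g w') := mul_nonneg h3 p2.le
      linarith
  obtain ⟨θ, h1, h2, hθw, hθw', hne⟩ := hex
  have hiff : ∀ A ∈ R.powerset, (Meet g (insert w A) (insert w' (R \ A)) ↔
      A = R.filter (fun x => 0 < θ x)) := by
    intro A hA
    rw [Finset.mem_powerset] at hA
    have hun : insert w A ∪ insert w' (R \ A) = Z := by
      ext x
      rw [hZ]
      simp only [Finset.mem_union, Finset.mem_insert, Finset.mem_sdiff]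
      constructor
      · rintro ((h | h) | (h | h))
        · exact Or.inl h
        · exact Or.inr (Or.inr (hA h))
        · exact Or.inr (Or.inl h)
        · exact Or.inr (Or.inr h.1)
      · rintro (h | h | h)
        · exact Or.inl (Or.inl h)
        · exact Or.inr (Or.inl h)
        · by_cases hxA : x ∈ A
          · exact Or.inl (Or.inr hxA)
          · exact Or.inr (Or.inr ⟨h, hxA⟩)
    have hdj : Disjoint (insert w A) (insert w' (R \ A)) := by
      rw [Finset.disjoint_left]
      intro x hx hx'
      rw [Finset.mem_insert] at hx hx'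
      rcases hx with h | h
      · rcases hx' with h' | h'
        · exact hww (h.symm.trans h')
        · rw [h] at h'
          exact hwR (Finset.mem_sdiff.mp h').1
      · rcases hx' with h' | h'
        · rw [h'] at h
          exact hwR' (hA h)
        · exact (Finset.mem_sdiff.mp h').2 h
    constructor
    · intro hM
      obtain ⟨η, -, hη1, hη2, hη3, hη4, hη5⟩ := meet_dep g _ _ hdj hM
      have e1 : ∑ x ∈ Z, η x = 0 := by
        rw [← hun, Finset.sum_union hdj, hη3, hη4]
        norm_num
      have e2 : ∑ x ∈ Z, η x • g x = 0 := by rw [← hun]; exact hη5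
      set c : ℝ := η w / θ w with hc
      have hcw : η w = c * θ w := by
        rw [hc, div_mul_cancel₀ _ hθw.ne']
      have hall := key (fun x => η x - c * θ x)
        (by rw [Finset.sum_sub_distrib, e1, ← Finset.mul_sum, h1]; simp)
        (by
          have : ∀ x, (η x - c * θ x) • g x = η x • g x - c • (θ x • g x) := by
            intro x
            rw [sub_smul, mul_smul]
          simp only [this]
          rw [Finset.sum_sub_distrib, e2, ← Finset.smul_sum, h2]
          simp)
        ⟨w, hwZ, by show η w - c * θ w = 0; rw [hcw]; ring⟩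
      have hall' : ∀ x ∈ Z, η x = c * θ x := fun x hx => by
        have := hall x hx
        have h3 : η x - c * θ x = 0 := this
        linarith
      have hc0 : 0 ≤ c := div_nonneg (hη1 w (Finset.mem_insert_self _ _)) hθw.le
      have hc1 : c ≠ 0 := by
        intro h
        have : ∑ x ∈ insert w A, η x = 0 := by
          refine Finset.sum_eq_zero fun x hx => ?_
          rw [hall' x (by rw [← hun]; exact Finset.mem_union_left _ hx), h, zero_mul]
        rw [hη3] at this
        exact one_ne_zero this
      have hcp : 0 < c := lt_of_le_of_ne hc0 (Ne.symm hc1)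
      ext x
      rw [Finset.mem_filter]
      constructor
      · intro hx
        refine ⟨hA hx, ?_⟩
        have h3 := hη1 x (Finset.mem_insert_of_mem hx)
        rw [hall' x (hRZ x (hA hx))] at h3
        have h4 : 0 ≤ θ x := nonneg_of_mul_nonneg_right h3 hcp
        exact lt_of_le_of_ne h4 (Ne.symm (hne x (hRZ x (hA hx))))
      · rintro ⟨hxR, hx⟩
        by_contra hxA
        have h3 := hη2 x (Finset.mem_insert_of_mem (Finset.mem_sdiff.mpr ⟨hxR, hxA⟩))
        rw [hall' x (hRZ x hxR)] at h3
        have h4 : 0 < c * θ x := mul_pos hcp hx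
        linarith
    · intro hAe
      refine dep_meet g _ _ hdj θ ?_ ?_ (by rw [hun]; exact h1) (by rw [hun]; exact h2)
        ⟨w, by rw [hun]; exact hwZ, hθw.ne'⟩
      · intro x hx
        rw [Finset.mem_insert] at hx
        rcases hx with h | h
        · rw [h]
          exact hθw.le
        · rw [hAe, Finset.mem_filter] at h
          exact h.2.le
      · intro x hx
        rw [Finset.mem_insert] at hx
        rcases hx with h | h
        · rw [h]
          exact hθw'.le
        · rw [Finset.mem_sdiff] at h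
          by_contra hcon
          apply h.2
          rw [hAe, Finset.mem_filter]
          exact ⟨h.1, not_le.mp hcon⟩
  have hterm : ∀ A ∈ R.powerset, inum g (insert w A) (insert w' (R \ A)) =
      if A = R.filter (fun x => 0 < θ x) then (1 : ZMod 2) else 0 := by
    intro A hA
    unfold inum
    by_cases h : A = R.filter (fun x => 0 < θ x)
    · rw [if_pos ((hiff A hA).mpr h), if_pos h]
    · rw [if_neg (fun h' => h ((hiff A hA).mp h')), if_neg h]
  rw [Finset.sum_congr rfl hterm, Finset.sum_ite_eq']
  rw [if_pos (Finset.mem_powerset.mpr (Finset.filter_subset _ _))]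

end FF4
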