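import Pool.Agent.Lib.FF4.Base

/-!
# FF4.Geo4: small perturbations into general position

PROOF. Induction on `O` (`Finset.induction_on`, keeping `R`). Base: `g = g0`; subsets of an affinely independent
family (`AffineIndependent.mono`/`comp_embedding`). Step `insert x O`: take `g` for `O`. For every `t ⊆ O ∪ R` with
`t.card ≤ 4` the affine span of `g '' t` is a proper subspace of `E4` (finrank 4), so it has Lebesgue measure 0
(`MeasureTheory.Measure.addHaar_affineSubspace`); the finite union over `t ∈ (O ∪ R).powerset` is null, the ball
`Metric.ball (g0 x) ε` has positive measure, so there is a point `y` in the ball in none of them. Put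
`g' = Function.update g x y`. For `s ⊆ insert x O ∪ R`, `s.card ≤ 5`: if `x ∉ s` old; if `x ∈ s` use
`AffineIndependent.affineIndependent_of_notMem_span` with `s.erase x`. (Note `x ∉ R`.)
-/

set_option autoImplicit false

namespace FF4

namespace Geo4Aux

theorem span_ne_top {X : Type} (g : X → E4) (t : Finset X) (ht : t.card ≤ 4) :
    affineSpan ℝ (g '' (t : Set X)) ≠ ⊤ := by
  classical
  rcases t.eq_empty_or_nonempty with rfl | hne
  · rw [Finset.coe_empty, Set.image_empty, AffineSubspace.span_empty]
    exact bot_ne_top
  · intro h
    have hc : t.card = (t.card - 1) + 1 := by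
      have := Finset.card_pos.2 hne
      omega
    have h1 := finrank_vectorSpan_image_finset_le ℝ g t hc
    have h2 : vectorSpan ℝ (g '' (t : Set X)) = ⊤ := by
      rw [← direction_affineSpan, h, AffineSubspace.direction_top]
    rw [Finset.coe_image, h2, finrank_top, finrank_euclideanSpace_fin] at h1
    omega

theorem exists_pt {X : Type} [DecidableEq X] (g : X → E4) (Y : Finset X) (c : E4) (ε : ℝ)
    (hε : 0 < ε) :
    ∃ y ∈ Metric.ball c ε, ∀ t ⊆ Y, t.card ≤ 4 → y ∉ affineSpan ℝ (g '' (t : Set X)) := by
  by_contra hcon
  push Not at hcon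
  have hsub : Metric.ball c ε ⊆ ⋃ t ∈ (Y.powerset.filter (fun t => t.card ≤ 4) : Set (Finset X)),
      (affineSpan ℝ (g '' (t : Set X)) : Set E4) := by
    intro y hy
    obtain ⟨t, ht, hc, hmem⟩ := hcon y hy
    simp only [Set.mem_iUnion]
    exact ⟨t, Finset.mem_coe.2 (Finset.mem_filter.2 ⟨Finset.mem_powerset.2 ht, hc⟩), hmem⟩
  have h0 : MeasureTheory.volume (⋃ t ∈ (Y.powerset.filter (fun t => t.card ≤ 4) :
      Set (Finset X)), (affineSpan ℝ (g '' (t : Set X)) : Set E4)) = 0 := by
    rw [MeasureTheory.measure_biUnion_null_iff (Finset.countable_toSet _)]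
    intro t ht
    exact MeasureTheory.Measure.addHaar_affineSubspace _ _
      (span_ne_top g t (Finset.mem_filter.1 (Finset.mem_coe.1 ht)).2)
  have h1 := MeasureTheory.measure_mono_null hsub h0
  exact (Metric.measure_ball_pos _ c hε).ne' h1

end Geo4Aux

theorem exists_gp {X : Type} [DecidableEq X] (O R : Finset X) (hdis : Disjoint O R)
    (g0 : X → E4) (hR : AffineIndependent ℝ (fun x : R => g0 x)) (ε : ℝ) (hε : 0 < ε) :
    ∃ g : X → E4, (∀ x, dist (g x) (g0 x) < ε) ∧ (∀ x ∈ R, g x = g0 x) ∧ GenPos g (O ∪ R) := by
  induction O using Finset.induction_on with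
  | empty =>
    refine ⟨g0, fun x => by rw [dist_self]; exact hε, fun x _ => rfl, ?_⟩
    intro s hs _
    have hs' : ∀ y ∈ s, y ∈ R := fun y hy => by
      have := hs hy
      rwa [Finset.empty_union] at this
    exact hR.comp_embedding ⟨fun y : s => (⟨y.1, hs' y.1 y.2⟩ : R), fun a b hab => by
      apply Subtype.ext
      exact congrArg (fun z : R => z.1) hab⟩
  | insert x O hx ih =>
    have hd : Disjoint O R := (Finset.disjoint_insert_left.1 hdis).2
    have hxR : x ∉ R := (Finset.disjoint_insert_left.1 hdis).1
    obtain ⟨g, hg1, hg2, hg3⟩ := ih hd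
    obtain ⟨y, hy, hyt⟩ := Geo4Aux.exists_pt g (O ∪ R) (g0 x) ε hε
    refine ⟨Function.update g x y, ?_, ?_, ?_⟩
    · intro z
      by_cases hz : z = x
      · subst hz
        rw [Function.update_self]
        exact Metric.mem_ball.1 hy
      · rw [Function.update_of_ne hz]
        exact hg1 z
    · intro z hz
      have : z ≠ x := fun h => hxR (h ▸ hz)
      rw [Function.update_of_ne this]
      exact hg2 z hz
    · intro s hs hc
      by_cases hxs : x ∈ s
      · have hts : s.erase x ⊆ O ∪ R := by
          intro z hz
          have h1 := Finset.mem_of_mem_erase hz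
          have h2 := hs h1
          rw [Finset.insert_union, Finset.mem_insert] at h2
          exact h2.resolve_left (Finset.ne_of_mem_erase hz)
        have htc : (s.erase x).card ≤ 4 := by
          rw [Finset.card_erase_of_mem hxs]
          omega
        have hAI := hg3 (s.erase x) hts (by omega)
        refine AffineIndependent.affineIndependent_of_notMem_span (i := (⟨x, hxs⟩ : s)) ?_ ?_
        · have hmem : ∀ z : {z : s // z ≠ ⟨x, hxs⟩}, (z.1 : X) ∈ s.erase x := fun z =>
            Finset.mem_erase.2 ⟨fun h => z.2 (Subtype.ext h), z.1.2⟩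
          have h1 := hAI.comp_embedding ⟨fun z : {z : s // z ≠ ⟨x, hxs⟩} =>
            (⟨(z.1 : X), hmem z⟩ : (s.erase x : Finset X)), fun a b hab => by
              apply Subtype.ext
              apply Subtype.ext
              exact congrArg (fun z : (s.erase x : Finset X) => z.1) hab⟩
          have heq : (fun z : {z : s // z ≠ ⟨x, hxs⟩} => Function.update g x y (z.1 : X)) =
              (fun z : (s.erase x : Finset X) => g z) ∘ (fun z : {z : s // z ≠ ⟨x, hxs⟩} =>
                (⟨(z.1 : X), hmem z⟩ : (s.erase x : Finset X))) := by
            funext z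
            simp only [Function.comp]
            rw [Function.update_of_ne (Finset.ne_of_mem_erase (hmem z))]
          rw [heq]
          exact h1
        · have h2 : (fun z : s => Function.update g x y z) '' {z | z ≠ ⟨x, hxs⟩} =
              g '' ((s.erase x : Finset X) : Set X) := by
            ext w
            constructor
            · rintro ⟨z, hz, rfl⟩
              have hzx : (z : X) ≠ x := fun h => hz (Subtype.ext h)
              refine ⟨z, Finset.mem_coe.2 (Finset.mem_erase.2 ⟨hzx, z.2⟩), ?_⟩
              simp only
              rw [Function.update_of_ne hzx]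
            · rintro ⟨z, hz, rfl⟩
              have hz' := Finset.mem_erase.1 (Finset.mem_coe.1 hz)
              refine ⟨⟨z, hz'.2⟩, fun h => hz'.1 (congrArg Subtype.val h), ?_⟩
              simp only
              rw [Function.update_of_ne hz'.1]
          rw [h2]
          simp only
          rw [Function.update_self]
          exact hyt _ hts htc
      · have hs' : s ⊆ O ∪ R := by
          intro z hz
          have h2 := hs hz
          rw [Finset.insert_union, Finset.mem_insert] at h2
          exact h2.resolve_left (fun h => hxs (h ▸ hz))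
        have h1 := hg3 s hs' hc
        convert h1 using 1
        funext z
        have : (z : X) ≠ x := fun h => hxs (h ▸ z.2)
        rw [Function.update_of_ne this]

end FF4
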