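import Pool.Agent.Lib.FF4.Defs

/-!
# FF4.Hea2: isomorphisms of the two transformations

PROOF. `deltaY_iso`: the map on `Option` (`Equiv.optionCongr e.toEquiv`), adjacency by cases. `yDelta_iso`: restrict `e`
to the subtypes (`Equiv.subtypeEquiv`). `deltaY_rot`, `deltaY_swap`: `ext x y; cases x; cases y; simp [deltaY]; tauto`.
-/

set_option autoImplicit false

namespace FF4

theorem deltaY_iso {V W : Type} {G : SimpleGraph V} {H : SimpleGraph W} (e : G ≃g H) (a b c : V) :
    Nonempty (deltaY G a b c ≃g deltaY H (e a) (e b) (e c)) := by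
  refine ⟨⟨Equiv.optionCongr e.toEquiv, ?_⟩⟩
  intro x y
  have h1 : ∀ u v : V, H.Adj (e u) (e v) ↔ G.Adj u v := fun u v => e.map_adj_iff
  have h2 : ∀ u v : V, e u = e v ↔ u = v := fun u v => e.injective.eq_iff
  cases x with
  | none =>
    cases y with
    | none => simp [deltaY]
    | some y =>
      simp only [deltaY, Equiv.optionCongr_apply, Option.map_none, Option.map_some]
      change (e y = e a ∨ e y = e b ∨ e y = e c) ↔ _
      rw [h2, h2, h2]
  | some x =>
    cases y with
    | none =>
      simp only [deltaY, Equiv.optionCongr_apply, Option.map_none, Option.map_some]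
      change (e x = e a ∨ e x = e b ∨ e x = e c) ↔ _
      rw [h2, h2, h2]
    | some y =>
      simp only [deltaY, Equiv.optionCongr_apply, Option.map_some]
      change (H.Adj (e x) (e y) ∧ ¬ ((e x = e a ∨ e x = e b ∨ e x = e c) ∧ (e y = e a ∨ e y = e b ∨ e y = e c))) ↔ _
      rw [h1, h2, h2, h2, h2, h2, h2]

theorem yDelta_iso {V W : Type} {G : SimpleGraph V} {H : SimpleGraph W} (e : G ≃g H) (v : V) :
    Nonempty (yDelta G v ≃g yDelta H (e v)) := by
  refine ⟨⟨e.toEquiv.subtypeEquiv fun x => ?_, ?_⟩⟩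
  · exact (not_congr e.injective.eq_iff).symm
  · rintro ⟨x, hx⟩ ⟨y, hy⟩
    have h1 : ∀ u v : V, H.Adj (e u) (e v) ↔ G.Adj u v := fun u v => e.map_adj_iff
    simp only [yDelta, Equiv.subtypeEquiv_apply, Subtype.mk.injEq, ne_eq]
    change (H.Adj (e x) (e y) ∨ (¬ e x = e y ∧ H.Adj (e v) (e x) ∧ H.Adj (e v) (e y))) ↔ _
    rw [h1, h1, h1, e.injective.eq_iff]

theorem deltaY_rot {V : Type} (G : SimpleGraph V) (a b c : V) :
    deltaY G a b c = deltaY G b c a := by
  ext x y
  cases x <;> cases y <;> simp only [deltaY] <;> tauto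

theorem deltaY_swap {V : Type} (G : SimpleGraph V) (a b c : V) :
    deltaY G a b c = deltaY G b a c := by
  ext x y
  cases x <;> cases y <;> simp only [deltaY] <;> tauto

end FF4
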