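import Pool.Agent.Lib.FF4.Defs

/-!
# FF4.Min1: minors and excluded minors

PROOF. `refl`: singletons. `trans`: `B w = ⋃_{u ∈ B1 w} B2 u`; connectivity: `G.induce (B1 w)` connected and each
`K.induce (B2 u)` connected, adjacent ones joined by an edge (walk induction: `SimpleGraph.Connected`,
`Reachable`; use `SimpleGraph.induce_connected_of_patches` or `induce_union_connected`-type lemmas, or argue by
reachability). `msize_lt`: `m ≤ n` since the branch sets are disjoint nonempty; choosing for each edge `w w'` of `H` an edge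
of `G` between `B w` and `B w'` is injective, so `|E(H)| ≤ |E(G)|`. If both are equalities then the branch sets are
singletons `{σ w}`, `σ` a bijection, `H.Adj w w' → G.Adj (σ w) (σ w')` and equality of the edge numbers gives the
converse: `H ≃g G`. `exists_excluded`: take `M` with `IsMinor M G`, `¬ P`, and `msize M` minimal
(`Nat.find`/well-founded induction); for `H` a minor of `M` not isomorphic to `M`: `msize H < msize M`, `H` is a minor of
`G`, so `P _ H`.
-/

set_option autoImplicit false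

namespace FF4

theorem IsMinor.refl {V : Type} (G : SimpleGraph V) : IsMinor G G := by
  refine ⟨fun w => {w}, fun w => ?_, fun w w' h => ?_, fun w w' h => ?_⟩
  · have hn : Nonempty ({w} : Set V) := ⟨⟨w, rfl⟩⟩
    refine ⟨fun x y => ?_⟩
    have hxy : x = y := Subtype.ext (x.2.trans y.2.symm)
    rw [hxy]
  · exact Set.disjoint_singleton.2 h
  · exact ⟨w, rfl, w', rfl, h⟩

theorem IsMinor.trans {U V W : Type} {H : SimpleGraph U} {G : SimpleGraph V} {K : SimpleGraph W}
    (h1 : IsMinor H G) (h2 : IsMinor G K) : IsMinor H K := by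
  obtain ⟨B1, c1, d1, e1⟩ := h1
  obtain ⟨B2, c2, d2, e2⟩ := h2
  refine ⟨fun u => ⋃ v ∈ B1 u, B2 v, fun u => ?_, fun u u' h => ?_, fun u u' h => ?_⟩
  · -- connectivity
    have hsub : ∀ v ∈ B1 u, B2 v ⊆ ⋃ v ∈ B1 u, B2 v := fun v hv =>
      Set.subset_biUnion_of_mem (u := fun v => B2 v) hv
    have hin : ∀ v (hv : v ∈ B1 u) (x y : W) (hx : x ∈ B2 v) (hy : y ∈ B2 v),
        (K.induce (⋃ v ∈ B1 u, B2 v)).Reachable ⟨x, hsub v hv hx⟩ ⟨y, hsub v hv hy⟩ := by
      intro v hv x y hx hy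
      exact ((c2 v).preconnected ⟨x, hx⟩ ⟨y, hy⟩).map
        (SimpleGraph.induceHomOfLE K (hsub v hv)).toHom
    have key : ∀ (v v' : B1 u), (G.induce (B1 u)).Walk v v' → ∀ (x y : W) (hx : x ∈ B2 v)
        (hy : y ∈ B2 v'), (K.induce (⋃ v ∈ B1 u, B2 v)).Reachable ⟨x, hsub v v.2 hx⟩
          ⟨y, hsub v' v'.2 hy⟩ := by
      intro v v' p
      induction p with
      | @nil a => exact fun x y hx hy => hin a a.2 x y hx hy
      | @cons a b c hab q ih =>
        intro x y hx hy
        obtain ⟨x', hx', y', hy', hK⟩ := e2 a b hab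
        have s1 := hin a a.2 x x' hx hx'
        have s2 : (K.induce (⋃ v ∈ B1 u, B2 v)).Reachable ⟨x', hsub a a.2 hx'⟩
            ⟨y', hsub b b.2 hy'⟩ := by
          apply SimpleGraph.Adj.reachable
          exact hK
        exact (s1.trans s2).trans (ih y' y hy' hy)
    obtain ⟨v0, hv0⟩ := (c1 u).nonempty
    obtain ⟨x0, hx0⟩ := (c2 v0).nonempty
    have hne : Nonempty (⋃ v ∈ B1 u, B2 v : Set W) := ⟨⟨x0, hsub v0 hv0 hx0⟩⟩
    refine ⟨?_⟩
    rintro ⟨x, hx⟩ ⟨y, hy⟩
    obtain ⟨v, hv, hxv⟩ := Set.mem_iUnion₂.1 hx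
    obtain ⟨v', hv', hyv⟩ := Set.mem_iUnion₂.1 hy
    obtain ⟨p⟩ := (c1 u).preconnected ⟨v, hv⟩ ⟨v', hv'⟩
    exact key _ _ p x y hxv hyv
  · rw [Set.disjoint_left]
    intro z hz hz'
    obtain ⟨v, hv, hzv⟩ := Set.mem_iUnion₂.1 hz
    obtain ⟨v', hv', hzv'⟩ := Set.mem_iUnion₂.1 hz'
    by_cases hvv : v = v'
    · rw [← hvv] at hv'
      exact Set.disjoint_left.1 (d1 u u' h) hv hv'
    · exact Set.disjoint_left.1 (d2 v v' hvv) hzv hzv'
  · obtain ⟨x, hx, y, hy, hxy⟩ := e1 u u' h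
    obtain ⟨p, hp, q, hq, hpq⟩ := e2 x y hxy
    exact ⟨p, Set.mem_iUnion₂.2 ⟨x, hx, hp⟩, q, Set.mem_iUnion₂.2 ⟨y, hy, hq⟩, hpq⟩

theorem IsMinor.of_iso {U V W : Type} {H : SimpleGraph U} {H' : SimpleGraph V} {G : SimpleGraph W}
    (e : H ≃g H') (h : IsMinor H G) : IsMinor H' G := by
  obtain ⟨B, c, d, f⟩ := h
  refine ⟨fun v => B (e.symm v), fun v => c _, fun v v' hv => d _ _ ?_, fun v v' hv => f _ _ ?_⟩
  · exact fun h => hv (e.symm.injective h)
  · exact e.symm.map_rel_iff.2 hv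

/-- number of vertices plus number of edges -/
noncomputable def msize {n : ℕ} (G : SimpleGraph (Fin n)) : ℕ := n + G.edgeSet.ncard

/-- A minor that is not isomorphic to the graph is smaller. -/
theorem msize_lt {m n : ℕ} {H : SimpleGraph (Fin m)} {G : SimpleGraph (Fin n)} (h : IsMinor H G)
    (hiso : ¬ Nonempty (H ≃g G)) : msize H < msize G := by
  classical
  obtain ⟨B, c, d, f⟩ := h
  have huniq : ∀ x w w', x ∈ B w → x ∈ B w' → w = w' := by
    intro x w w' hw hw'
    by_contra hne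
    exact Set.disjoint_left.1 (d w w' hne) hw hw'
  have hr : ∀ w, ∃ x, x ∈ B w := fun w => by
    obtain ⟨x, hx⟩ := (c w).nonempty
    exact ⟨x, hx⟩
  choose r hr using hr
  have hinj : Function.Injective r := fun w w' hww => huniq (r w) w w' (hr w) (by
    rw [hww]; exact hr w')
  have hmn : m ≤ n := by
    have h1 := Fintype.card_le_of_injective r hinj
    rwa [Fintype.card_fin, Fintype.card_fin] at h1
  -- the edges
  have hF : ∀ e ∈ H.edgeSet, ∃ e' ∈ G.edgeSet, ∃ w w' x y, e = s(w, w') ∧ e' = s(x, y) ∧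
      x ∈ B w ∧ y ∈ B w' := by
    intro e he
    induction e using Sym2.ind with
    | _ w w' =>
      obtain ⟨x, hx, y, hy, hxy⟩ := f w w' he
      exact ⟨s(x, y), hxy, w, w', x, y, rfl, rfl, hx, hy⟩
  choose F hF1 hF2 using hF
  have hFinj : Function.Injective
      (fun e : H.edgeSet => (⟨F e.1 e.2, hF1 e.1 e.2⟩ : G.edgeSet)) := by
    rintro ⟨e, he⟩ ⟨e', he'⟩ hee0
    have hee : F e he = F e' he' := congrArg Subtype.val hee0
    apply Subtype.ext
    change e = e'
    obtain ⟨w, w', x, y, h1, h2, h3, h4⟩ := hF2 e he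
    obtain ⟨u, u', x', y', h1', h2', h3', h4'⟩ := hF2 e' he'
    rw [h2, h2', Sym2.eq_iff] at hee
    rw [h1, h1', Sym2.eq_iff]
    rcases hee with ⟨e1, e2⟩ | ⟨e1, e2⟩
    · subst e1; subst e2
      exact Or.inl ⟨huniq _ _ _ h3 h3', huniq _ _ _ h4 h4'⟩
    · subst e1; subst e2
      exact Or.inr ⟨huniq _ _ _ h3 h4', huniq _ _ _ h4 h3'⟩
  have hee : H.edgeSet.ncard ≤ G.edgeSet.ncard := by
    rw [← Nat.card_coe_set_eq, ← Nat.card_coe_set_eq]
    exact Nat.card_le_card_of_injective _ hFinj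
  by_contra hcon
  have hcon' : msize G ≤ msize H := not_lt.1 hcon
  unfold msize at hcon'
  have hmn' : m = n := by omega
  have hle : G.edgeSet.ncard ≤ H.edgeSet.ncard := by omega
  subst hmn'
  have hbij : Function.Bijective r := Finite.injective_iff_bijective.1 hinj
  have hB : ∀ w x, x ∈ B w → x = r w := by
    intro w x hx
    obtain ⟨w', rfl⟩ := hbij.2 x
    rw [huniq _ _ _ hx (hr w')]
  have hadj : ∀ w w', H.Adj w w' → G.Adj (r w) (r w') := by
    intro w w' hw
    obtain ⟨x, hx, y, hy, hxy⟩ := f w w' hw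
    rwa [hB w x hx, hB w' y hy] at hxy
  have himg : (Sym2.map r) '' H.edgeSet ⊆ G.edgeSet := by
    rintro _ ⟨e, he, rfl⟩
    induction e using Sym2.ind with
    | _ w w' => exact hadj w w' he
  have hcard : ((Sym2.map r) '' H.edgeSet).ncard = H.edgeSet.ncard :=
    Set.ncard_image_of_injective _ (Sym2.map.injective hinj)
  have heq : (Sym2.map r) '' H.edgeSet = G.edgeSet :=
    Set.eq_of_subset_of_ncard_le himg (by rw [hcard]; exact hle) (Set.toFinite _)
  have hadj' : ∀ w w', G.Adj (r w) (r w') → H.Adj w w' := by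
    intro w w' hw
    have h1 : s(r w, r w') ∈ G.edgeSet := hw
    rw [← heq] at h1
    obtain ⟨e, he, h2⟩ := h1
    have h3 : Sym2.map r e = Sym2.map r s(w, w') := h2
    rw [Sym2.map.injective hinj h3] at he
    exact he
  exact hiso ⟨{ toEquiv := Equiv.ofBijective r hbij
                map_rel_iff' := fun {a b} => ⟨hadj' a b, hadj a b⟩ }⟩

/-- Below a graph that is not in the class there is an excluded minor. -/
theorem exists_excluded (P : ∀ n : ℕ, SimpleGraph (Fin n) → Prop) {n : ℕ}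
    (G : SimpleGraph (Fin n)) (hG : ¬ P n G) :
    ∃ (m : ℕ) (M : SimpleGraph (Fin m)), IsMinor M G ∧ ExcludedMinor P M := by
  classical
  have hex : ∃ k : ℕ, ∃ (m : ℕ) (M : SimpleGraph (Fin m)), IsMinor M G ∧ ¬ P m M ∧ msize M = k :=
    ⟨msize G, n, G, IsMinor.refl G, hG, rfl⟩
  obtain ⟨m, M, hM, hP, hk⟩ := Nat.find_spec hex
  refine ⟨m, M, hM, hP, fun m' H hH hiso => ?_⟩
  by_contra hcon
  have hlt := msize_lt hH hiso
  rw [hk] at hlt
  exact Nat.find_min hex hlt ⟨m', H, hH.trans hM, hcon, rfl⟩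

end FF4
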