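import Pool.Agent.Lib.FF4.Defs

/-!
# FF4.Min2: the minors of `C₁₁(1,3)`

PROOF. Branch sets `B w ⊆ Fin 11`, disjoint, connected, nonempty: `n ≤ ∑ |B w| ≤ 11`. `C11` is 4-regular (decide). For
a connected nonempty `B`, the number of pairs `(x, y)` with `x ∈ B`, `y ∈ B`, adjacent is `≥ 2 (|B| - 1)` (a connected
graph on `m` vertices has at least `m - 1` edges: `SimpleGraph.Connected.card_vert_le_card_edgeSet_add_one`), so the number of
pairs `x ∈ B`, `y ∉ B` adjacent is `≤ 4 |B| - 2 (|B| - 1) = 2 |B| + 2`. For `w' ∈ F.neighborSet w` choose such a pair with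
`y ∈ B w'`: injective. So `deg_F w ≤ 2 |B w| + 2`; sum `≤ 22 + 2 n`. If `n = 10` and the degree sum is 42, all are
equalities: `deg_F w = 2 |B w| + 2` is even. If `n = 11`: the branch sets are singletons, so a triangle of `F` gives a
triangle of `C11`; `C11` is triangle-free (decide).
-/

set_option autoImplicit false

namespace FF4

namespace Min2Aux

local instance decAdj : DecidableRel C11.Adj := fun x y =>
  inferInstanceAs (Decidable (x - y = 1 ∨ y - x = 1 ∨ x - y = 3 ∨ y - x = 3))

theorem deg4 : ∀ x : Fin 11, (Finset.univ.filter (fun y => C11.Adj x y)).card = 4 := by decide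

theorem trifree : ∀ x y z : Fin 11, C11.Adj x y → C11.Adj y z → ¬ C11.Adj x z := by decide

/-- The pairs leaving the set `b`. -/
def out (b : Finset (Fin 11)) : Finset (Fin 11 × Fin 11) :=
  Finset.univ.filter (fun p => p.1 ∈ b ∧ p.2 ∉ b ∧ C11.Adj p.1 p.2)

theorem out_card (b : Finset (Fin 11)) :
    (out b).card = ∑ x ∈ b, (Finset.univ.filter (fun y => y ∉ b ∧ C11.Adj x y)).card := by
  classical
  have h : out b = (b.sigma (fun x => Finset.univ.filter (fun y => y ∉ b ∧ C11.Adj x y))).map
      (Equiv.sigmaEquivProd (Fin 11) (Fin 11)).toEmbedding := by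
    ext ⟨x, y⟩
    simp only [out, Finset.mem_filter, Finset.mem_univ, true_and, Finset.mem_map,
      Finset.mem_sigma]
    constructor
    · rintro ⟨h1, h2, h3⟩
      exact ⟨⟨x, y⟩, ⟨h1, h2, h3⟩, rfl⟩
    · rintro ⟨⟨x', y'⟩, ⟨h1, h2, h3⟩, h4⟩
      have h5 : x' = x := congrArg Prod.fst h4
      have h6 : y' = y := congrArg Prod.snd h4
      subst h5; subst h6
      exact ⟨h1, h2, h3⟩
  rw [h, Finset.card_map, Finset.card_sigma]

theorem deg_ind (b : Finset (Fin 11)) (x : (b : Set (Fin 11)))
    [Fintype ((C11.induce (b : Set (Fin 11))).neighborSet x)] :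
    (C11.induce (b : Set (Fin 11))).degree x =
      (Finset.univ.filter (fun y => y ∈ b ∧ C11.Adj x y)).card := by
  classical
  rw [← SimpleGraph.card_neighborFinset_eq_degree, ← Finset.card_map (Function.Embedding.subtype _)]
  congr 1
  ext y
  simp only [Finset.mem_map, SimpleGraph.mem_neighborFinset, Finset.mem_filter, Finset.mem_univ,
    true_and, SimpleGraph.comap_adj, Function.Embedding.subtype_apply]
  constructor
  · rintro ⟨z, hz, rfl⟩
    exact ⟨z.2, hz⟩
  · rintro ⟨h1, h2⟩
    exact ⟨⟨y, h1⟩, h2, rfl⟩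

theorem out_le (b : Finset (Fin 11)) (h : (C11.induce (b : Set (Fin 11))).Connected) :
    (out b).card ≤ 2 * b.card + 2 := by
  classical
  have h1 := h.card_vert_le_card_edgeSet_add_one
  have h2 := (C11.induce (b : Set (Fin 11))).sum_degrees_eq_twice_card_edges
  have h3 : Nat.card (b : Set (Fin 11)) = b.card := by simp
  have h4 : Nat.card (C11.induce (b : Set (Fin 11))).edgeSet =
      (C11.induce (b : Set (Fin 11))).edgeFinset.card := by
    rw [Nat.card_eq_fintype_card, SimpleGraph.edgeFinset_card]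
  have h5 : ∑ x : (b : Set (Fin 11)), (C11.induce (b : Set (Fin 11))).degree x =
      ∑ x ∈ b, (Finset.univ.filter (fun y => y ∈ b ∧ C11.Adj x y)).card := by
    rw [← Finset.sum_coe_sort b]
    refine Finset.sum_congr rfl ?_
    intro x _
    exact deg_ind b x
  have h6 : ∑ x ∈ b, ((Finset.univ.filter (fun y => y ∈ b ∧ C11.Adj x y)).card +
      (Finset.univ.filter (fun y => y ∉ b ∧ C11.Adj x y)).card) = 4 * b.card := by
    have : ∀ x ∈ b, ((Finset.univ.filter (fun y => y ∈ b ∧ C11.Adj x y)).card +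
      (Finset.univ.filter (fun y => y ∉ b ∧ C11.Adj x y)).card) = 4 := by
      intro x _
      rw [← deg4 x, ← Finset.card_union_of_disjoint]
      · congr 1
        ext y
        simp only [Finset.mem_union, Finset.mem_filter, Finset.mem_univ, true_and]
        by_cases hy : y ∈ b <;> simp [hy]
      · rw [Finset.disjoint_left]
        intro y hy hy'
        simp only [Finset.mem_filter, Finset.mem_univ, true_and] at hy hy'
        exact hy'.1 hy.1
    rw [Finset.sum_congr rfl this]
    simp [mul_comm]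
  rw [Finset.sum_add_distrib, ← h5, ← out_card] at h6
  rw [h3, h4] at h1
  omega

theorem sum_card {n : ℕ} (b : Fin n → Finset (Fin 11))
    (hd : ∀ w w', w ≠ w' → Disjoint (b w) (b w')) : ∑ w, (b w).card ≤ 11 := by
  classical
  rw [← Finset.card_biUnion (fun w _ w' _ h => hd w w' h)]
  exact (Finset.card_le_univ _).trans (by simp)

end Min2Aux

open Min2Aux in
/-- Counting facts about a minor `F` (on `n` vertices) of `C₁₁(1,3)`: `n ≤ 11`, the degree sum is
at most `22 + 2 n`, for `n = 11` there is no triangle, and if `n = 10` and the degree sum is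
`42`, then all degrees are even. -/
theorem minor_C11 {n : ℕ} (F : SimpleGraph (Fin n)) (h : IsMinor F C11) :
    n ≤ 11 ∧ ∑ v, (F.neighborSet v).ncard ≤ 22 + 2 * n ∧
    (n = 11 → ∀ a b c, F.Adj a b → F.Adj b c → ¬ F.Adj a c) ∧
    (n = 10 → ∑ v, (F.neighborSet v).ncard = 42 → ∀ v, Even (F.neighborSet v).ncard) := by
  classical
  obtain ⟨B, hconn, hdis, hadj⟩ := h
  have hb : ∃ b : Fin n → Finset (Fin 11), ∀ w, B w = (b w : Set (Fin 11)) :=
    ⟨fun w => (B w).toFinset, fun w => by simp⟩
  obtain ⟨b, hbB⟩ := hb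
  have hconn' : ∀ w, (C11.induce (b w : Set (Fin 11))).Connected := by
    intro w; rw [← hbB w]; exact hconn w
  have hdis' : ∀ w w', w ≠ w' → Disjoint (b w) (b w') := by
    intro w w' hw
    have := hdis w w' hw
    rw [hbB, hbB] at this
    exact_mod_cast this
  have hadj' : ∀ w w', F.Adj w w' → ∃ x ∈ b w, ∃ y ∈ b w', C11.Adj x y := by
    intro w w' hw
    obtain ⟨x, hx, y, hy, hxy⟩ := hadj w w' hw
    rw [hbB] at hx hy
    exact ⟨x, by exact_mod_cast hx, y, by exact_mod_cast hy, hxy⟩
  have hsum := sum_card b hdis'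
  have hpos : ∀ w, 1 ≤ (b w).card := by
    intro w
    obtain ⟨x⟩ := (hconn' w).nonempty
    exact Finset.card_pos.2 ⟨x.1, by exact_mod_cast x.2⟩
  have hn : n ≤ ∑ w, (b w).card := by
    calc n = ∑ _w : Fin n, 1 := by simp
      _ ≤ _ := Finset.sum_le_sum (fun w _ => hpos w)
  have hdeg : ∀ w, (F.neighborSet w).ncard ≤ 2 * (b w).card + 2 := by
    intro w
    refine le_trans ?_ (out_le (b w) (hconn' w))
    have hch : ∀ w', ∃ p : Fin 11 × Fin 11, F.Adj w w' → p.1 ∈ b w ∧ p.2 ∈ b w' ∧
        C11.Adj p.1 p.2 := by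
      intro w'
      by_cases hw : F.Adj w w'
      · obtain ⟨x, hx, y, hy, hxy⟩ := hadj' w w' hw
        exact ⟨(x, y), fun _ => ⟨hx, hy, hxy⟩⟩
      · exact ⟨(0, 0), fun h => absurd h hw⟩
    choose p hp using hch
    have h1 : (F.neighborSet w).ncard ≤ ((out (b w) : Set (Fin 11 × Fin 11))).ncard := by
      refine Set.ncard_le_ncard_of_injOn p ?_ ?_ (Finset.finite_toSet _)
      · intro w' hw'
        have hw'' : F.Adj w w' := hw'
        obtain ⟨h1, h2, h3⟩ := hp w' hw''
        have h4 : (p w').2 ∉ b w := by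
          intro h5
          exact (Finset.disjoint_left.1 (hdis' w w' hw''.ne)) h5 h2
        simp only [out, Finset.coe_filter, Finset.mem_univ, true_and, Set.mem_ofPred_eq]
        exact ⟨h1, h4, h3⟩
      · intro w1 hw1 w2 hw2 heq
        by_contra hne
        have h1 := (hp w1 hw1).2.1
        have h2 := (hp w2 hw2).2.1
        rw [heq] at h1
        exact (Finset.disjoint_left.1 (hdis' w1 w2 hne)) h1 h2
    rwa [Set.ncard_coe_finset] at h1
  have htot : ∑ w, (2 * (b w).card + 2) ≤ 22 + 2 * n := by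
    rw [Finset.sum_add_distrib, ← Finset.mul_sum]
    simp only [Finset.sum_const, Finset.card_univ, Fintype.card_fin, smul_eq_mul]
    omega
  refine ⟨hn.trans hsum, (Finset.sum_le_sum (fun w _ => hdeg w)).trans htot, ?_, ?_⟩
  · intro hn11
    have hone : ∀ w, (b w).card ≤ 1 := by
      intro w
      by_contra hw
      push Not at hw
      have : ∑ _w : Fin n, 1 < ∑ w, (b w).card :=
        Finset.sum_lt_sum (fun w _ => hpos w) ⟨w, Finset.mem_univ _, hw⟩
      simp only [Finset.sum_const, Finset.card_univ, Fintype.card_fin, smul_eq_mul, mul_one] at this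
      omega
    intro u v w huv hvw huw
    obtain ⟨x, hx, y, hy, hxy⟩ := hadj' u v huv
    obtain ⟨y', hy', z, hz, hyz⟩ := hadj' v w hvw
    obtain ⟨x', hx', z', hz', hxz⟩ := hadj' u w huw
    have e1 : y' = y := Finset.card_le_one.1 (hone v) _ hy' _ hy
    have e2 : x' = x := Finset.card_le_one.1 (hone u) _ hx' _ hx
    have e3 : z' = z := Finset.card_le_one.1 (hone w) _ hz' _ hz
    subst e1; subst e2; subst e3
    exact trifree _ _ _ hxy hyz hxz
  · intro hn10 h42 v
    have h1 : ∑ w, (F.neighborSet w).ncard = ∑ w, (2 * (b w).card + 2) := by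
      refine le_antisymm (Finset.sum_le_sum (fun w _ => hdeg w)) ?_
      rw [h42]
      omega
    have h2 := (Finset.sum_eq_sum_iff_of_le (fun w _ => hdeg w)).1 h1 v (Finset.mem_univ v)
    rw [h2]
    exact ⟨(b v).card + 1, by ring⟩

end FF4
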