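import Pool.Agent.Lib.FF4.Hea1
import Pool.Agent.Lib.FF4.Hea2
import Pool.Agent.Lib.FF4.Min1
import Pool.Agent.Lib.FF4.Min2

/-!
# FF4.Hea3: every member of the Heawood family is in the table; none is a minor of `C₁₁(1,3)`
-/

set_option autoImplicit false

namespace FF4

/-- the graph of the list of masks `g` -/
def tg (g : List ℕ) : SimpleGraph (Fin g.length) where
  Adj x y := adjM g x.val y.val = true ∧ adjM g y.val x.val = true ∧ x ≠ y
  symm := ⟨fun _ _ h => ⟨h.2.1, h.1, h.2.2.symm⟩⟩
  loopless := ⟨fun _ h => h.2.2 rfl⟩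

theorem tg_adj (g : List ℕ) (hg : okG g = true) (x y : Fin g.length) :
    (tg g).Adj x y ↔ adjM g x.val y.val = true := by
  unfold okG at hg
  simp only [List.all_eq_true, List.mem_range, Bool.and_eq_true, Bool.not_eq_true', beq_iff_eq] at hg
  constructor
  · exact fun h => h.1
  · intro h
    refine ⟨h, ?_, ?_⟩
    · rw [← (hg x.val x.isLt).2 y.val y.isLt]
      exact h
    · intro hxy
      subst hxy
      rw [(hg x.val x.isLt).1] at h
      exact absurd h (by simp)

theorem iso_of_map {V : Type} [Fintype V] {n : ℕ} (G : SimpleGraph V) (H : SimpleGraph (Fin n))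
    (f : V → Fin n) (hinj : Function.Injective f) (hcard : Fintype.card V = n)
    (hadj : ∀ x y, G.Adj x y ↔ H.Adj (f x) (f y)) : Nonempty (G ≃g H) := by
  have hbij : Function.Bijective f :=
    (Fintype.bijective_iff_injective_and_card f).2 ⟨hinj, by rw [hcard, Fintype.card_fin]⟩
  exact ⟨{ toEquiv := Equiv.ofBijective f hbij, map_rel_iff' := by
            intro a b
            exact (hadj a b).symm }⟩

theorem in3_iff (a b c x : ℕ) : in3 a b c x = true ↔ x = a ∨ x = b ∨ x = c := by
  simp [in3, or_assoc]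

theorem okDY_iso (g h : List ℕ) (hg : okG g = true) (hh : okG h = true) (a b c : Fin g.length)
    (p : ℕ) (hok : okDY g h a.val b.val c.val p = true) :
    Nonempty (deltaY (tg g) a b c ≃g tg h) := by
  unfold okDY at hok
  simp only [Bool.and_eq_true, List.all_eq_true, List.mem_range, beq_iff_eq, Nat.blt_eq,
    Bool.not_eq_true', beq_eq_false_iff_ne, ne_eq] at hok
  obtain ⟨⟨hlen, h1⟩, h2⟩ := hok
  have hd : ∀ x, x < g.length + 1 → dig p x < h.length := fun x hx => by
    rw [hlen]; exact (h1 x hx).1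
  let f : Option (Fin g.length) → Fin h.length := fun x =>
    match x with
    | some x => ⟨dig p x.val, hd _ (by omega)⟩
    | none => ⟨dig p g.length, hd _ (by omega)⟩
  have hne : ∀ x y, x < g.length + 1 → y < x → dig p x ≠ dig p y := fun x y hx hy =>
    (h1 x hx).2 y hy
  have hinj' : ∀ x y, x < g.length + 1 → y < g.length + 1 → dig p x = dig p y → x = y := by
    intro x y hx hy hxy
    rcases Nat.lt_trichotomy x y with hl | hl | hl
    · exact absurd hxy.symm (hne y x hy hl)
    · exact hl
    · exact absurd hxy (hne x y hx hl)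
  have hsym : ∀ x y : Fin h.length, adjM h x.val y.val = adjM h y.val x.val := by
    intro x y
    have := hh
    unfold okG at this
    simp only [List.all_eq_true, List.mem_range, Bool.and_eq_true, Bool.not_eq_true', beq_iff_eq]
      at this
    exact (this x.val x.isLt).2 y.val y.isLt
  apply iso_of_map _ _ f
  · intro x y hxy
    have hv := congrArg Fin.val hxy
    rcases x with _ | x <;> rcases y with _ | y
    · rfl
    · have := hinj' _ _ (by omega) (by omega) hv
      have hy := y.isLt
      omega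
    · have := hinj' _ _ (by omega) (by omega) hv
      have hx := x.isLt
      omega
    · have := hinj' _ _ (by omega) (by omega) hv
      exact congrArg some (Fin.ext this)
  · rw [Fintype.card_option, Fintype.card_fin, hlen]
  · intro x y
    rw [tg_adj h hh]
    rcases x with _ | x <;> rcases y with _ | y
    · constructor
      · intro h; exact h.elim
      · intro h'
        have := hh
        unfold okG at this
        simp only [List.all_eq_true, List.mem_range, Bool.and_eq_true, Bool.not_eq_true',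
          beq_iff_eq] at this
        rw [(this _ (f none).isLt).1] at h'
        exact absurd h' (by simp)
    · change (y = a ∨ y = b ∨ y = c) ↔ adjM h (f none).val (f (some y)).val = true
      rw [hsym]
      change (y = a ∨ y = b ∨ y = c) ↔ adjM h (dig p y.val) (dig p g.length) = true
      rw [(h2 y.val y.isLt).1, in3_iff]
      simp only [Fin.ext_iff]
    · change (x = a ∨ x = b ∨ x = c) ↔ adjM h (dig p x.val) (dig p g.length) = true
      rw [(h2 x.val x.isLt).1, in3_iff]
      simp only [Fin.ext_iff]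
    · change ((tg g).Adj x y ∧ ¬ ((x = a ∨ x = b ∨ x = c) ∧ (y = a ∨ y = b ∨ y = c))) ↔
        adjM h (dig p x.val) (dig p y.val) = true
      rw [(h2 x.val x.isLt).2 y.val y.isLt, tg_adj g hg, Bool.and_eq_true, Bool.not_eq_true',
        Bool.eq_false_iff, ne_eq, Bool.and_eq_true, in3_iff, in3_iff]
      simp only [Fin.ext_iff]

theorem okYD_iso (g h : List ℕ) (hg : okG g = true) (hh : okG h = true) (v : Fin g.length)
    (p : ℕ) (hok : okYD g h v.val p = true) :
    Nonempty (yDelta (tg g) v ≃g tg h) := by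
  unfold okYD at hok
  simp only [Bool.and_eq_true, List.all_eq_true, List.mem_range, beq_iff_eq, Nat.blt_eq,
    Bool.or_eq_true, Bool.not_eq_true', beq_eq_false_iff_ne, ne_eq] at hok
  obtain ⟨⟨hlen, h1⟩, h2⟩ := hok
  have hd : ∀ x : {x : Fin g.length // x ≠ v}, dig p x.1.val < h.length := by
    intro x
    rcases h1 x.1.val x.1.isLt with hx | hx
    · exact absurd (Fin.ext hx) x.2
    · exact hx.1
  have hne : ∀ x y : {x : Fin g.length // x ≠ v}, y.1.val < x.1.val →
      dig p x.1.val ≠ dig p y.1.val := by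
    intro x y hy
    rcases h1 x.1.val x.1.isLt with hx | hx
    · exact absurd (Fin.ext hx) x.2
    · rcases hx.2 y.1.val hy with h' | h'
      · exact absurd (Fin.ext h') y.2
      · exact h'
  apply iso_of_map _ _ (fun x : {x : Fin g.length // x ≠ v} => (⟨dig p x.1.val, hd x⟩ : Fin h.length))
  · intro x y hxy
    have hv : dig p x.1.val = dig p y.1.val := congrArg Fin.val hxy
    rcases Nat.lt_trichotomy x.1.val y.1.val with hl | hl | hl
    · exact absurd hv.symm (hne y x hl)
    · exact Subtype.ext (Fin.ext hl)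
    · exact absurd hv (hne x y hl)
  · have hc : Fintype.card {x : Fin g.length // x ≠ v} = g.length - 1 := by
      rw [Fintype.card_subtype_compl, Fintype.card_fin, Fintype.card_subtype_eq]
    rw [hc]
    omega
  · intro x y
    rw [tg_adj h hh]
    change ((tg g).Adj x.1 y.1 ∨ (x ≠ y ∧ (tg g).Adj v x.1 ∧ (tg g).Adj v y.1)) ↔
      adjM h (dig p x.1.val) (dig p y.1.val) = true
    rw [tg_adj g hg, tg_adj g hg, tg_adj g hg]
    rcases h2 x.1.val x.1.isLt with hx | hx
    · exact absurd (Fin.ext hx) x.2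
    · rcases hx y.1.val y.1.isLt with hy | hy
      · exact absurd (Fin.ext hy) y.2
      · rw [hy]
        simp only [Bool.or_eq_true, Bool.and_eq_true, Bool.not_eq_true', beq_eq_false_iff_ne,
          ne_eq, Subtype.ext_iff, Fin.ext_iff, and_assoc]

theorem getD_mem {i : ℕ} (hi : i < 78) : hl.getD i [] ∈ hl := by
  have h : i < hl.length := by rw [hl_length]; exact hi
  rw [List.getD_eq_getElem _ _ h]
  exact List.getElem_mem h

theorem okG_get {i : ℕ} (hi : i < 78) : okG (hl.getD i []) = true :=
  (List.all_eq_true.1 okG_all) _ (getD_mem hi)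

/-- sorted triangles -/
theorem close_dY_sorted {i : ℕ} (hi : i < 78) (a b c : Fin (hl.getD i []).length)
    (hab : a.val < b.val) (hbc : b.val < c.val) (h1 : (tg (hl.getD i [])).Adj a b)
    (h2 : (tg (hl.getD i [])).Adj b c) (h3 : (tg (hl.getD i [])).Adj a c) :
    ∃ j < 78, Nonempty (deltaY (tg (hl.getD i [])) a b c ≃g tg (hl.getD j [])) := by
  have hcov := covDY_all
  have hok := okDY_all
  simp only [List.all_eq_true, List.mem_range, Bool.or_eq_true, Bool.not_eq_true',
    Bool.and_eq_false_iff, List.any_eq_true, Bool.and_eq_true, beq_iff_eq, Nat.blt_eq] at hcov hok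
  have h := hcov i hi a.val a.isLt b.val b.isLt
  rcases h with h | h
  · exfalso
    rcases h with h | h
    · have : Nat.blt a.val b.val = true := by simpa [Nat.blt_eq] using hab
      rw [h] at this
      exact absurd this (by simp)
    · rw [h1.1] at h
      exact absurd h (by simp)
  · have h := h c.val c.isLt
    rcases h with h | h
    · exfalso
      rcases h with (h | h) | h
      · have : Nat.blt b.val c.val = true := by simpa [Nat.blt_eq] using hbc
        rw [h] at this
        exact absurd this (by simp)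
      · rw [h2.1] at h
        exact absurd h (by simp)
      · rw [h3.1] at h
        exact absurd h (by simp)
    · obtain ⟨e, he, ⟨hea, heb⟩, hec⟩ := h
      obtain ⟨hj, hdy⟩ := hok i hi e he
      rw [hea, heb, hec] at hdy
      exact ⟨e.2.2.2.1, hj, okDY_iso _ _ (okG_get hi) (okG_get hj) a b c _ hdy⟩

theorem close_dY {i : ℕ} (hi : i < 78) (a b c : Fin (hl.getD i []).length)
    (h1 : (tg (hl.getD i [])).Adj a b)
    (h2 : (tg (hl.getD i [])).Adj b c) (h3 : (tg (hl.getD i [])).Adj a c) :
    ∃ j < 78, Nonempty (deltaY (tg (hl.getD i [])) a b c ≃g tg (hl.getD j [])) := by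
  have n1 : a.val ≠ b.val := fun h => h1.ne (Fin.ext h)
  have n2 : b.val ≠ c.val := fun h => h2.ne (Fin.ext h)
  have n3 : a.val ≠ c.val := fun h => h3.ne (Fin.ext h)
  rcases Nat.lt_or_gt_of_ne n1 with l1 | l1 <;> rcases Nat.lt_or_gt_of_ne n2 with l2 | l2 <;>
    rcases Nat.lt_or_gt_of_ne n3 with l3 | l3
  · exact close_dY_sorted hi a b c l1 l2 h1 h2 h3
  · omega
  · -- a < c < b
    rw [deltaY_swap, deltaY_rot]
    exact close_dY_sorted hi a c b l3 l2 h3 h2.symm h1
  · -- c < a < b
    rw [deltaY_rot, deltaY_rot]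
    exact close_dY_sorted hi c a b l3 l1 h3.symm h1 h2.symm
  · -- b < a, b < c, a < c
    rw [deltaY_swap]
    exact close_dY_sorted hi b a c l1 l3 h1.symm h3 h2
  · -- b < c < a
    rw [deltaY_rot]
    exact close_dY_sorted hi b c a l2 l3 h2 h3.symm h1.symm
  · omega
  · -- c < b < a
    rw [deltaY_rot, deltaY_swap]
    exact close_dY_sorted hi c b a l2 l1 h2.symm h1.symm h3.symm

theorem ncard_tg (g : List ℕ) (hg : okG g = true) (v : Fin g.length) :
    ((tg g).neighborSet v).ncard = degM g v.val := by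
  have h1 : (tg g).neighborSet v = {y : Fin g.length | adjM g v.val y.val = true} := by
    ext y
    rw [SimpleGraph.mem_neighborSet, tg_adj g hg]
    rfl
  rw [h1, Set.ncard_eq_toFinset_card', degM, List.countP_eq_length_filter,
    ← List.toFinset_card_of_nodup (List.nodup_range.filter _)]
  refine Finset.card_bij (fun y _ => y.val) ?_ ?_ ?_
  · intro y hy
    simpa using hy
  · intro y _ z _ h
    exact Fin.ext h
  · intro y hy
    simp only [List.mem_toFinset, List.mem_filter, List.mem_range] at hy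
    exact ⟨⟨y, hy.1⟩, by simpa using hy.2, rfl⟩

theorem close_yD {i : ℕ} (hi : i < 78) (v : Fin (hl.getD i []).length)
    (h : ((tg (hl.getD i [])).neighborSet v).ncard = 3) :
    ∃ j < 78, Nonempty (yDelta (tg (hl.getD i [])) v ≃g tg (hl.getD j [])) := by
  rw [ncard_tg _ (okG_get hi)] at h
  have hcov := covYD_all
  have hok := okYD_all
  simp only [List.all_eq_true, List.mem_range, Bool.or_eq_true, Bool.not_eq_true',
    List.any_eq_true, Bool.and_eq_true, beq_iff_eq, Nat.blt_eq] at hcov hok
  rcases hcov i hi v.val v.isLt with h' | ⟨e, he, hev⟩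
  · rw [h] at h'
    exact absurd h' (by simp)
  · obtain ⟨hj, hyd⟩ := hok i hi e he
    rw [hev] at hyd
    exact ⟨e.2.1, hj, okYD_iso _ _ (okG_get hi) (okG_get hj) v _ hyd⟩

theorem ncard_neighbor_iso {V W : Type} {G : SimpleGraph V} {H : SimpleGraph W} (e : G ≃g H)
    (v : V) : (G.neighborSet v).ncard = (H.neighborSet (e v)).ncard := by
  rw [← Set.ncard_image_of_injective (G.neighborSet v) e.injective]
  congr 1
  ext y
  simp only [Set.mem_image, SimpleGraph.mem_neighborSet]
  constructor
  · rintro ⟨x, hx, rfl⟩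
    exact e.map_rel_iff.2 hx
  · intro hy
    refine ⟨e.symm y, ?_, e.apply_symm_apply y⟩
    apply e.map_rel_iff.1
    rw [e.apply_symm_apply]
    exact hy

theorem tg0_iso : Nonempty ((⊤ : SimpleGraph (Fin 7)) ≃g tg (hl.getD 0 [])) := by
  refine iso_of_map _ _ (fun x : Fin 7 => (⟨x.val, by
    have : (hl.getD 0 []).length = 7 := by decide +kernel
    rw [this]; exact x.isLt⟩ : Fin (hl.getD 0 []).length)) ?_ ?_ ?_
  · intro x y h
    exact Fin.ext (congrArg Fin.val h)
  · decide +kernel
  · intro x y
    rw [tg_adj _ (okG_get (by norm_num)), SimpleGraph.top_adj]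
    revert x y
    decide +kernel

theorem tg1_iso : Nonempty (K3311 ≃g tg (hl.getD 1 [])) := by
  refine iso_of_map _ _ (fun x : Fin 8 => (⟨x.val, by
    have : (hl.getD 1 []).length = 8 := by decide +kernel
    rw [this]; exact x.isLt⟩ : Fin (hl.getD 1 []).length)) ?_ ?_ ?_
  · intro x y h
    exact Fin.ext (congrArg Fin.val h)
  · decide +kernel
  · intro x y
    rw [tg_adj _ (okG_get (by norm_num))]
    change (![0, 0, 0, 1, 1, 1, 2, 3] : Fin 8 → ℕ) x ≠ (![0, 0, 0, 1, 1, 1, 2, 3] : Fin 8 → ℕ) y ↔ _
    revert x y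
    decide +kernel

/-- Every member of the Heawood family is in the table. -/
theorem heawood_table {n : ℕ} {G : SimpleGraph (Fin n)} (h : Heawood n G) :
    ∃ j < 78, Nonempty (G ≃g tg (hl.getD j [])) := by
  induction h with
  | k7 => exact ⟨0, by norm_num, tg0_iso⟩
  | k3311 => exact ⟨1, by norm_num, tg1_iso⟩
  | dY a b c _ hab hbc hac hiso ih =>
    obtain ⟨i, hi, ⟨e⟩⟩ := ih
    obtain ⟨e1⟩ := hiso
    obtain ⟨e2⟩ := deltaY_iso e a b c
    obtain ⟨j, hj, ⟨e3⟩⟩ := close_dY hi (e a) (e b) (e c) (e.map_rel_iff.2 hab)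
      (e.map_rel_iff.2 hbc) (e.map_rel_iff.2 hac)
    exact ⟨j, hj, ⟨(e1.trans e2).trans e3⟩⟩
  | yD v _ hdeg hiso ih =>
    obtain ⟨i, hi, ⟨e⟩⟩ := ih
    obtain ⟨e1⟩ := hiso
    obtain ⟨e2⟩ := yDelta_iso e v
    rw [ncard_neighbor_iso e v] at hdeg
    obtain ⟨j, hj, ⟨e3⟩⟩ := close_yD hi (e v) hdeg
    exact ⟨j, hj, ⟨(e1.trans e2).trans e3⟩⟩

theorem sum_range_map (n : ℕ) (f : ℕ → ℕ) :
    ((List.range n).map f).sum = ∑ v : Fin n, f v.val := by
  rw [← List.sum_toFinset f List.nodup_range, List.toFinset_range, Finset.sum_range]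

/-- No member of the Heawood family is a minor of `C₁₁(1,3)`. -/
theorem heawood_not_minor {n : ℕ} {G : SimpleGraph (Fin n)} (h : Heawood n G) :
    ¬ IsMinor G C11 := by
  intro hm
  obtain ⟨j, hj, ⟨e⟩⟩ := heawood_table h
  have hm' : IsMinor (tg (hl.getD j [])) C11 := hm.of_iso e
  obtain ⟨m1, m2, m3, m4⟩ := minor_C11 _ hm'
  have hfacts := (List.all_eq_true.1 facts_all) _ (getD_mem hj)
  have hdeg : ∀ v, ((tg (hl.getD j [])).neighborSet v).ncard = degM (hl.getD j []) v.val :=
    ncard_tg _ (okG_get hj)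
  have hok := okG_get hj
  generalize hl.getD j [] = g at *
  simp only [hdeg] at m2 m4
  rw [← sum_range_map] at m2 m4
  simp only [Bool.and_eq_true, Bool.or_eq_true, Bool.not_eq_true', beq_eq_false_iff_ne, ne_eq,
    List.any_eq_true, List.mem_range, Nat.ble_eq, Nat.blt_eq, beq_iff_eq] at hfacts
  obtain ⟨⟨f1, f2⟩, f3⟩ := hfacts
  have hlen : g.length = 10 ∨ g.length = 11 := by omega
  rcases hlen with hlen | hlen
  · rcases f3 with f3 | f3 | ⟨v, hv, hodd⟩
    · exact f3 hlen
    · omega
    · have h42 : ((List.range g.length).map (degM g)).sum = 42 := by omega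
      have hev := m4 hlen h42 ⟨v, hv⟩
      rw [Nat.even_iff] at hev
      simp only at hev
      omega
  · rcases f2 with f2 | ⟨a, ha, b, hb, c, hc, ⟨hab, hbc⟩, hac⟩
    · exact f2 hlen
    · exact m3 hlen ⟨a, ha⟩ ⟨b, hb⟩ ⟨c, hc⟩ ((tg_adj g hok _ _).2 hab) ((tg_adj g hok _ _).2 hbc)
        ((tg_adj g hok _ _).2 hac)

end FF4
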