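import Pool.Agent.Lib.FF4.Sub1

/-!
# FF4.Sub2: Stokes modulo 2 for a subdivided cell, supports

PROOF. `stokes_cell`: by `stokes_tri` the sum is `∑_{j < m} [Sg z l_j + Sg l_j l_{j+1} + Sg z l_{j+1}]`, `m = l.length`,
`Sg a b = ∑_{t ∈ segs n} h (tverts a b t)`, `z = Sum.inr i`. The spokes cancel: `∑_j Sg z l_j = ∑_j Sg z l_{(j+1) % m}`
(cyclic shift, e.g. `Finset.sum_bij` or `Finset.sum_range_succ'` with `j+1 = m` separately). `Sg l_j l_{j+1} =
Sg (u e_j) (v e_j)` by `he` and `seg_swap`; `∑_{j<m} F (el[j]) = ∑_{e ∈ el.toFinset} F e` (`List.sum_toFinset`,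
`List.sum_ofFn`/`Finset.sum_range`). The others: unfold.
-/

set_option autoImplicit false

namespace FF4

variable {V : Type} [Fintype V] [DecidableEq V] {k : ℕ}

/-- the sum of `h` over the small segments of an edge -/
def SgSub2 {W : Type} [Fintype W] [DecidableEq W] (n : ℕ) (h : Finset (W → ℕ) → ZMod 2) (a b : W) : ZMod 2 :=
  ∑ t ∈ segs n, h (tverts a b t)

theorem sub2_shift_ne {m j : ℕ} (hm : 3 ≤ m) (hj : j < m) : j ≠ (j + 1) % m := by
  rcases Nat.lt_or_ge (j + 1) m with h | h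
  · rw [Nat.mod_eq_of_lt h]; omega
  · have : j + 1 = m := by omega
    rw [this, Nat.mod_self]; omega

theorem sub2_getElem_ne {l : List V} (hn : l.Nodup) {a b : ℕ} (ha : a < l.length) (hb : b < l.length)
    (hab : a ≠ b) : l[a] ≠ l[b] := by
  intro h
  exact hab ((List.Nodup.getElem_inj_iff hn).1 h)

theorem sub2_cyc_sum (m : ℕ) (hm : 0 < m) (F : ℕ → ZMod 2) :
    ∑ j ∈ Finset.range m, F ((j + 1) % m) = ∑ j ∈ Finset.range m, F j := by
  obtain ⟨p, rfl⟩ : ∃ p, m = p + 1 := ⟨m - 1, by omega⟩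
  rw [Finset.sum_range_succ, Finset.sum_range_succ' F p, Nat.mod_self]
  congr 1
  apply Finset.sum_congr rfl
  intro j hj
  rw [Finset.mem_range] at hj
  rw [Nat.mod_eq_of_lt (by omega)]

theorem sub2_sum_el {E : Type} [DecidableEq E] (el : List E) (hel : el.Nodup) (F : E → ZMod 2) :
    ∑ j : Fin el.length, F (el[j.1]) = ∑ e ∈ el.toFinset, F e := by
  rw [List.sum_toFinset F hel, ← List.sum_ofFn]
  congr 1
  apply List.ext_getElem
  · simp
  · intro a h1 h2
    simp

/-- Stokes for a cell. -/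
theorem stokes_cell {E : Type} [DecidableEq E] (n : ℕ) (i : Fin k) (l : List V) (hl : 3 ≤ l.length)
    (hn : l.Nodup) (u v : E → V) (el : List E) (hel : el.Nodup) (hlen : el.length = l.length)
    (he : ∀ (j : ℕ) (hj : j < l.length),
      (u (el[j]'(by omega)) = l[j] ∧
        v (el[j]'(by omega)) = l[(j + 1) % l.length]'(Nat.mod_lt _ (by omega))) ∨
      (v (el[j]'(by omega)) = l[j] ∧
        u (el[j]'(by omega)) = l[(j + 1) % l.length]'(Nat.mod_lt _ (by omega))))
    (h : Finset (V ⊕ Fin k → ℕ) → ZMod 2) :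
    ∑ s ∈ ctri n l, ∑ x ∈ cverts i l s, h ((cverts i l s).erase x) =
      ∑ e ∈ el.toFinset, ∑ t ∈ segs n,
        h (tverts (Sum.inl (u e)) (Sum.inl (v e)) t) := by
  have hm0 : 0 < l.length := by omega
  -- one triangle of the cone
  have htri : ∀ j : Fin l.length, ∑ s ∈ smalls n, ∑ x ∈ cverts i l (j.1, s),
      h ((cverts i l (j.1, s)).erase x) =
      SgSub2 n h (Sum.inr i) (Sum.inl (l[j.1]'j.2)) +
      SgSub2 n h (Sum.inl (l[j.1]'j.2)) (Sum.inl (l[(j.1 + 1) % l.length]'(Nat.mod_lt _ hm0))) +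
      SgSub2 n h (Sum.inr i) (Sum.inl (l[(j.1 + 1) % l.length]'(Nat.mod_lt _ hm0))) := by
    intro j
    have hne : l[j.1]'j.2 ≠ l[(j.1 + 1) % l.length]'(Nat.mod_lt _ hm0) :=
      sub2_getElem_ne hn _ _ (sub2_shift_ne hl j.2)
    have hc : ∀ s, cverts i l (j.1, s) = sverts (Sum.inr i) (Sum.inl (l[j.1]'j.2))
        (Sum.inl (l[(j.1 + 1) % l.length]'(Nat.mod_lt _ hm0))) s := by
      intro s
      unfold cverts
      rw [dif_pos j.2]
    have := stokes_tri n (Sum.inr i : V ⊕ Fin k) (Sum.inl (l[j.1]'j.2))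
      (Sum.inl (l[(j.1 + 1) % l.length]'(Nat.mod_lt _ hm0))) (by simp) (by simpa using hne) (by simp) h
    refine Eq.trans (Finset.sum_congr rfl fun s _ => ?_) this
    rw [hc s]
  have hedge : ∀ j : Fin l.length, SgSub2 n h (Sum.inl (l[j.1]'j.2))
      (Sum.inl (l[(j.1 + 1) % l.length]'(Nat.mod_lt _ hm0))) =
      SgSub2 n h (Sum.inl (u (el[j.1]'(by omega)))) (Sum.inl (v (el[j.1]'(by omega)))) := by
    intro j
    rcases he j.1 j.2 with ⟨h1, h2⟩ | ⟨h1, h2⟩
    · rw [h1, h2]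
    · rw [h1, h2]
      exact seg_swap n _ _ h
  have hspoke : ∑ j : Fin l.length, SgSub2 n h (Sum.inr i) (Sum.inl (l[j.1]'j.2)) =
      ∑ j : Fin l.length, SgSub2 n h (Sum.inr i) (Sum.inl (l[(j.1 + 1) % l.length]'(Nat.mod_lt _ hm0))) := by
    let F : ℕ → ZMod 2 := fun j => if hj : j < l.length then SgSub2 n h (Sum.inr i) (Sum.inl (l[j]'hj)) else 0
    have e1 : ∑ j : Fin l.length, SgSub2 n h (Sum.inr i) (Sum.inl (l[j.1]'j.2)) =
        ∑ j ∈ Finset.range l.length, F j := by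
      rw [Finset.sum_range]
      apply Finset.sum_congr rfl
      intro j _
      simp only [F]
      rw [dif_pos j.2]
    have e2 : ∑ j : Fin l.length, SgSub2 n h (Sum.inr i)
        (Sum.inl (l[(j.1 + 1) % l.length]'(Nat.mod_lt _ hm0))) =
        ∑ j ∈ Finset.range l.length, F ((j + 1) % l.length) := by
      rw [Finset.sum_range (fun j => F ((j + 1) % l.length))]
      apply Finset.sum_congr rfl
      intro j _
      simp only [F]
      rw [dif_pos (Nat.mod_lt _ hm0)]
    rw [e1, e2, sub2_cyc_sum l.length hm0 F]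
  have hz : ∀ a : ZMod 2, a + a = 0 := by decide
  unfold ctri
  rw [Finset.sum_product, Finset.sum_range, Finset.sum_congr rfl fun j _ => htri j,
    Finset.sum_add_distrib, Finset.sum_add_distrib, ← hspoke]
  have : ∀ a b : ZMod 2, a + b + a = b := by decide
  rw [this, Finset.sum_congr rfl fun j _ => hedge j]
  have hfin : ∑ j : Fin l.length, SgSub2 n h (Sum.inl (u (el[j.1]'(by omega))))
      (Sum.inl (v (el[j.1]'(by omega)))) =
      ∑ j : Fin el.length, (fun e => SgSub2 n h (Sum.inl (u e)) (Sum.inl (v e))) (el[j.1]) := by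
    exact Fintype.sum_equiv (finCongr hlen.symm) _ _ (fun j => rfl)
  rw [hfin, sub2_sum_el el hel (fun e => SgSub2 n h (Sum.inl (u e)) (Sum.inl (v e)))]
  rfl

theorem card_cverts (n : ℕ) (i : Fin k) (l : List V) (hl : 3 ≤ l.length) (hn : l.Nodup)
    (s : ℕ × ((ℕ × ℕ × ℕ) ⊕ (ℕ × ℕ × ℕ))) (hs : s ∈ ctri n l) : (cverts i l s).card = 3 := by
  have hj : s.1 < l.length := by
    unfold ctri at hs
    exact Finset.mem_range.1 (Finset.mem_product.1 hs).1
  unfold cverts
  rw [dif_pos hj]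
  have hne : l[s.1]'hj ≠ l[(s.1 + 1) % l.length]'(Nat.mod_lt _ (by omega)) :=
    sub2_getElem_ne hn _ _ (sub2_shift_ne hl hj)
  exact card_sverts _ _ _ (by simp) (by simpa using hne) (by simp) _

/-- support and coordinates of a lattice point of a triangle -/
theorem sub2_lat_props {W : Type} [Fintype W] [DecidableEq W] (n : ℕ) (a b c : W) (p q r : ℕ)
    (hs : p + q + r = n + 2) : (∀ w, lat a b c p q r w ≤ n + 2) ∧ (∃ w, lat a b c p q r w ≠ 0) ∧
      (∀ w, lat a b c p q r w ≠ 0 → w = a ∨ w = b ∨ w = c) := by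
  refine ⟨?_, ?_, ?_⟩
  · intro w
    simp only [lat, Pi.add_apply, Pi.single_apply]
    split_ifs <;> omega
  · have h0 : p ≠ 0 ∨ q ≠ 0 ∨ r ≠ 0 := by omega
    rcases h0 with h0 | h0 | h0
    · refine ⟨a, ?_⟩
      simp only [lat, Pi.add_apply, Pi.single_eq_same]
      omega
    · refine ⟨b, ?_⟩
      simp only [lat, Pi.add_apply, Pi.single_eq_same]
      omega
    · refine ⟨c, ?_⟩
      simp only [lat, Pi.add_apply, Pi.single_eq_same]
      omega
  · intro w hw
    by_contra hcon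
    push Not at hcon
    apply hw
    simp only [lat, Pi.add_apply, Pi.single_apply]
    rw [if_neg hcon.1, if_neg hcon.2.1, if_neg hcon.2.2]
    rfl

/-- support and coordinates of the lattice points of a cell -/
theorem mem_cverts (n : ℕ) (i : Fin k) (l : List V) (hl : 3 ≤ l.length)
    (s : ℕ × ((ℕ × ℕ × ℕ) ⊕ (ℕ × ℕ × ℕ))) (hs : s ∈ ctri n l) (x : V ⊕ Fin k → ℕ)
    (hx : x ∈ cverts i l s) :
    (∀ w, x w ≤ n + 2) ∧ (∃ w, x w ≠ 0) ∧ (∀ w, x w ≠ 0 → w = Sum.inr i ∨ ∃ a ∈ l, w = Sum.inl a) := by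
  unfold ctri at hs
  have hj : s.1 < l.length := Finset.mem_range.1 (Finset.mem_product.1 hs).1
  have hs2 := (Finset.mem_product.1 hs).2
  unfold cverts at hx
  rw [dif_pos hj] at hx
  set b := l[s.1]'hj with hb
  set c := l[(s.1 + 1) % l.length]'(Nat.mod_lt _ (by omega)) with hc
  have hbl : b ∈ l := List.getElem_mem _
  have hcl : c ∈ l := List.getElem_mem _
  have key : ∃ p q r, p + q + r = n + 2 ∧ x = lat (Sum.inr i) (Sum.inl b) (Sum.inl c) p q r := by
    rcases hh : s.2 with t | t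
    · rw [hh] at hx hs2
      simp only [smalls, Finset.inl_mem_disjSum, trip, Finset.mem_filter] at hs2
      simp only [sverts, Finset.mem_insert, Finset.mem_singleton] at hx
      rcases hx with hx | hx | hx
      · exact ⟨_, _, _, by omega, hx⟩
      · exact ⟨_, _, _, by omega, hx⟩
      · exact ⟨_, _, _, by omega, hx⟩
    · rw [hh] at hx hs2
      simp only [smalls, Finset.inr_mem_disjSum, trip, Finset.mem_filter] at hs2
      simp only [sverts, Finset.mem_insert, Finset.mem_singleton] at hx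
      rcases hx with hx | hx | hx
      · exact ⟨_, _, _, by omega, hx⟩
      · exact ⟨_, _, _, by omega, hx⟩
      · exact ⟨_, _, _, by omega, hx⟩
  obtain ⟨p, q, r, hpqr, rfl⟩ := key
  obtain ⟨h1, h2, h3⟩ := sub2_lat_props n (Sum.inr i : V ⊕ Fin k) (Sum.inl b) (Sum.inl c) p q r hpqr
  refine ⟨h1, h2, ?_⟩
  intro w hw
  rcases h3 w hw with h | h | h
  · exact Or.inl h
  · exact Or.inr ⟨b, hbl, h⟩
  · exact Or.inr ⟨c, hcl, h⟩

/-- support and coordinates of the lattice points of an edge -/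
theorem mem_tverts (n : ℕ) (a b : V) (t : ℕ × ℕ) (ht : t ∈ segs n)
    (x : V ⊕ Fin k → ℕ) (hx : x ∈ tverts (Sum.inl a) (Sum.inl b) t) :
    (∀ w, x w ≤ n + 2) ∧ (∃ w, x w ≠ 0) ∧ (∀ w, x w ≠ 0 → w = Sum.inl a ∨ w = Sum.inl b) := by
  unfold segs at ht
  rw [Finset.HasAntidiagonal.mem_antidiagonal] at ht
  have key : ∃ p q, p + q = n + 2 ∧ x = Pi.single (Sum.inl a) p + Pi.single (Sum.inl b) q := by
    simp only [tverts, Finset.mem_insert, Finset.mem_singleton] at hx
    rcases hx with hx | hx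
    · exact ⟨_, _, by omega, hx⟩
    · exact ⟨_, _, by omega, hx⟩
  obtain ⟨p, q, hpq, rfl⟩ := key
  refine ⟨?_, ?_, ?_⟩
  · intro w
    simp only [Pi.add_apply, Pi.single_apply]
    split_ifs <;> omega
  · have h0 : p ≠ 0 ∨ q ≠ 0 := by omega
    rcases h0 with h0 | h0
    · refine ⟨Sum.inl a, ?_⟩
      simp only [Pi.add_apply, Pi.single_eq_same]
      omega
    · refine ⟨Sum.inl b, ?_⟩
      simp only [Pi.add_apply, Pi.single_eq_same]
      omega
  · intro w hw
    by_contra hcon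
    push Not at hcon
    apply hw
    simp only [Pi.add_apply, Pi.single_apply]
    rw [if_neg hcon.1, if_neg hcon.2]
    rfl

end FF4
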