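import Pool.Agent.Lib.FF4.Top1
import Pool.Agent.Lib.FF4.Geo4

/-!
# FF4.Top2: a simplicial general position approximation with four far points

PROOF. Take `ε, n` from `top1`. Let `C ≥ 1` bound `|∑ i, f (rp n x) i| + 4 ε + 4 ` for all `x ∈ ordp`; far points: `g0 (farp i) =
C • e_i` (`EuclideanSpace.single i C`), `g0 x = f (rp n x)` else; `φ y = C - ∑ i, y i`. The far points are affinely
independent (linearly independent since `C ≠ 0`), `φ = 0` on them. `exists_gp` with `ε / 2` gives `g`;
`|∑ i, (g x i - f (rp n x) i)| ≤ 4 * dist` so `φ (g x) > 0` on `ordp`. For `p ∈ S`, `s`, `t`: the points `g x`,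
`x ∈ cverts p.1 _ s` (they are in `ordp`, so not far), lie in the ball of radius `2 ε` around `y`, which is convex; the
other ones in the ball around `z`; a common point would give `dist y z ≤ 4 ε < 8 ε`.
-/

set_option autoImplicit false

namespace FF4

variable {V : Type} [Fintype V] [DecidableEq V] {k : ℕ}

/-- ordinary lattice points: all coordinates at most `n + 2` -/
def ordp (V : Type) [Fintype V] [DecidableEq V] (k n : ℕ) : Finset (V ⊕ Fin k → ℕ) :=
  Fintype.piFinset fun _ => Finset.range (n + 3)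

/-- the four far points -/
def farp (V : Type) (k n i : ℕ) : V ⊕ Fin k → ℕ := fun _ => n + 3 + i

/-- the set of the four far points -/
def farR (V : Type) [Fintype V] [DecidableEq V] (k n : ℕ) : Finset (V ⊕ Fin k → ℕ) :=
  {farp V k n 0, farp V k n 1, farp V k n 2, farp V k n 3}

private theorem farp_inj [Nonempty V] (n i j : ℕ) (h : farp V k n i = farp V k n j) : i = j := by
  have h1 := congrFun h (Sum.inl (Classical.arbitrary V))
  simp only [farp] at h1
  omega

theorem farp_nodup [Nonempty V] (n : ℕ) :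
    [farp V k n 0, farp V k n 1, farp V k n 2, farp V k n 3].Nodup := by
  have h : ∀ i j : ℕ, i ≠ j → farp V k n i ≠ farp V k n j := fun i j hij he =>
    hij (farp_inj n i j he)
  simp only [List.nodup_cons, List.mem_cons, List.not_mem_nil, or_false, not_or, not_false_eq_true,
    List.nodup_nil, and_true]
  exact ⟨⟨h 0 1 (by norm_num), h 0 2 (by norm_num), h 0 3 (by norm_num)⟩,
    ⟨h 1 2 (by norm_num), h 1 3 (by norm_num)⟩, h 2 3 (by norm_num)⟩

theorem farR_card [Nonempty V] (n : ℕ) : (farR V k n).card = 4 := by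
  have h : farR V k n = [farp V k n 0, farp V k n 1, farp V k n 2, farp V k n 3].toFinset := by
    simp [farR]
  rw [h, List.toFinset_card_of_nodup (farp_nodup n)]
  rfl

private theorem mem_farR (n : ℕ) (x : V ⊕ Fin k → ℕ) :
    x ∈ farR V k n ↔ ∃ i : Fin 4, x = farp V k n i := by
  simp only [farR, Finset.mem_insert, Finset.mem_singleton]
  constructor
  · rintro (h | h | h | h)
    · exact ⟨0, h⟩
    · exact ⟨1, h⟩
    · exact ⟨2, h⟩
    · exact ⟨3, h⟩
  · rintro ⟨i, h⟩
    fin_cases i
    · exact Or.inl h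
    · exact Or.inr (Or.inl h)
    · exact Or.inr (Or.inr (Or.inl h))
    · exact Or.inr (Or.inr (Or.inr h))

theorem ordp_farR [Nonempty V] (n : ℕ) : Disjoint (ordp V k n) (farR V k n) := by
  rw [Finset.disjoint_left]
  intro x hx hx'
  rw [mem_farR] at hx'
  obtain ⟨i, rfl⟩ := hx'
  have h1 := Fintype.mem_piFinset.mp hx (Sum.inl (Classical.arbitrary V))
  rw [Finset.mem_range] at h1
  simp only [farp] at h1
  omega

private theorem lat_le {W : Type} [DecidableEq W] (a b c : W) (i j l : ℕ) (w : W) :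
    lat a b c i j l w ≤ i + j + l := by
  have h : ∀ (a : W) (i : ℕ), (Pi.single a i : W → ℕ) w ≤ i := by
    intro a i
    by_cases hw : w = a
    · subst hw
      simp
    · rw [Pi.single_eq_of_ne hw]
      exact Nat.zero_le _
  have h1 := h a i
  have h2 := h b j
  have h3 := h c l
  simp only [lat, Pi.add_apply]
  omega

private theorem cverts_ordp (n : ℕ) (i : Fin k) (l : List V)
    (s : ℕ × ((ℕ × ℕ × ℕ) ⊕ (ℕ × ℕ × ℕ))) (hs : s ∈ ctri n l) (x : V ⊕ Fin k → ℕ)
    (hx : x ∈ cverts i l s) : x ∈ ordp V k n := by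
  rw [ordp, Fintype.mem_piFinset]
  intro w
  rw [Finset.mem_range]
  simp only [ctri, Finset.mem_product, Finset.mem_range] at hs
  obtain ⟨hs1, hs2⟩ := hs
  rw [cverts, dif_pos hs1] at hx
  rcases hs' : s.2 with p | p
  · rw [hs'] at hx hs2
    simp only [smalls, Finset.inl_mem_disjSum, trip, Finset.mem_filter] at hs2
    have hsum := hs2.2
    simp only [sverts, Finset.mem_insert, Finset.mem_singleton] at hx
    rcases hx with rfl | rfl | rfl
    · refine lt_of_le_of_lt (lat_le _ _ _ _ _ _ w) ?_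
      omega
    · refine lt_of_le_of_lt (lat_le _ _ _ _ _ _ w) ?_
      omega
    · refine lt_of_le_of_lt (lat_le _ _ _ _ _ _ w) ?_
      omega
  · rw [hs'] at hx hs2
    simp only [smalls, Finset.inr_mem_disjSum, trip, Finset.mem_filter] at hs2
    have hsum := hs2.2
    simp only [sverts, Finset.mem_insert, Finset.mem_singleton] at hx
    rcases hx with rfl | rfl | rfl
    · refine lt_of_le_of_lt (lat_le _ _ _ _ _ _ w) ?_
      omega
    · refine lt_of_le_of_lt (lat_le _ _ _ _ _ _ w) ?_
      omega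
    · refine lt_of_le_of_lt (lat_le _ _ _ _ _ _ w) ?_
      omega

/-- the affine function `y ↦ C - ∑ i, y i` -/
private noncomputable def phiAux (C : ℝ) : E4 →ᵃ[ℝ] ℝ where
  toFun y := C - ∑ i, y i
  linear :=
    { toFun := fun y => - ∑ i, y i
      map_add' := by
        intro y z
        simp only [PiLp.add_apply, Finset.sum_add_distrib]
        ring
      map_smul' := by
        intro r y
        simp only [PiLp.smul_apply, smul_eq_mul, RingHom.id_apply, ← Finset.mul_sum]
        ring }
  map_vadd' := by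
    intro p v
    simp only [vadd_eq_add, PiLp.add_apply, Finset.sum_add_distrib, LinearMap.coe_mk,
      AddHom.coe_mk]
    ring

private theorem phiAux_apply (C : ℝ) (y : E4) : phiAux C y = C - ∑ i, y i := rfl

private theorem abs_sum_sub_le (y z : E4) : |∑ i, y i - ∑ i, z i| ≤ 4 * dist y z := by
  rw [← Finset.sum_sub_distrib]
  refine (Finset.abs_sum_le_sum_abs _ _).trans ?_
  have h : ∀ i ∈ (Finset.univ : Finset (Fin 4)), |y i - z i| ≤ dist y z := by
    intro i _
    have h1 := PiLp.norm_apply_le (y - z) i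
    rw [PiLp.sub_apply, Real.norm_eq_abs] at h1
    rw [dist_eq_norm]
    exact h1
  refine (Finset.sum_le_sum h).trans ?_
  simp

theorem top2 [Nonempty V] (G : SimpleGraph V) (c : Fin k → List V) (hc : ∀ i, IsCyc G (c i))
    (f : (V ⊕ Fin k → ℝ) → E4) (hf : ContinuousOn f (poly G c)) (hinj : Set.InjOn f (poly G c))
    (S : Finset (Fin k × Fin k)) (hS : ∀ p ∈ S, ∀ a ∈ c p.1, a ∉ c p.2) :
    ∃ (n : ℕ) (g : (V ⊕ Fin k → ℕ) → E4) (φ : E4 →ᵃ[ℝ] ℝ),
      GenPos g (ordp V k n ∪ farR V k n) ∧ (∀ x ∈ farR V k n, φ (g x) = 0) ∧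
      (∀ x ∈ ordp V k n, 0 < φ (g x)) ∧
      ∀ p ∈ S, ∀ s ∈ ctri n (c p.1), ∀ t ∈ ctri n (c p.2),
        ¬ Meet g (cverts p.1 (c p.1) s) (cverts p.2 (c p.2) t) := by
  classical
  obtain ⟨ε, n, hε, hS1⟩ := top1 G c hc f hf hinj S hS
  -- the bound
  set C : ℝ := 1 + 4 * ε + ∑ x ∈ ordp V k n, |∑ i, f (rp n x) i| with hCdef
  have hsumnn : 0 ≤ ∑ x ∈ ordp V k n, |∑ i, f (rp n x) i| :=
    Finset.sum_nonneg fun x _ => abs_nonneg _
  have hC1 : 1 ≤ C := by
    rw [hCdef]
    linarith
  have hCb : ∀ x ∈ ordp V k n, |∑ i, f (rp n x) i| + 4 * ε + 1 ≤ C := by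
    intro x hx
    have := Finset.single_le_sum (f := fun x => |∑ i, f (rp n x) i|)
      (fun y _ => abs_nonneg _) hx
    simp only at this
    rw [hCdef]
    linarith
  -- the first map
  set g0 : (V ⊕ Fin k → ℕ) → E4 := fun x =>
    if x ∈ farR V k n then
      ∑ i : Fin 4, (if x = farp V k n i then EuclideanSpace.single i C else 0)
    else f (rp n x) with hg0
  have hg0far : ∀ i : Fin 4, g0 (farp V k n i) = EuclideanSpace.single i C := by
    intro i
    rw [hg0]
    simp only
    rw [if_pos ((mem_farR n _).mpr ⟨i, rfl⟩)]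
    rw [Finset.sum_eq_single i]
    · rw [if_pos rfl]
    · intro j _ hji
      rw [if_neg]
      intro h
      exact hji (Fin.ext (farp_inj n _ _ h)).symm
    · intro h
      exact absurd (Finset.mem_univ _) h
  have hg0ord : ∀ x ∈ ordp V k n, g0 x = f (rp n x) := by
    intro x hx
    rw [hg0]
    simp only
    rw [if_neg (Finset.disjoint_left.mp (ordp_farR n) hx)]
  have hgj : ∀ x ∈ farR V k n, ∀ j : Fin 4, g0 x j = if x = farp V k n j then C else 0 := by
    intro x hx j
    obtain ⟨i, rfl⟩ := (mem_farR n x).mp hx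
    rw [hg0far i]
    by_cases hij : j = i
    · subst hij
      simp
    · rw [if_neg]
      · simp [hij]
      · intro h
        exact hij (Fin.ext (farp_inj n _ _ h)).symm
  have hR : AffineIndependent ℝ (fun x : farR V k n => g0 x) := by
    rw [affineIndependent_iff]
    intro s w hw1 hw2 x hx
    obtain ⟨j, hj⟩ := (mem_farR n x.1).mp x.2
    have h1 : (∑ y ∈ s, w y • g0 (y : V ⊕ Fin k → ℕ)) j = 0 := by
      rw [hw2]
      rfl
    have h2 : (∑ y ∈ s, w y • g0 (y : V ⊕ Fin k → ℕ)) j =
        ∑ y ∈ s, w y * (if (y : V ⊕ Fin k → ℕ) = farp V k n j then C else 0) := by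
      have h3 : (∑ y ∈ s, w y • g0 (y : V ⊕ Fin k → ℕ)) j =
          ∑ y ∈ s, (w y • g0 (y : V ⊕ Fin k → ℕ)) j := by
        simp
      rw [h3]
      refine Finset.sum_congr rfl fun y _ => ?_
      rw [PiLp.smul_apply, smul_eq_mul, hgj y.1 y.2 j]
    rw [h2, Finset.sum_eq_single x] at h1
    · rw [if_pos hj] at h1
      rcases mul_eq_zero.mp h1 with h | h
      · exact h
      · linarith
    · intro y _ hyx
      rw [if_neg, mul_zero]
      intro h
      exact hyx (Subtype.ext (h.trans hj.symm))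
    · intro h
      exact absurd hx h
  obtain ⟨g, hg1, hg2, hg3⟩ := exists_gp (ordp V k n) (farR V k n) (ordp_farR n) g0 hR (ε / 2)
    (by linarith)
  refine ⟨n, g, phiAux C, hg3, ?_, ?_, ?_⟩
  · intro x hx
    rw [hg2 x hx]
    obtain ⟨i, rfl⟩ := (mem_farR n x).mp hx
    rw [hg0far i, phiAux_apply]
    simp
  · intro x hx
    rw [phiAux_apply]
    have h1 := abs_sum_sub_le (g x) (g0 x)
    have h2 := hg1 x
    have h3 := hCb x hx
    rw [hg0ord x hx] at h1 h2
    have h4 := (abs_le.mp h1).2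
    have h5 := le_abs_self (∑ i, f (rp n x) i)
    linarith
  · intro p hp s hs t ht hM
    obtain ⟨y, z, hyz, hy, hz⟩ := hS1 p hp s hs t ht
    obtain ⟨q, hq1, hq2⟩ := hM
    have key : ∀ (A : Finset (V ⊕ Fin k → ℕ)) (y : E4), (∀ x ∈ A, x ∈ ordp V k n) →
        (∀ x ∈ A, dist (f (rp n x)) y ≤ ε) →
        ∀ q ∈ convexHull ℝ (g '' (A : Set (V ⊕ Fin k → ℕ))), dist q y ≤ 2 * ε := by
      intro A y hA hAy q hq
      have hsub : g '' (A : Set (V ⊕ Fin k → ℕ)) ⊆ Metric.closedBall y (2 * ε) := by
        rintro _ ⟨x, hx, rfl⟩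
        rw [Metric.mem_closedBall]
        have h1 := hg1 x
        rw [hg0ord x (hA x hx)] at h1
        have h2 := dist_triangle (g x) (f (rp n x)) y
        have h3 := hAy x hx
        linarith
      have := convexHull_min hsub (convex_closedBall y (2 * ε)) hq
      exact Metric.mem_closedBall.mp this
    have h1 := key _ y (fun x hx => cverts_ordp n p.1 (c p.1) s hs x hx) hy q hq1
    have h2 := key _ z (fun x hx => cverts_ordp n p.2 (c p.2) t ht x hx) hz q hq2
    have h3 := dist_triangle y q z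
    rw [dist_comm y q] at h3
    linarith

end FF4
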