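import Pool.Agent.Lib.FF4.Cert
import Pool.Agent.Lib.FF4.Geo1
import Pool.Agent.Lib.FF4.Geo2
import Pool.Agent.Lib.FF4.Sub2
import Pool.Agent.Lib.FF4.Top2

/-!
# FF4.NotFlat: `C₁₁(1,3)` is not 4-flat
-/

set_option autoImplicit false

namespace FF4

theorem Meet.symm {X : Type} {g : X → E4} {A B : Finset X} (h : Meet g A B) : Meet g B A := by
  unfold Meet at h ⊢
  rwa [Set.inter_comm]

theorem inum_symm {X : Type} (g : X → E4) (A B : Finset X) : inum g A B = inum g B A := by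
  unfold inum
  congr 1
  exact propext ⟨Meet.symm, Meet.symm⟩

/-- the intersection numbers of level 4 -/
theorem lev4 {X : Type} [DecidableEq X] (g : X → E4) (O R : Finset X) (hdis : Disjoint O R)
    (hgp : GenPos g (O ∪ R)) (hR : R.card = 4) (φ : E4 →ᵃ[ℝ] ℝ) (h0 : ∀ x ∈ R, φ (g x) = 0)
    (hpos : ∀ x ∈ O, 0 < φ (g x)) : Lev 4 O R (inum g) where
  dis := hdis
  sym := inum_symm g
  bd A B hA hB hAB hc := parity g (O ∪ R) hgp A B hA hB hAB hc
  null A B hA hB hAB _ := by
    unfold inum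
    exact if_neg (null g O R hdis hgp hR φ h0 hpos A B hA hB hAB)
  norm w hw w' hw' hww := norm g O R hdis hgp hR φ h0 hpos w w' hw hw' hww

theorem inl_inj {a b : Fin 11} : (Sum.inl a : Fin 11 ⊕ Fin 55) = Sum.inl b ↔ a = b :=
  Sum.inl_injective.eq_iff

/-- There is no continuous embedding of the complex of the 55 cycles. -/
theorem C11_no_embedding (f : (Fin 11 ⊕ Fin 55 → ℝ) → E4) (hf : ContinuousOn f (poly C11 cyc)) :
    ¬ Set.InjOn f (poly C11 cyc) := by
  intro hinj
  have hS : ∀ p ∈ cS, ∀ a ∈ cyc p.1, a ∉ cyc p.2 := by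
    intro p hp
    exact cS_dis p (List.mem_toFinset.1 hp)
  obtain ⟨n, g, φ, hgp, h0, hpos, hmeet⟩ := top2 C11 cyc cyc_isCyc f hf hinj cS hS
  have hlev := lev4 g (ordp (Fin 11) 55 n) (farR (Fin 11) 55 n) (ordp_farR n) hgp (farR_card n) φ
    h0 hpos
  have hcells : ∀ D : Fin 55, ∀ s ∈ ctri n (cyc D), ∀ x ∈ cverts D (cyc D) s,
      (∀ w, x w ≤ n + 2) ∧ (∃ w, x w ≠ 0) ∧
        (∀ w, x w ≠ 0 → w = Sum.inr D ∨ ∃ a ∈ cyc D, w = Sum.inl a) :=
    fun D s hs x hx => mem_cverts n D (cyc D) (cyc_len D) s hs x hx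
  have hends : ∀ (D : Fin 55) (e : Fin 22), e ∈ cbd D → cu e ∈ cyc D ∧ cv e ∈ cyc D := by
    intro D e he
    rw [cbd, List.mem_toFinset, List.mem_iff_getElem] at he
    obtain ⟨j, hj, rfl⟩ := he
    have hj' : j < (cyc D).length := by rw [← cel_len]; exact hj
    rcases cel_ends D j hj' with ⟨h1, h2⟩ | ⟨h1, h2⟩
    · exact ⟨h1 ▸ List.getElem_mem _, h2 ▸ List.getElem_mem _⟩
    · exact ⟨h2 ▸ List.getElem_mem _, h1 ▸ List.getElem_mem _⟩
  have hO : ∀ x : Fin 11 ⊕ Fin 55 → ℕ, (∀ w, x w ≤ n + 2) → x ∈ ordp (Fin 11) 55 n := by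
    intro x hx
    rw [ordp, Fintype.mem_piFinset]
    intro w
    rw [Finset.mem_range]
    exact Nat.lt_succ_of_le (hx w)
  have key := sum_eq_one cu cv cbd cS cert (ordp (Fin 11) 55 n)
    (farp (Fin 11) 55 n 0) (farp (Fin 11) 55 n 1) (farp (Fin 11) 55 n 2) (farp (Fin 11) 55 n 3)
    (farp_nodup n) (inum g) hlev
    (fun D => ctri n (cyc D)) (fun D s => cverts D (cyc D) s) (segs n)
    (fun e t => tverts (Sum.inl (cu e)) (Sum.inl (cv e)) t) (fun w => Pi.single (Sum.inl w) (n + 2))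
    ?_ ?_ ?_ ?_ ?_ ?_ ?_ ?_ ?_ ?_ ?_ ?_
  · -- the sum is zero
    have hz : ∑ p ∈ cS, ∑ s ∈ ctri n (cyc p.1), ∑ t ∈ ctri n (cyc p.2),
        inum g (cverts p.1 (cyc p.1) s) (cverts p.2 (cyc p.2) t) = 0 := by
      apply Finset.sum_eq_zero
      intro p hp
      apply Finset.sum_eq_zero
      intro s hs
      apply Finset.sum_eq_zero
      intro t ht
      unfold inum
      exact if_neg (hmeet p hp s hs t ht)
    rw [hz] at key
    exact absurd key (by decide)
  · -- hptO
    intro w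
    apply hO
    intro w'
    by_cases h : w' = Sum.inl w
    · subst h; simp
    · simp [Pi.single_eq_of_ne h]
  · -- hpt
    intro a b hab
    have h := congrFun hab (Sum.inl a)
    by_contra hne
    have h1 : (Sum.inl a : Fin 11 ⊕ Fin 55) ≠ Sum.inl b := fun h => hne (inl_inj.1 h)
    simp only [Pi.single_eq_same, Pi.single_eq_of_ne h1] at h
    omega
  · -- hsvO
    intro D s hs x hx
    exact hO x (hcells D s hs x hx).1
  · -- hsvc
    intro D s hs
    exact card_cverts n D (cyc D) (cyc_len D) (cyc_nodup D) s hs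
  · -- htvO
    intro e t ht x hx
    exact hO x (mem_tverts n (cu e) (cv e) t ht x hx).1
  · -- htvc
    intro e t _
    apply card_tverts
    intro h
    exact edge_ne e (inl_inj.1 h)
  · -- stokes2
    intro D h
    exact stokes_cell n D (cyc D) (cyc_len D) (cyc_nodup D) cu cv (cel D) (cel_nodup D)
      (cel_len D) (fun j hj => cel_ends D j hj) h
  · -- stokes1
    intro e h
    exact stokes_seg n _ _ (fun h => edge_ne e (inl_inj.1 h)) h
  · -- dis22
    intro p hp s hs t ht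
    rw [Finset.disjoint_left]
    intro x hx hx'
    obtain ⟨_, ⟨w, hw⟩, h1⟩ := hcells p.1 s hs x hx
    obtain ⟨_, _, h2⟩ := hcells p.2 t ht x hx'
    have hp12 : p.1 ≠ p.2 := by
      intro heq
      have hl := cyc_len p.1
      have hm : (cyc p.1)[0]'(by omega) ∈ cyc p.1 := List.getElem_mem _
      exact hS p hp _ hm (heq ▸ hm)
    rcases h1 w hw with h | ⟨a, ha, h⟩
    · rcases h2 w hw with h' | ⟨a', _, h'⟩
      · rw [h] at h'
        exact hp12 (Sum.inr_injective h')
      · rw [h] at h'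
        exact absurd h' Sum.inr_ne_inl
    · rcases h2 w hw with h' | ⟨a', ha', h'⟩
      · rw [h] at h'
        exact absurd h' Sum.inl_ne_inr
      · rw [h] at h'
        have := inl_inj.1 h'
        subst this
        exact hS p hp a ha ha'
  · -- dis21
    intro p hp s hs e he t ht
    rw [Finset.disjoint_left]
    intro x hx hx'
    obtain ⟨_, ⟨w, hw⟩, h1⟩ := hcells p.1 s hs x hx
    obtain ⟨_, _, h2⟩ := mem_tverts n (cu e) (cv e) t ht x hx'
    obtain ⟨he1, he2⟩ := hends p.2 e he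
    rcases h2 w hw with h' | h'
    · rcases h1 w hw with h | ⟨a, ha, h⟩
      · rw [h] at h'
        exact absurd h' Sum.inr_ne_inl
      · rw [h] at h'
        have := inl_inj.1 h'
        subst this
        exact hS p hp _ ha he1
    · rcases h1 w hw with h | ⟨a, ha, h⟩
      · rw [h] at h'
        exact absurd h' Sum.inr_ne_inl
      · rw [h] at h'
        have := inl_inj.1 h'
        subst this
        exact hS p hp _ ha he2
  · -- dis11
    intro e e' hT t ht t' ht'
    obtain ⟨d1, d2, d3, d4⟩ := cert.cd e e' hT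
    rw [Finset.disjoint_left]
    intro x hx hx'
    obtain ⟨_, ⟨w, hw⟩, h1⟩ := mem_tverts n (cu e) (cv e) t ht x hx
    obtain ⟨_, _, h2⟩ := mem_tverts n (cu e') (cv e') t' ht' x hx'
    rcases h1 w hw with h | h <;> rcases h2 w hw with h' | h' <;> rw [h] at h'
    · exact d1 (inl_inj.1 h')
    · exact d2 (inl_inj.1 h')
    · exact d3 (inl_inj.1 h')
    · exact d4 (inl_inj.1 h')
  · -- dis10
    intro e e' hT t ht
    obtain ⟨d1, d2, d3, d4⟩ := cert.cd e e' hT
    have hx : ∀ b : Fin 11, b ≠ cu e → b ≠ cv e →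
        (Pi.single (Sum.inl b) (n + 2) : Fin 11 ⊕ Fin 55 → ℕ) ∉
          tverts (Sum.inl (cu e)) (Sum.inl (cv e)) t := by
      intro b hb1 hb2 hmem
      obtain ⟨_, _, h⟩ := mem_tverts n (cu e) (cv e) t ht _ hmem
      rcases h (Sum.inl b) (by simp) with h | h
      · exact hb1 (inl_inj.1 h)
      · exact hb2 (inl_inj.1 h)
    exact ⟨hx _ d1.symm d3.symm, hx _ d2.symm d4.symm⟩

/-- `C₁₁(1,3)` is not 4-flat. -/
theorem C11_not_flat : ¬ FourFlat C11 := by
  intro hflat
  obtain ⟨f, ⟨hf, _⟩, hinj⟩ := hflat 55 cyc cyc_isCyc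
  exact C11_no_embedding f hf hinj

end FF4
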