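import Pool.Agent.Lib.FF4.SubDefs

/-!
# FF4.Sub1: Stokes modulo 2 for a subdivided triangle
-/

set_option autoImplicit false
set_option linter.unusedSectionVars false

namespace FF4

variable {W : Type} [Fintype W] [DecidableEq W]

theorem lat_a (a b c : W) (hab : a ≠ b) (hac : a ≠ c) (i j l : ℕ) : lat a b c i j l a = i := by
  simp [lat, Pi.single_eq_of_ne hab, Pi.single_eq_of_ne hac]

theorem lat_b (a b c : W) (hab : a ≠ b) (hbc : b ≠ c) (i j l : ℕ) : lat a b c i j l b = j := by
  simp [lat, Pi.single_eq_of_ne hab.symm, Pi.single_eq_of_ne hbc]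

theorem lat_c (a b c : W) (hbc : b ≠ c) (hac : a ≠ c) (i j l : ℕ) : lat a b c i j l c = l := by
  simp [lat, Pi.single_eq_of_ne hac.symm, Pi.single_eq_of_ne hbc.symm]

theorem lat_inj (a b c : W) (hab : a ≠ b) (hbc : b ≠ c) (hac : a ≠ c) {i j l i' j' l' : ℕ}
    (h : lat a b c i j l = lat a b c i' j' l') : i = i' ∧ j = j' ∧ l = l' := by
  refine ⟨?_, ?_, ?_⟩
  · have := congrFun h a
    rwa [lat_a a b c hab hac, lat_a a b c hab hac] at this
  · have := congrFun h b
    rwa [lat_b a b c hab hbc, lat_b a b c hab hbc] at this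
  · have := congrFun h c
    rwa [lat_c a b c hbc hac, lat_c a b c hbc hac] at this

/-- three distinct elements: erasing -/
theorem sum_erase3 {X : Type} [DecidableEq X] (x y z : X) (hxy : x ≠ y) (hyz : y ≠ z)
    (hxz : x ≠ z) (h : Finset X → ZMod 2) :
    ∑ w ∈ ({x, y, z} : Finset X), h (({x, y, z} : Finset X).erase w) =
      h {y, z} + h {x, z} + h {x, y} := by
  have e1 : ({x, y, z} : Finset X).erase x = {y, z} := by
    rw [Finset.erase_insert]
    simp [hxy, hxz]
  have e2 : ({x, y, z} : Finset X).erase y = {x, z} := by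
    ext w
    simp only [Finset.mem_erase, Finset.mem_insert, Finset.mem_singleton]
    constructor
    · rintro ⟨h1, h2 | h2 | h2⟩
      · exact Or.inl h2
      · exact absurd h2 h1
      · exact Or.inr h2
    · rintro (h2 | h2)
      · subst h2; exact ⟨hxy, Or.inl rfl⟩
      · subst h2; exact ⟨hyz.symm, Or.inr (Or.inr rfl)⟩
  have e3 : ({x, y, z} : Finset X).erase z = {x, y} := by
    ext w
    simp only [Finset.mem_erase, Finset.mem_insert, Finset.mem_singleton]
    constructor
    · rintro ⟨h1, h2 | h2 | h2⟩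
      · exact Or.inl h2
      · exact Or.inr h2
      · exact absurd h2 h1
    · rintro (h2 | h2)
      · subst h2; exact ⟨hxz, Or.inl rfl⟩
      · subst h2; exact ⟨hyz, Or.inr (Or.inl rfl)⟩
  rw [Finset.sum_insert (by simp [hxy, hxz]), Finset.sum_insert (by simp [hyz]),
    Finset.sum_singleton, e1, e2, e3, add_assoc]

theorem sum_erase2 {X : Type} [DecidableEq X] (x y : X) (hxy : x ≠ y) (h : Finset X → ZMod 2) :
    ∑ w ∈ ({x, y} : Finset X), h (({x, y} : Finset X).erase w) = h {y} + h {x} := by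
  have e1 : ({x, y} : Finset X).erase x = {y} := by
    rw [Finset.erase_insert]
    simp [hxy]
  have e2 : ({x, y} : Finset X).erase y = {x} := by
    ext w
    simp only [Finset.mem_erase, Finset.mem_insert, Finset.mem_singleton]
    constructor
    · rintro ⟨h1, h2 | h2⟩
      · exact h2
      · exact absurd h2 h1
    · intro h2
      subst h2; exact ⟨hxy, Or.inl rfl⟩
  rw [Finset.sum_insert (by simp [hxy]), Finset.sum_singleton, e1, e2]

theorem card_sverts (a b c : W) (hab : a ≠ b) (hbc : b ≠ c) (hac : a ≠ c)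
    (s : (ℕ × ℕ × ℕ) ⊕ (ℕ × ℕ × ℕ)) : (sverts a b c s).card = 3 := by
  have hL := @lat_inj W _ _ a b c hab hbc hac
  rcases s with ⟨i, j, l⟩ | ⟨i, j, l⟩
  · rw [sverts, Finset.card_eq_three]
    refine ⟨_, _, _, ?_, ?_, ?_, rfl⟩ <;> intro h <;> have := hL h <;> omega
  · rw [sverts, Finset.card_eq_three]
    refine ⟨_, _, _, ?_, ?_, ?_, rfl⟩ <;> intro h <;> have := hL h <;> omega

theorem tv_ne (a b : W) (hab : a ≠ b) (i j i' j' : ℕ)
    (h : (Pi.single a i + Pi.single b j : W → ℕ) = Pi.single a i' + Pi.single b j') :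
    i = i' ∧ j = j' := by
  refine ⟨?_, ?_⟩
  · have := congrFun h a
    simpa [Pi.single_eq_of_ne hab] using this
  · have := congrFun h b
    simpa [Pi.single_eq_of_ne hab.symm] using this

theorem card_tverts (a b : W) (hab : a ≠ b) (p : ℕ × ℕ) : (tverts a b p).card = 2 := by
  rw [tverts, Finset.card_pair]
  intro h
  have := tv_ne a b hab _ _ _ _ h
  omega

theorem z2 (x : ZMod 2) : x + x = 0 := CharTwo.add_self_eq_zero x

/-- Stokes for a segment. -/
theorem stokes_seg (n : ℕ) (a b : W) (hab : a ≠ b) (h : Finset (W → ℕ) → ZMod 2) :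
    ∑ t ∈ segs n, ∑ x ∈ tverts a b t, h ((tverts a b t).erase x) =
      h {Pi.single a (n + 2)} + h {Pi.single b (n + 2)} := by
  have h1 : ∀ t ∈ segs n, ∑ x ∈ tverts a b t, h ((tverts a b t).erase x) =
      h {Pi.single a t.1 + Pi.single b (t.2 + 1)} + h {Pi.single a (t.1 + 1) + Pi.single b t.2} := by
    intro t _
    rw [tverts, sum_erase2]
    intro he
    have := tv_ne a b hab _ _ _ _ he
    omega
  rw [Finset.sum_congr rfl h1, Finset.sum_add_distrib]
  have e1 := Finset.Nat.sum_antidiagonal_succ (n := n + 1)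
    (f := fun p : ℕ × ℕ => h {Pi.single a p.1 + Pi.single b p.2})
  have e2 := Finset.Nat.sum_antidiagonal_succ' (n := n + 1)
    (f := fun p : ℕ × ℕ => h {Pi.single a p.1 + Pi.single b p.2})
  simp only at e1 e2
  have s1 : ∑ t ∈ segs n, h {Pi.single a t.1 + Pi.single b (t.2 + 1)} =
      ∑ p ∈ Finset.HasAntidiagonal.antidiagonal (n + 1 + 1),
        h {Pi.single a p.1 + Pi.single b p.2} + h {Pi.single a (n + 2) + Pi.single b 0} := by
    rw [e2, segs]
    rw [add_comm (h _), add_assoc, z2, add_zero]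
  have s2 : ∑ t ∈ segs n, h {Pi.single a (t.1 + 1) + Pi.single b t.2} =
      ∑ p ∈ Finset.HasAntidiagonal.antidiagonal (n + 1 + 1),
        h {Pi.single a p.1 + Pi.single b p.2} + h {Pi.single a 0 + Pi.single b (n + 2)} := by
    rw [e1, segs]
    rw [add_comm (h _), add_assoc, z2, add_zero]
  rw [s1, s2]
  have e3 : (Pi.single a (n + 2) + Pi.single b 0 : W → ℕ) = Pi.single a (n + 2) := by simp
  have e4 : (Pi.single a 0 + Pi.single b (n + 2) : W → ℕ) = Pi.single b (n + 2) := by simp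
  rw [e3, e4]
  generalize (∑ p ∈ Finset.HasAntidiagonal.antidiagonal (n + 1 + 1), _ : ZMod 2) = S
  calc S + h {Pi.single a (n + 2)} + (S + h {Pi.single b (n + 2)})
      = (S + S) + (h {Pi.single a (n + 2)} + h {Pi.single b (n + 2)}) := by ring
    _ = _ := by rw [z2, zero_add]

theorem seg_swap (n : ℕ) (a b : W) (h : Finset (W → ℕ) → ZMod 2) :
    ∑ t ∈ segs n, h (tverts a b t) =
      ∑ t ∈ segs n, h (tverts b a t) := by
  rw [segs, ← Finset.Nat.sum_antidiagonal_swap]
  apply Finset.sum_congr rfl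
  intro p _
  congr 1
  simp only [tverts, Prod.swap]
  rw [Finset.pair_comm]
  congr 1
  · exact add_comm _ _
  · congr 1
    exact add_comm _ _

/-- splitting by the first coordinate -/
theorem trip1 (n : ℕ) (F : ℕ × ℕ × ℕ → ZMod 2) :
    ∑ p ∈ trip (n + 1), F p = ∑ p ∈ trip n, F (p.1 + 1, p.2.1, p.2.2) +
      ∑ q ∈ segs n, F (0, q.1, q.2) := by
  rw [← Finset.sum_filter_add_sum_filter_not (trip (n + 1)) (fun p => p.1 ≠ 0)]
  congr 1
  · refine Finset.sum_bij' (fun p _ => (p.1 - 1, p.2.1, p.2.2)) (fun p _ => (p.1 + 1, p.2.1, p.2.2))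
      ?_ ?_ ?_ ?_ ?_
    · intro p hp
      simp only [trip, Finset.mem_filter, Finset.mem_product, Finset.mem_range] at hp ⊢
      omega
    · intro p hp
      simp only [trip, Finset.mem_filter, Finset.mem_product, Finset.mem_range] at hp ⊢
      omega
    · intro p hp
      simp only [trip, Finset.mem_filter, Finset.mem_product, Finset.mem_range] at hp
      ext <;> simp
      omega
    · intro p hp
      simp
    · intro p hp
      simp only [trip, Finset.mem_filter, Finset.mem_product, Finset.mem_range] at hp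
      congr 1
      ext <;> simp
      omega
  · refine Finset.sum_bij' (fun p _ => (p.2.1, p.2.2)) (fun q _ => (0, q.1, q.2)) ?_ ?_ ?_ ?_ ?_
    · intro p hp
      simp only [trip, segs, Finset.mem_filter, Finset.mem_product, Finset.mem_range,
        Finset.HasAntidiagonal.mem_antidiagonal] at hp ⊢
      omega
    · intro p hp
      simp only [trip, segs, Finset.mem_filter, Finset.mem_product, Finset.mem_range,
        Finset.HasAntidiagonal.mem_antidiagonal] at hp ⊢
      omega
    · intro p hp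
      simp only [trip, Finset.mem_filter, Finset.mem_product, Finset.mem_range] at hp
      ext <;> simp
      omega
    · intro p hp
      simp
    · intro p hp
      simp only [trip, Finset.mem_filter, Finset.mem_product, Finset.mem_range] at hp
      congr 1
      ext <;> simp
      omega

/-- rotating the coordinates -/
theorem trip_rot (n : ℕ) (F : ℕ × ℕ × ℕ → ZMod 2) :
    ∑ p ∈ trip n, F p = ∑ p ∈ trip n, F (p.2.1, p.2.2, p.1) := by
  refine Finset.sum_bij' (fun p _ => (p.2.2, p.1, p.2.1)) (fun p _ => (p.2.1, p.2.2, p.1))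
      ?_ ?_ ?_ ?_ ?_
  · intro p hp
    simp only [trip, Finset.mem_filter, Finset.mem_product, Finset.mem_range] at hp ⊢
    omega
  · intro p hp
    simp only [trip, Finset.mem_filter, Finset.mem_product, Finset.mem_range] at hp ⊢
    omega
  · intro p _; rfl
  · intro p _; rfl
  · intro p _; rfl

theorem trip2 (n : ℕ) (F : ℕ × ℕ × ℕ → ZMod 2) :
    ∑ p ∈ trip (n + 1), F p = ∑ p ∈ trip n, F (p.1, p.2.1 + 1, p.2.2) +
      ∑ q ∈ segs n, F (q.1, 0, q.2) := by
  rw [trip_rot, trip_rot, trip1, trip_rot n (fun p => F (p.1, p.2.1 + 1, p.2.2)),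
    trip_rot n (fun p => F (p.2.1, p.2.2 + 1, p.1))]
  congr 1
  rw [segs, ← Finset.Nat.sum_antidiagonal_swap]
  rfl

theorem trip3 (n : ℕ) (F : ℕ × ℕ × ℕ → ZMod 2) :
    ∑ p ∈ trip (n + 1), F p = ∑ p ∈ trip n, F (p.1, p.2.1, p.2.2 + 1) +
      ∑ q ∈ segs n, F (q.1, q.2, 0) := by
  rw [trip_rot, trip1, trip_rot n (fun p => F (p.1, p.2.1, p.2.2 + 1))]

/-- Stokes for a triangle. -/
theorem stokes_tri (n : ℕ) (a b c : W) (hab : a ≠ b) (hbc : b ≠ c) (hac : a ≠ c)
    (h : Finset (W → ℕ) → ZMod 2) :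
    ∑ s ∈ smalls n, ∑ x ∈ sverts a b c s, h ((sverts a b c s).erase x) =
      ∑ t ∈ segs n, h (tverts a b t) +
      ∑ t ∈ segs n, h (tverts b c t) +
      ∑ t ∈ segs n, h (tverts a c t) := by
  have hL := @lat_inj W _ _ a b c hab hbc hac
  let P := lat a b c
  let h1 : ℕ × ℕ × ℕ → ZMod 2 := fun p => h {P p.1 (p.2.1 + 1) p.2.2, P p.1 p.2.1 (p.2.2 + 1)}
  let h2 : ℕ × ℕ × ℕ → ZMod 2 := fun p => h {P (p.1 + 1) p.2.1 p.2.2, P p.1 p.2.1 (p.2.2 + 1)}
  let h3 : ℕ × ℕ × ℕ → ZMod 2 := fun p => h {P (p.1 + 1) p.2.1 p.2.2, P p.1 (p.2.1 + 1) p.2.2}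
  have up : ∀ p : ℕ × ℕ × ℕ, ∑ x ∈ sverts a b c (Sum.inl p), h ((sverts a b c (Sum.inl p)).erase x)
      = h1 p + h2 p + h3 p := by
    intro p
    rw [sverts, sum_erase3]
    · intro he; have := hL he; omega
    · intro he; have := hL he; omega
    · intro he; have := hL he; omega
  have down : ∀ p : ℕ × ℕ × ℕ,
      ∑ x ∈ sverts a b c (Sum.inr p), h ((sverts a b c (Sum.inr p)).erase x)
      = h3 (p.1, p.2.1, p.2.2 + 1) + h2 (p.1, p.2.1 + 1, p.2.2) + h1 (p.1 + 1, p.2.1, p.2.2) := by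
    intro p
    rw [sverts, sum_erase3]
    · intro he; have := hL he; omega
    · intro he; have := hL he; omega
    · intro he; have := hL he; omega
  rw [smalls, Finset.sum_disjSum, Finset.sum_congr rfl (fun p _ => up p),
    Finset.sum_congr rfl (fun p _ => down p)]
  simp only [Finset.sum_add_distrib]
  rw [trip1 n h1, trip2 n h2, trip3 n h3]
  have b1 : ∑ q ∈ segs n, h1 (0, q.1, q.2) = ∑ t ∈ segs n, h (tverts b c t) := by
    apply Finset.sum_congr rfl
    intro q _
    simp only [h1, P, lat, tverts, Pi.single_zero, zero_add]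
  have b2 : ∑ q ∈ segs n, h2 (q.1, 0, q.2) = ∑ t ∈ segs n, h (tverts a c t) := by
    apply Finset.sum_congr rfl
    intro q _
    simp only [h2, P, lat, tverts, Pi.single_zero, add_zero]
  have b3 : ∑ q ∈ segs n, h3 (q.1, q.2, 0) = ∑ t ∈ segs n, h (tverts a b t) := by
    apply Finset.sum_congr rfl
    intro q _
    simp only [h3, P, lat, tverts, Pi.single_zero, add_zero]
  rw [b1, b2, b3]
  generalize (∑ p ∈ trip n, h1 (p.1 + 1, p.2.1, p.2.2) : ZMod 2) = S1
  generalize (∑ p ∈ trip n, h2 (p.1, p.2.1 + 1, p.2.2) : ZMod 2) = S2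
  generalize (∑ p ∈ trip n, h3 (p.1, p.2.1, p.2.2 + 1) : ZMod 2) = S3
  generalize (∑ t ∈ segs n, h (tverts a b t) : ZMod 2) = A
  generalize (∑ t ∈ segs n, h (tverts b c t) : ZMod 2) = B
  generalize (∑ t ∈ segs n, h (tverts a c t) : ZMod 2) = C
  calc _ = (S1 + S1) + (S2 + S2) + (S3 + S3) + (A + B + C) := by ring
    _ = _ := by rw [z2 S1, z2 S2, z2 S3]; ring

end FF4
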