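import Mathlib

/-!
# FF4.SubDefs: the edgewise subdivision of the coned complex, and Stokes modulo 2

A lattice point is a function `W → ℕ` with sum `N = n + 2` (to be thought of as the point `x / N`).
-/

set_option autoImplicit false

namespace FF4

section

variable {W : Type} [Fintype W] [DecidableEq W]

/-- lattice point of the triangle `a b c` -/
def lat (a b c : W) (i j l : ℕ) : W → ℕ := Pi.single a i + Pi.single b j + Pi.single c l

/-- triples of naturals with sum `M` -/
def trip (M : ℕ) : Finset (ℕ × ℕ × ℕ) :=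
  ((Finset.range (M + 1)) ×ˢ ((Finset.range (M + 1)) ×ˢ (Finset.range (M + 1)))).filter
    (fun p => p.1 + p.2.1 + p.2.2 = M)

/-- index set of the small segments, `N = n + 2` -/
def segs (n : ℕ) : Finset (ℕ × ℕ) := Finset.HasAntidiagonal.antidiagonal (n + 1)

/-- index set of the small triangles (`inl`: up, `inr`: down), `N = n + 2` -/
def smalls (n : ℕ) : Finset ((ℕ × ℕ × ℕ) ⊕ (ℕ × ℕ × ℕ)) := (trip (n + 1)).disjSum (trip n)

/-- vertices of the small triangles of the triangle `a b c` -/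
def sverts (a b c : W) : (ℕ × ℕ × ℕ) ⊕ (ℕ × ℕ × ℕ) → Finset (W → ℕ)
  | Sum.inl p => {lat a b c (p.1 + 1) p.2.1 p.2.2, lat a b c p.1 (p.2.1 + 1) p.2.2,
      lat a b c p.1 p.2.1 (p.2.2 + 1)}
  | Sum.inr p => {lat a b c (p.1 + 1) (p.2.1 + 1) p.2.2, lat a b c (p.1 + 1) p.2.1 (p.2.2 + 1),
      lat a b c p.1 (p.2.1 + 1) (p.2.2 + 1)}

/-- vertices of the small segments of the edge `a b` -/
def tverts (a b : W) (p : ℕ × ℕ) : Finset (W → ℕ) :=
  {Pi.single a (p.1 + 1) + Pi.single b p.2, Pi.single a p.1 + Pi.single b (p.2 + 1)}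

end

section

variable {V : Type} [Fintype V] [DecidableEq V] {k : ℕ}

/-- index set of the small triangles of the cell attached along the cycle `l` -/
def ctri (n : ℕ) (l : List V) : Finset (ℕ × ((ℕ × ℕ × ℕ) ⊕ (ℕ × ℕ × ℕ))) :=
  Finset.range l.length ×ˢ smalls n

/-- vertices of the small triangles of the cell number `i` attached along the cycle `l` -/
def cverts (i : Fin k) (l : List V) (s : ℕ × ((ℕ × ℕ × ℕ) ⊕ (ℕ × ℕ × ℕ))) :
    Finset (V ⊕ Fin k → ℕ) :=
  if h : s.1 < l.length then
    sverts (Sum.inr i) (Sum.inl (l[s.1]'h))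
      (Sum.inl (l[(s.1 + 1) % l.length]'(Nat.mod_lt _ (by omega)))) s.2
  else ∅

end

end FF4
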