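import Pool.Agent.Lib.FF4.Defs
import Pool.Agent.Lib.FF4.Base
import Pool.Agent.Lib.FF4.SubDefs

/-!
# FF4.Top1: fine subdivisions of an embedded complex

PROOF. (a) For `s ∈ ctri n l`, `x ∈ cverts i l s`: `rp n x ∈ cell i l` (it is a convex combination of the three
points with coefficients `i/(n+2), j/(n+2), l/(n+2)`); two points of the same `cverts` have distance `≤ 1/(n+2)` (sup
norm). (b) `cell i l` is compact (finite union of hulls of finite sets), nonempty; cells of `p ∈ S` are disjoint: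
a point of `cell i l` has coordinate sum 1 and vanishes outside `inr i` and `inl a`, `a ∈ l`. `poly` is compact
(finite union: `V` finite). (c) `f` is uniformly continuous on `poly` (`IsCompact.uniformContinuousOn_of_continuous`);
`f '' cell`, `f '' cell'` are disjoint compact sets so have positive distance `8 ε` (minimum over the finite `S`;
if `S = ∅` take `ε = 1`). (d) Choose `n` with `1/(n+2) < δ` where `δ` belongs to `ε`; `y = f (rp n x0)` for some
`x0 ∈ cverts`, `z` similarly (`cverts` is nonempty for `s ∈ ctri`).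
-/

set_option autoImplicit false

namespace FF4

variable {V : Type} [Fintype V] [DecidableEq V] {k : ℕ}

/-- the real point of a lattice point -/
noncomputable def rp (n : ℕ) (x : V ⊕ Fin k → ℕ) : V ⊕ Fin k → ℝ :=
  fun w => (x w : ℝ) / ((n : ℝ) + 2)

theorem t1_rp_lat (n : ℕ) (a b c : V ⊕ Fin k) (i j l : ℕ) :
    rp n (lat a b c i j l) = ((i : ℝ) / ((n : ℝ) + 2)) • pt a + ((j : ℝ) / ((n : ℝ) + 2)) • pt b
      + ((l : ℝ) / ((n : ℝ) + 2)) • pt c := by
  have h2 : (n : ℝ) + 2 ≠ 0 := by positivity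
  funext w
  simp only [rp, lat, pt, Pi.add_apply, Pi.smul_apply, smul_eq_mul, Nat.cast_add,
    Pi.single_apply]
  split_ifs <;> push_cast <;> field_simp <;> ring

theorem t1_rp_lat_mem (n : ℕ) (a b c : V ⊕ Fin k) (i j l : ℕ) (h : i + j + l = n + 2) :
    rp n (lat a b c i j l) ∈ convexHull ℝ ({pt a, pt b, pt c} : Set (V ⊕ Fin k → ℝ)) := by
  have h2 : (0 : ℝ) < (n : ℝ) + 2 := by positivity
  rw [t1_rp_lat]
  have hc := convex_convexHull ℝ ({pt a, pt b, pt c} : Set (V ⊕ Fin k → ℝ))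
  have ha : (pt a : V ⊕ Fin k → ℝ) ∈ convexHull ℝ ({pt a, pt b, pt c} : Set (V ⊕ Fin k → ℝ)) :=
    subset_convexHull ℝ _ (by simp)
  have hb : (pt b : V ⊕ Fin k → ℝ) ∈ convexHull ℝ ({pt a, pt b, pt c} : Set (V ⊕ Fin k → ℝ)) :=
    subset_convexHull ℝ _ (by simp)
  have hcc : (pt c : V ⊕ Fin k → ℝ) ∈ convexHull ℝ ({pt a, pt b, pt c} : Set (V ⊕ Fin k → ℝ)) :=
    subset_convexHull ℝ _ (by simp)
  have h3 : ((i : ℝ) + j + l) = (n : ℝ) + 2 := by exact_mod_cast h
  have key := hc.sum_mem (t := (Finset.univ : Finset (Fin 3)))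
    (w := ![(i : ℝ) / ((n : ℝ) + 2), (j : ℝ) / ((n : ℝ) + 2), (l : ℝ) / ((n : ℝ) + 2)])
    (z := ![pt a, pt b, pt c]) ?_ ?_ ?_
  · simpa [Fin.sum_univ_three] using key
  · intro t _
    fin_cases t <;> simp <;> positivity
  · simp only [Fin.sum_univ_three, Matrix.cons_val_zero, Matrix.cons_val_one, Matrix.cons_val]
    rw [← add_div, ← add_div, h3, div_self h2.ne']
  · intro t _
    fin_cases t
    · simpa using ha
    · simpa using hb
    · simpa using hcc

theorem t1_smalls_mem {n : ℕ} {a b c : V ⊕ Fin k} {s : (ℕ × ℕ × ℕ) ⊕ (ℕ × ℕ × ℕ)}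
    (hs : s ∈ smalls n) {x : V ⊕ Fin k → ℕ} (hx : x ∈ sverts a b c s) :
    rp n x ∈ convexHull ℝ ({pt a, pt b, pt c} : Set (V ⊕ Fin k → ℝ)) := by
  rcases s with p | p
  · have hp : p.1 + p.2.1 + p.2.2 = n + 1 := by
      have : p ∈ trip (n + 1) := by
        simpa [smalls] using hs
      exact (Finset.mem_filter.1 this).2
    simp only [sverts, Finset.mem_insert, Finset.mem_singleton] at hx
    rcases hx with rfl | rfl | rfl <;> exact t1_rp_lat_mem _ _ _ _ _ _ _ (by omega)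
  · have hp : p.1 + p.2.1 + p.2.2 = n := by
      have : p ∈ trip n := by
        simpa [smalls] using hs
      exact (Finset.mem_filter.1 this).2
    simp only [sverts, Finset.mem_insert, Finset.mem_singleton] at hx
    rcases hx with rfl | rfl | rfl <;> exact t1_rp_lat_mem _ _ _ _ _ _ _ (by omega)

theorem t1_ctri_mem {n : ℕ} {i : Fin k} {l : List V} {s : ℕ × ((ℕ × ℕ × ℕ) ⊕ (ℕ × ℕ × ℕ))}
    (hs : s ∈ ctri n l) {x : V ⊕ Fin k → ℕ} (hx : x ∈ cverts i l s) :
    rp n x ∈ cell i l := by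
  have h1 : s.1 < l.length ∧ s.2 ∈ smalls n := by
    simpa [ctri] using hs
  rw [cverts, dif_pos h1.1] at hx
  exact ⟨s.1, h1.1, t1_smalls_mem h1.2 hx⟩

theorem t1_sverts_near (a b c : V ⊕ Fin k) (s : (ℕ × ℕ × ℕ) ⊕ (ℕ × ℕ × ℕ)) (w : V ⊕ Fin k) :
    ∃ m : ℕ, ∀ x ∈ sverts a b c s, m ≤ x w ∧ x w ≤ m + 1 := by
  rcases s with p | p
  · refine ⟨lat a b c p.1 p.2.1 p.2.2 w, fun x hx => ?_⟩
    simp only [sverts, Finset.mem_insert, Finset.mem_singleton] at hx
    rcases hx with rfl | rfl | rfl <;>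
      simp only [lat, Pi.add_apply, Pi.single_apply] <;> split_ifs <;> omega
  · refine ⟨lat a b c (p.1 + 1) (p.2.1 + 1) (p.2.2 + 1) w - 1, fun x hx => ?_⟩
    simp only [sverts, Finset.mem_insert, Finset.mem_singleton] at hx
    rcases hx with rfl | rfl | rfl <;>
      simp only [lat, Pi.add_apply, Pi.single_apply] <;> split_ifs <;> omega

theorem t1_cverts_dist {n : ℕ} {i : Fin k} {l : List V} {s : ℕ × ((ℕ × ℕ × ℕ) ⊕ (ℕ × ℕ × ℕ))}
    {x y : V ⊕ Fin k → ℕ} (hx : x ∈ cverts i l s) (hy : y ∈ cverts i l s) :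
    dist (rp n x) (rp n y) ≤ 1 / ((n : ℝ) + 2) := by
  have h2 : (0 : ℝ) < (n : ℝ) + 2 := by positivity
  have hl : s.1 < l.length := by
    by_contra hcon
    rw [cverts, dif_neg hcon] at hx
    simp at hx
  rw [cverts, dif_pos hl] at hx hy
  rw [dist_pi_le_iff (by positivity)]
  intro w
  obtain ⟨m, hm⟩ := t1_sverts_near (Sum.inr i) (Sum.inl (l[s.1]'hl))
      (Sum.inl (l[(s.1 + 1) % l.length]'(Nat.mod_lt _ (by omega)))) s.2 w
  have h3 := hm x hx
  have h4 := hm y hy
  have e1 : (m : ℝ) ≤ x w := by exact_mod_cast h3.1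
  have e2 : (x w : ℝ) ≤ m + 1 := by exact_mod_cast h3.2
  have e3 : (m : ℝ) ≤ y w := by exact_mod_cast h4.1
  have e4 : (y w : ℝ) ≤ m + 1 := by exact_mod_cast h4.2
  rw [Real.dist_eq]
  simp only [rp]
  rw [← sub_div, abs_div, abs_of_pos h2]
  gcongr
  rw [abs_le]
  constructor <;> linarith

theorem t1_cell_compact (i : Fin k) (l : List V) : IsCompact (cell i l) := by
  have h : cell i l = ⋃ j : Fin l.length,
      convexHull ℝ {pt (Sum.inr i), pt (Sum.inl (l[j.1]'j.2)),
      pt (Sum.inl (l[(j.1 + 1) % l.length]'(Nat.mod_lt _ (by have := j.2; omega))))} := by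
    ext x
    simp only [cell, Set.mem_ofPred_eq, Set.mem_iUnion]
    constructor
    · rintro ⟨j, hj, hx⟩
      exact ⟨⟨j, hj⟩, hx⟩
    · rintro ⟨j, hx⟩
      exact ⟨j.1, j.2, hx⟩
  rw [h]
  refine isCompact_iUnion fun j => ?_
  have hfin : ({pt (Sum.inr i), pt (Sum.inl (l[j.1]'j.2)),
      pt (Sum.inl (l[(j.1 + 1) % l.length]'(Nat.mod_lt _ (by have := j.2; omega))))} :
      Set (V ⊕ Fin k → ℝ)).Finite := by
    exact ((Set.finite_singleton _).insert _).insert _
  exact hfin.isCompact_convexHull ℝ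

theorem t1_poly_compact (G : SimpleGraph V) (c : Fin k → List V) : IsCompact (poly G c) := by
  classical
  have h1 : IsCompact {x : V ⊕ Fin k → ℝ | ∃ v : V, x = pt (Sum.inl v)} := by
    have : {x : V ⊕ Fin k → ℝ | ∃ v : V, x = pt (Sum.inl v)} =
        Set.range (fun v : V => (pt (Sum.inl v) : V ⊕ Fin k → ℝ)) := by
      ext x
      simp only [Set.mem_ofPred_eq, Set.mem_range]
      exact exists_congr fun v => eq_comm
    rw [this]
    exact (Set.finite_range _).isCompact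
  have h2 : IsCompact {x : V ⊕ Fin k → ℝ | ∃ u v : V, G.Adj u v ∧
      x ∈ segment ℝ (pt (Sum.inl u)) (pt (Sum.inl v))} := by
    have : {x : V ⊕ Fin k → ℝ | ∃ u v : V, G.Adj u v ∧
        x ∈ segment ℝ (pt (Sum.inl u)) (pt (Sum.inl v))} =
        ⋃ p : {p : V × V // G.Adj p.1 p.2},
          segment ℝ (pt (Sum.inl p.1.1)) (pt (Sum.inl p.1.2)) := by
      ext x
      simp only [Set.mem_ofPred_eq, Set.mem_iUnion]
      constructor
      · rintro ⟨u, v, huv, hx⟩
        exact ⟨⟨(u, v), huv⟩, hx⟩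
      · rintro ⟨p, hx⟩
        exact ⟨p.1.1, p.1.2, p.2, hx⟩
    rw [this]
    refine isCompact_iUnion fun p => ?_
    rw [← convexHull_pair (𝕜 := ℝ)]
    have hfin : ({pt (Sum.inl p.1.1), pt (Sum.inl p.1.2)} : Set (V ⊕ Fin k → ℝ)).Finite :=
      (Set.finite_singleton _).insert _
    exact hfin.isCompact_convexHull ℝ
  have h3 : IsCompact {x : V ⊕ Fin k → ℝ | ∃ i : Fin k, x ∈ cell i (c i)} := by
    have : {x : V ⊕ Fin k → ℝ | ∃ i : Fin k, x ∈ cell i (c i)} = ⋃ i : Fin k, cell i (c i) := by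
      ext x
      simp
    rw [this]
    exact isCompact_iUnion fun i => t1_cell_compact i (c i)
  exact (h1.union h2).union h3

theorem t1_cell_sub (G : SimpleGraph V) (c : Fin k → List V) (i : Fin k) :
    cell i (c i) ⊆ poly G c := fun x hx => Or.inr ⟨i, hx⟩

theorem t1_cell_supp {i : Fin k} {l : List V} {x : V ⊕ Fin k → ℝ} (hx : x ∈ cell i l) :
    ∑ w, x w = 1 ∧ ∀ w, w ≠ Sum.inr i → (∀ a ∈ l, w ≠ Sum.inl a) → x w = 0 := by
  obtain ⟨j, hj, hx⟩ := hx
  have hconv : Convex ℝ {x : V ⊕ Fin k → ℝ | ∑ w, x w = 1 ∧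
      ∀ w, w ≠ Sum.inr i → (∀ a ∈ l, w ≠ Sum.inl a) → x w = 0} := by
    intro y hy z hz s t _ _ hst
    refine ⟨?_, fun w h1 h2 => ?_⟩
    · simp only [Pi.add_apply, Pi.smul_apply, smul_eq_mul, Finset.sum_add_distrib,
        ← Finset.mul_sum, hy.1, hz.1]
      linarith
    · simp [hy.2 w h1 h2, hz.2 w h1 h2]
  refine convexHull_min ?_ hconv hx
  intro y hy
  simp only [Set.mem_insert_iff, Set.mem_singleton_iff] at hy
  rcases hy with rfl | rfl | rfl
  · refine ⟨by simp [pt], fun w h1 _ => ?_⟩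
    simp [pt, Pi.single_apply, h1]
  · refine ⟨by simp [pt], fun w _ h2 => ?_⟩
    have := h2 _ (List.getElem_mem hj)
    simp only [pt, Pi.single_apply, if_neg this]
  · refine ⟨by simp [pt], fun w _ h2 => ?_⟩
    have := h2 _ (List.getElem_mem (l := l) (n := (j + 1) % l.length)
      (Nat.mod_lt _ (by omega)))
    simp only [pt, Pi.single_apply, if_neg this]

theorem t1_cell_disj {i i' : Fin k} {l l' : List V} (h : ∀ a ∈ l, a ∉ l') (hii : i ≠ i') :
    Disjoint (cell i l) (cell i' l') := by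
  rw [Set.disjoint_left]
  intro x hx hx'
  have h1 := t1_cell_supp hx
  have h2 := t1_cell_supp hx'
  have h3 : ∀ w, x w = 0 := by
    rintro (a | j)
    · by_cases ha : a ∈ l
      · refine h2.2 _ (by simp) fun b hb hab => ?_
        have : a = b := by simpa using hab
        subst this
        exact h a ha hb
      · refine h1.2 _ (by simp) fun b hb hab => ?_
        have : a = b := by simpa using hab
        subst this
        exact ha hb
    · by_cases hj : j = i
      · subst hj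
        exact h2.2 _ (by simpa using hii) fun b _ => by simp
      · exact h1.2 _ (by simpa using hj) fun b _ => by simp
  have h4 : ∑ w, x w = 0 := Finset.sum_eq_zero fun w _ => h3 w
  rw [h1.1] at h4
  exact one_ne_zero h4

theorem t1_exists_min_pos {α : Type} (S : Finset α) (P : α → ℝ → Prop)
    (hP : ∀ a ∈ S, ∃ r : ℝ, 0 < r ∧ P a r) (hm : ∀ a r r', r' ≤ r → P a r → P a r') :
    ∃ r : ℝ, 0 < r ∧ ∀ a ∈ S, P a r := by
  classical
  induction S using Finset.induction_on with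
  | empty => exact ⟨1, one_pos, fun a ha => absurd ha (Finset.notMem_empty a)⟩
  | insert a s _ ih =>
    obtain ⟨r, hr, h1⟩ := ih fun b hb => hP b (Finset.mem_insert_of_mem hb)
    obtain ⟨r', hr', h2⟩ := hP a (Finset.mem_insert_self a s)
    refine ⟨min r r', lt_min hr hr', fun b hb => ?_⟩
    rcases Finset.mem_insert.1 hb with rfl | hb
    · exact hm _ _ _ (min_le_right _ _) h2
    · exact hm _ _ _ (min_le_left _ _) (h1 b hb)

theorem t1_cverts_nonempty {n : ℕ} {i : Fin k} {l : List V} {s : ℕ × ((ℕ × ℕ × ℕ) ⊕ (ℕ × ℕ × ℕ))}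
    (hs : s ∈ ctri n l) : ∃ x, x ∈ cverts i l s := by
  have h1 : s.1 < l.length ∧ s.2 ∈ smalls n := by
    simpa [ctri] using hs
  rw [cverts, dif_pos h1.1]
  obtain ⟨j, s2⟩ := s
  rcases s2 with p | p
  · exact ⟨_, Finset.mem_insert_self _ _⟩
  · exact ⟨_, Finset.mem_insert_self _ _⟩

/-- If `f` is continuous and injective on the polyhedron and `S` is a set of pairs of cells with
disjoint boundary cycles, then for a suitable `n` the small triangles of the two cells of a pair in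
`S` have vertex images in small balls that are far apart. -/
theorem top1 (G : SimpleGraph V) (c : Fin k → List V) (hc : ∀ i, IsCyc G (c i))
    (f : (V ⊕ Fin k → ℝ) → E4) (hf : ContinuousOn f (poly G c)) (hinj : Set.InjOn f (poly G c))
    (S : Finset (Fin k × Fin k)) (hS : ∀ p ∈ S, ∀ a ∈ c p.1, a ∉ c p.2) :
    ∃ (ε : ℝ) (n : ℕ), 0 < ε ∧ ∀ p ∈ S, ∀ s ∈ ctri n (c p.1), ∀ t ∈ ctri n (c p.2),
      ∃ y z : E4, 8 * ε ≤ dist y z ∧
        (∀ x ∈ cverts p.1 (c p.1) s, dist (f (rp n x)) y ≤ ε) ∧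
        (∀ x ∈ cverts p.2 (c p.2) t, dist (f (rp n x)) z ≤ ε) := by
  have hpc := t1_poly_compact G c
  have hcomp : ∀ i, IsCompact (f '' cell i (c i)) := fun i =>
    (t1_cell_compact i (c i)).image_of_continuousOn (hf.mono (t1_cell_sub G c i))
  obtain ⟨r, hr, hdist⟩ := t1_exists_min_pos S
    (fun p r => ∀ y ∈ f '' cell p.1 (c p.1), ∀ z ∈ f '' cell p.2 (c p.2), r ≤ dist y z)
    (by
      intro p hp
      have hne : p.1 ≠ p.2 := by
        intro heq
        have h3 := (hc p.1).1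
        have hlen : 0 < (c p.1).length := by omega
        have h4 := hS p hp _ (List.getElem_mem hlen)
        rw [← heq] at h4
        exact h4 (List.getElem_mem hlen)
      have hd : Disjoint (f '' cell p.1 (c p.1)) (f '' cell p.2 (c p.2)) := by
        rw [Set.disjoint_left]
        rintro _ ⟨x, hx, rfl⟩ ⟨y, hy, hxy⟩
        have : y = x := hinj (t1_cell_sub G c _ hy) (t1_cell_sub G c _ hx) hxy
        subst this
        exact Set.disjoint_left.1 (t1_cell_disj (hS p hp) hne) hx hy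
      obtain ⟨r, hr, h⟩ := Metric.exists_pos_forall_lt_edist (hcomp p.1) (hcomp p.2).isClosed hd
      refine ⟨r, by exact_mod_cast hr, fun y hy z hz => ?_⟩
      have h5 := h y hy z hz
      rw [edist_nndist, ENNReal.coe_lt_coe] at h5
      have h6 : (r : ℝ) < (nndist y z : ℝ) := by exact_mod_cast h5
      rw [coe_nndist] at h6
      exact h6.le)
    (fun p r r' hrr h y hy z hz => hrr.trans (h y hy z hz))
  have huc := hpc.uniformContinuousOn_of_continuous hf
  rw [Metric.uniformContinuousOn_iff] at huc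
  obtain ⟨δ, hδ, huc⟩ := huc (r / 8) (by positivity)
  obtain ⟨n, hn⟩ := exists_nat_one_div_lt hδ
  have hn2 : 1 / ((n : ℝ) + 2) < δ := by
    refine lt_of_le_of_lt ?_ hn
    apply one_div_le_one_div_of_le
    · positivity
    · linarith
  refine ⟨r / 8, n, by positivity, fun p hp s hs t ht => ?_⟩
  obtain ⟨x0, hx0⟩ := t1_cverts_nonempty (i := p.1) hs
  obtain ⟨z0, hz0⟩ := t1_cverts_nonempty (i := p.2) ht
  refine ⟨f (rp n x0), f (rp n z0), ?_, fun x hx => ?_, fun x hx => ?_⟩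
  · have h7 := hdist p hp _ ⟨_, t1_ctri_mem hs hx0, rfl⟩ _ ⟨_, t1_ctri_mem ht hz0, rfl⟩
    linarith
  · exact (huc _ (t1_cell_sub G c _ (t1_ctri_mem hs hx)) _ (t1_cell_sub G c _ (t1_ctri_mem hs hx0))
      (lt_of_le_of_lt (t1_cverts_dist hx hx0) hn2)).le
  · exact (huc _ (t1_cell_sub G c _ (t1_ctri_mem ht hx)) _ (t1_cell_sub G c _ (t1_ctri_mem ht hz0))
      (lt_of_le_of_lt (t1_cverts_dist hx hz0) hn2)).le

end FF4
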